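import Mathlib

set_option autoImplicit false

open Set Filter Topology Complex
open scoped ComplexConjugate

namespace Pool.Agent.Helper647.Sew

/-- exponent of the spiral chart -/
noncomputable def kap (lp lm : ℝ) : ℂ :=
  2 * Real.pi * I / (((Real.log lp - Real.log lm : ℝ) : ℂ) + 2 * Real.pi * I)

lemma kap_den (lp lm : ℝ) : (((Real.log lp - Real.log lm : ℝ) : ℂ) + 2 * Real.pi * I) ≠ 0 := by
  intro h
  have := congrArg Complex.im h
  simp at this

lemma kap_mul (lp lm : ℝ) :
    kap lp lm * (((Real.log lp - Real.log lm : ℝ) : ℂ) + 2 * Real.pi * I) = 2 * Real.pi * I := by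
  unfold kap
  exact div_mul_cancel₀ _ (kap_den lp lm)

lemma kap_re (lp lm : ℝ) : 0 < (kap lp lm).re := by
  have h := kap_mul lp lm
  set L := Real.log lp - Real.log lm with hL
  have h1 := congrArg Complex.re h
  have h2 := congrArg Complex.im h
  simp only [mul_re, add_re, ofReal_re, add_im, ofReal_im, mul_im, I_re, I_im, re_ofNat, im_ofNat]
    at h1 h2
  have hpi := Real.pi_pos
  set a := (kap lp lm).re
  set b := (kap lp lm).im
  have e1 : a * L = b * (2 * Real.pi) := by linarith
  have e2 : a * (2 * Real.pi) + b * L = 2 * Real.pi := by linarith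
  by_contra hcon
  push Not at hcon
  have e3 : a * (L ^ 2 + (2 * Real.pi) ^ 2) = (2 * Real.pi) ^ 2 := by
    have : a * (L ^ 2 + (2 * Real.pi) ^ 2) = (a * L) * L + (a * (2 * Real.pi)) * (2 * Real.pi) := by
      ring
    rw [this, e1, show a * (2 * Real.pi) = 2 * Real.pi - b * L by linarith]
    ring
  have : a * (L ^ 2 + (2 * Real.pi) ^ 2) ≤ 0 :=
    mul_nonpos_of_nonpos_of_nonneg hcon (by positivity)
  have h5 : 0 < (2 * Real.pi) ^ 2 := by positivity
  linarith

lemma kap_ne (lp lm : ℝ) : kap lp lm ≠ 0 := by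
  intro h
  have := kap_re lp lm
  rw [h] at this
  simp at this

/-- chart on the bottom side -/
noncomputable def PU (lp lm : ℝ) (T : ℂ) : ℂ := T ^ (kap lp lm)

/-- chart on the top side -/
noncomputable def PD (lp lm : ℝ) (T : ℂ) : ℂ :=
  conj ((conj T) ^ (conj (kap lp lm))) * exp (-(kap lp lm * (Real.log lp : ℂ)))

lemma PU_zero (lp lm : ℝ) : PU lp lm 0 = 0 := by simp [PU, kap_ne]

lemma PD_zero (lp lm : ℝ) : PD lp lm 0 = 0 := by simp [PD, kap_ne]

lemma PU_eq (lp lm : ℝ) {T : ℂ} (hT : T ≠ 0) : PU lp lm T = exp (kap lp lm * log T) := by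
  rw [PU, cpow_def_of_ne_zero hT, mul_comm]

lemma PD_eq (lp lm : ℝ) {T : ℂ} (hT : T ≠ 0) :
    PD lp lm T = exp (kap lp lm * (conj (log (conj T)) - (Real.log lp : ℂ))) := by
  have h : conj T ≠ 0 := by simpa using hT
  rw [PD, cpow_def_of_ne_zero h, ← exp_conj, map_mul, conj_conj, ← exp_add]
  congr 1
  ring

lemma cpow_contOn {k : ℂ} (hk : 0 < k.re) : ContinuousOn (fun T : ℂ => T ^ k) {T | 0 ≤ T.im} := by
  intro T hT
  by_cases h0 : T = 0
  · have := continuousAt_cpow_zero_of_re_pos hk
    have h2 : ContinuousAt (fun T : ℂ => T ^ k) 0 :=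
      ContinuousAt.comp (g := fun x : ℂ × ℂ => x.1 ^ x.2) (f := fun T : ℂ => (T, k)) this
        (by fun_prop)
    rw [h0]
    exact h2.continuousWithinAt
  · have hl : ContinuousWithinAt log {T | 0 ≤ T.im} T := by
      by_cases hs : T ∈ slitPlane
      · exact (continuousAt_clog hs).continuousWithinAt
      · rw [mem_slitPlane_iff] at hs
        push Not at hs
        apply continuousWithinAt_log_of_re_neg_of_im_zero _ hs.2
        rcases hs.1.lt_or_eq with h1 | h1
        · exact h1
        · exact (h0 (Complex.ext h1 hs.2)).elim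
    have h1 : ContinuousWithinAt (fun T : ℂ => exp (log T * k)) {T | 0 ≤ T.im} T :=
      (hl.mul continuousWithinAt_const).cexp
    refine h1.congr_of_eventuallyEq ?_ (cpow_def_of_ne_zero h0 k)
    filter_upwards [nhdsWithin_le_nhds (isOpen_ne.mem_nhds h0)] with w hw
    exact cpow_def_of_ne_zero hw k

lemma PU_contOn (lp lm : ℝ) : ContinuousOn (PU lp lm) {T | 0 ≤ T.im} := cpow_contOn (kap_re lp lm)

lemma PD_contOn (lp lm : ℝ) : ContinuousOn (PD lp lm) {T | T.im ≤ 0} := by
  have h1 : ContinuousOn (fun T : ℂ => T ^ (conj (kap lp lm))) {T | 0 ≤ T.im} :=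
    cpow_contOn (by simpa using kap_re lp lm)
  have h2 : ContinuousOn (fun T : ℂ => (conj T) ^ (conj (kap lp lm))) {T | T.im ≤ 0} :=
    h1.comp continuous_conj.continuousOn (by intro T hT; simpa using hT)
  exact (continuous_conj.comp_continuousOn h2).mul continuousOn_const

lemma PU_diff (lp lm : ℝ) {T : ℂ} (hT : 0 < T.im) : DifferentiableAt ℂ (PU lp lm) T := by
  have hs : T ∈ slitPlane := by rw [mem_slitPlane_iff]; right; exact hT.ne'
  unfold PU
  exact differentiableAt_id.cpow_const hs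

lemma PD_diff (lp lm : ℝ) {T : ℂ} (hT : T.im < 0) : DifferentiableAt ℂ (PD lp lm) T := by
  have hs : T ∈ slitPlane := by rw [mem_slitPlane_iff]; right; exact hT.ne
  have h1 : DifferentiableAt ℂ
      (fun T => exp (kap lp lm * (log T - (Real.log lp : ℂ)))) T := by
    have := differentiableAt_id.clog (x := T) hs
    exact ((this.sub_const _).const_mul _).cexp
  refine h1.congr_of_eventuallyEq ?_
  filter_upwards [(isOpen_lt continuous_im continuous_const).mem_nhds hT] with w hw
  have hw0 : w ≠ 0 := by rintro rfl; simp at hw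
  rw [PD_eq lp lm hw0]
  have : log (conj w) = conj (log w) := by
    apply log_conj
    intro h
    rw [arg_eq_pi_iff] at h
    exact absurd h.2 (ne_of_lt hw)
  rw [this, conj_conj]

lemma log_im_up {T : ℂ} (hT : 0 ≤ T.im) : 0 ≤ (log T).im ∧ (log T).im ≤ Real.pi := by
  rw [log_im]
  exact ⟨arg_nonneg_iff.2 hT, arg_le_pi T⟩

lemma log_im_dn {T : ℂ} (hT : T.im ≤ 0) :
    (conj (log (conj T))).im ≤ 0 ∧ -Real.pi ≤ (conj (log (conj T))).im := by
  have := log_im_up (T := conj T) (by simpa using hT)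
  simp only [conj_im]
  constructor <;> linarith [this.1, this.2]

/-- matching on the positive side -/
lemma match_pos {lp lm t : ℝ} (hlp : 0 < lp) (ht : 0 < t) :
    PD lp lm ((lp * t : ℝ) : ℂ) = PU lp lm (t : ℂ) := by
  have h1 : ((lp * t : ℝ) : ℂ) ≠ 0 := by exact_mod_cast (by positivity : lp * t ≠ 0)
  have h2 : (t : ℂ) ≠ 0 := by exact_mod_cast ht.ne'
  rw [PD_eq lp lm h1, PU_eq lp lm h2, conj_ofReal]
  rw [← ofReal_log (by positivity), ← ofReal_log ht.le, conj_ofReal, Real.log_mul hlp.ne' ht.ne']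
  congr 1
  push_cast
  ring

/-- matching on the negative side -/
lemma match_neg {lp lm t : ℝ} (hlm : 0 < lm) (ht : t < 0) :
    PD lp lm ((lm * t : ℝ) : ℂ) = PU lp lm (t : ℂ) := by
  have hlt : lm * t < 0 := mul_neg_of_pos_of_neg hlm ht
  have h1 : ((lm * t : ℝ) : ℂ) ≠ 0 := by exact_mod_cast hlt.ne
  have h2 : (t : ℂ) ≠ 0 := by exact_mod_cast ht.ne
  rw [PD_eq lp lm h1, PU_eq lp lm h2, conj_ofReal]
  have l1 : log ((lm * t : ℝ) : ℂ) = ((Real.log lm + Real.log (-t) : ℝ) : ℂ) + Real.pi * I := by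
    have := log_ofReal_mul (r := lm * (-t)) (by nlinarith) (x := -1) (by norm_num)
    have h3 : ((lm * (-t) : ℝ) : ℂ) * (-1) = ((lm * t : ℝ) : ℂ) := by push_cast; ring
    rw [h3] at this
    rw [this, Real.log_mul hlm.ne' (by linarith), log_neg_one]
  have l2 : log (t : ℂ) = ((Real.log (-t) : ℝ) : ℂ) + Real.pi * I := by
    have := log_ofReal_mul (r := (-t)) (by linarith) (x := -1) (by norm_num)
    have h3 : ((-t : ℝ) : ℂ) * (-1) = (t : ℂ) := by push_cast; ring
    rw [h3] at this
    rw [this, log_neg_one]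
  rw [l1, l2]
  have h4 : conj (((Real.log lm + Real.log (-t) : ℝ) : ℂ) + Real.pi * I)
      = ((Real.log lm + Real.log (-t) : ℝ) : ℂ) - Real.pi * I := by
    simp [sub_eq_add_neg]
  rw [h4]
  have key : kap lp lm * (((Real.log (-t) : ℝ) : ℂ) + Real.pi * I)
      = kap lp lm * (((Real.log lm + Real.log (-t) : ℝ) : ℂ) - Real.pi * I - (Real.log lp : ℂ))
        + 2 * Real.pi * I := by
    rw [← kap_mul lp lm]
    push_cast
    ring
  rw [key, exp_add, exp_two_pi_mul_I, mul_one]

lemma kap_int_aux {lp lm : ℝ} {L L' : ℂ} (h : exp (kap lp lm * L) = exp (kap lp lm * L')) :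
    ∃ n : ℤ, L = L' + n * (((Real.log lp - Real.log lm : ℝ) : ℂ) + 2 * Real.pi * I) := by
  obtain ⟨n, hn⟩ := exp_eq_exp_iff_exists_int.1 h
  refine ⟨n, ?_⟩
  have hk := kap_ne lp lm
  apply mul_left_cancel₀ hk
  have h5 := kap_mul lp lm
  rw [hn]
  linear_combination -(n : ℂ) * h5

lemma kap_int_im {lp lm : ℝ} {L L' : ℂ} {n : ℤ}
    (h : L = L' + n * (((Real.log lp - Real.log lm : ℝ) : ℂ) + 2 * Real.pi * I)) :
    L.im = L'.im + n * (2 * Real.pi) := by
  rw [h]; simp

lemma PU_ne {lp lm : ℝ} {T : ℂ} (hT : T ≠ 0) : PU lp lm T ≠ 0 := by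
  rw [PU_eq lp lm hT]; exact exp_ne_zero _

lemma PD_ne {lp lm : ℝ} {T : ℂ} (hT : T ≠ 0) : PD lp lm T ≠ 0 := by
  rw [PD_eq lp lm hT]; exact exp_ne_zero _

lemma PU_inj {lp lm : ℝ} {T T' : ℂ} (hT : 0 ≤ T.im) (hT' : 0 ≤ T'.im)
    (h : PU lp lm T = PU lp lm T') : T = T' := by
  by_cases h0 : T = 0
  · by_contra hne
    rw [h0, PU_zero] at h
    exact PU_ne (fun h1 => hne (by rw [h0, h1])) h.symm
  by_cases h0' : T' = 0
  · rw [h0', PU_zero] at h
    exact (PU_ne h0 h).elim
  rw [PU_eq lp lm h0, PU_eq lp lm h0'] at h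
  obtain ⟨n, hn⟩ := kap_int_aux h
  have h1 := kap_int_im hn
  have h2 := log_im_up hT
  have h3 := log_im_up hT'
  have hpi := Real.pi_pos
  have hn0 : n = 0 := by
    have h4 : (n : ℝ) < 1 := by
      by_contra hcon; push Not at hcon; nlinarith
    have h5 : (-1 : ℝ) < n := by
      by_contra hcon; push Not at hcon; nlinarith
    have h6 : n < 1 := by exact_mod_cast h4
    have h7 : -1 < n := by exact_mod_cast h5
    omega
  rw [hn0] at hn
  simp at hn
  rw [← exp_log h0, hn, exp_log h0']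

lemma PD_inj {lp lm : ℝ} {T T' : ℂ} (hT : T.im ≤ 0) (hT' : T'.im ≤ 0)
    (h : PD lp lm T = PD lp lm T') : T = T' := by
  by_cases h0 : T = 0
  · by_contra hne
    rw [h0, PD_zero] at h
    exact PD_ne (fun h1 => hne (by rw [h0, h1])) h.symm
  by_cases h0' : T' = 0
  · rw [h0', PD_zero] at h
    exact (PD_ne h0 h).elim
  rw [PD_eq lp lm h0, PD_eq lp lm h0'] at h
  obtain ⟨n, hn⟩ := kap_int_aux h
  have h1 := kap_int_im hn
  have h2 := log_im_dn hT
  have h3 := log_im_dn hT'
  have hpi := Real.pi_pos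
  simp only [sub_im, ofReal_im, sub_zero] at h1
  have hn0 : n = 0 := by
    have h4 : (n : ℝ) < 1 := by
      by_contra hcon; push Not at hcon; nlinarith
    have h5 : (-1 : ℝ) < n := by
      by_contra hcon; push Not at hcon; nlinarith
    have h6 : n < 1 := by exact_mod_cast h4
    have h7 : -1 < n := by exact_mod_cast h5
    omega
  rw [hn0] at hn
  simp at hn
  have h8 : conj T ≠ 0 := by simpa using h0
  have h9 : conj T' ≠ 0 := by simpa using h0'
  have : conj T = conj T' := by
    rw [← exp_log h8, ← exp_log h9, (starRingEnd ℂ).injective hn]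
  exact (starRingEnd ℂ).injective this

lemma PU_PD {lp lm : ℝ} (hlp : 0 < lp) (hlm : 0 < lm) {T T' : ℂ} (hT : 0 ≤ T.im) (hT' : T'.im ≤ 0)
    (h : PU lp lm T = PD lp lm T') :
    T.im = 0 ∧ ((0 ≤ T.re ∧ T' = ((lp * T.re : ℝ) : ℂ)) ∨ (T.re ≤ 0 ∧ T' = ((lm * T.re : ℝ) : ℂ))) := by
  by_cases h0 : T = 0
  · have : T' = 0 := by
      by_contra hne
      rw [h0, PU_zero] at h
      exact PD_ne hne h.symm
    rw [h0, this]
    simp
  by_cases h0' : T' = 0
  · rw [h0', PD_zero] at h
    exact (PU_ne h0 h).elim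
  rw [PU_eq lp lm h0, PD_eq lp lm h0'] at h
  obtain ⟨n, hn⟩ := kap_int_aux h
  have h1 := kap_int_im hn
  have h2 := log_im_up hT
  have h3 := log_im_dn hT'
  have hpi := Real.pi_pos
  have h9 : conj T' ≠ 0 := by simpa using h0'
  simp only [sub_im, ofReal_im, sub_zero] at h1
  have hn01 : n = 0 ∨ n = 1 := by
    have h4 : (n : ℝ) < 2 := by
      by_contra hcon; push Not at hcon; nlinarith
    have h5 : (-1 : ℝ) < n := by
      by_contra hcon; push Not at hcon; nlinarith
    have h6 : n < 2 := by exact_mod_cast h4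
    have h7 : -1 < n := by exact_mod_cast h5
    omega
  rcases hn01 with hn0 | hn0
  · rw [hn0] at hn h1
    simp only [Int.cast_zero, zero_mul, add_zero] at hn h1
    have him : (log T).im = 0 := le_antisymm (by linarith [h3.1]) h2.1
    have harg : arg T = 0 := by rw [← log_im]; exact him
    rw [arg_eq_zero_iff] at harg
    refine ⟨harg.2, Or.inl ⟨harg.1, ?_⟩⟩
    have h10 : log (conj T') = conj (log T) + (Real.log lp : ℂ) := by
      have := congrArg conj hn
      rw [map_sub, conj_conj, conj_ofReal] at this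
      rw [this]; ring
    have h11 : conj T' = conj T * lp := by
      rw [← exp_log h9, h10, exp_add, exp_conj, exp_log h0, ← ofReal_exp, Real.exp_log hlp]
    have h12 : T' = T * lp := by
      have := congrArg conj h11
      rw [conj_conj, map_mul, conj_conj, conj_ofReal] at this
      exact this
    rw [h12]
    apply Complex.ext <;> simp [harg.2, mul_comm]
  · rw [hn0] at hn h1
    simp only [Int.cast_one, one_mul] at hn h1
    have him : (log T).im = Real.pi := by
      apply le_antisymm h2.2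
      linarith [h3.2]
    have harg : arg T = Real.pi := by rw [← log_im]; exact him
    rw [arg_eq_pi_iff] at harg
    refine ⟨harg.2, Or.inr ⟨harg.1.le, ?_⟩⟩
    have h10 : log (conj T') = conj (log T) + (Real.log lm : ℂ) + 2 * Real.pi * I := by
      have := congrArg conj hn
      rw [map_add, map_sub, conj_conj, conj_ofReal, map_add, conj_ofReal, map_mul, map_mul,
        conj_ofReal, conj_I] at this
      have h13 : conj (2 : ℂ) = 2 := Complex.conj_ofNat 2
      rw [h13] at this
      rw [this]; push_cast; ring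
    have h11 : conj T' = conj T * lm := by
      rw [← exp_log h9, h10, exp_add, exp_add, exp_two_pi_mul_I, mul_one, exp_conj, exp_log h0,
        ← ofReal_exp, Real.exp_log hlm]
    have h12 : T' = T * lm := by
      have := congrArg conj h11
      rw [conj_conj, map_mul, conj_conj, conj_ofReal] at this
      exact this
    rw [h12]
    apply Complex.ext <;> simp [harg.2, mul_comm]

/-- small discs are covered -/
lemma cover_disc {lp lm : ℝ} (hlp : 0 < lp) {δ : ℝ} (hδ : 0 < δ) :
    ∃ r > 0, ∀ w : ℂ, ‖w‖ < r →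
      (∃ T : ℂ, 0 ≤ T.im ∧ ‖T‖ < δ ∧ PU lp lm T = w) ∨
      (∃ T : ℂ, T.im ≤ 0 ∧ ‖T‖ < δ ∧ PD lp lm T = w) := by
  set k := kap lp lm with hk
  have hkre : 0 < k.re := kap_re lp lm
  set δ' := min δ (δ / lp) with hδ'
  have hδ'pos : 0 < δ' := by positivity
  refine ⟨Real.exp (k.re * Real.log δ' - |k.im| * Real.pi), Real.exp_pos _, ?_⟩
  intro w hw
  by_cases hw0 : w = 0
  · left
    exact ⟨0, by simp, by simpa using hδ, by rw [PU_zero, hw0]⟩
  have hpi := Real.pi_pos
  set D : ℂ := ((Real.log lp - Real.log lm : ℝ) : ℂ) + 2 * Real.pi * I with hD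
  set L0 : ℂ := log w / k with hL0
  set n : ℤ := -⌊(L0.im + Real.pi) / (2 * Real.pi)⌋ with hn
  set L : ℂ := L0 + n * D with hL
  have hLim : L.im = L0.im + n * (2 * Real.pi) := by simp [hL, hD]
  have hLim1 : -Real.pi ≤ L.im := by
    have := Int.floor_le ((L0.im + Real.pi) / (2 * Real.pi))
    rw [le_div_iff₀ (by positivity)] at this
    rw [hLim, hn]; push_cast; linarith
  have hLim2 : L.im < Real.pi := by
    have := Int.lt_floor_add_one ((L0.im + Real.pi) / (2 * Real.pi))
    rw [div_lt_iff₀ (by positivity)] at this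
    rw [hLim, hn]; push_cast; linarith
  have hkL : k * L = log w + n * (2 * Real.pi * I) := by
    rw [hL, mul_add, hL0, mul_div_cancel₀ _ (kap_ne lp lm), mul_left_comm, hD, hk, kap_mul]
  have hexp : exp (k * L) = w := by
    rw [hkL, exp_add, exp_log hw0, exp_int_mul_two_pi_mul_I, mul_one]
  have hre : k.re * L.re - k.im * L.im = Real.log ‖w‖ := by
    have := congrArg Complex.re hkL
    simpa [log_re] using this
  have hlogw : Real.log ‖w‖ < k.re * Real.log δ' - |k.im| * Real.pi := by
    rw [← Real.log_exp (k.re * Real.log δ' - |k.im| * Real.pi)]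
    exact Real.log_lt_log (norm_pos_iff.2 hw0) hw
  have hLre : L.re < Real.log δ' := by
    have h1 : k.im * L.im ≤ |k.im| * Real.pi := by
      calc k.im * L.im ≤ |k.im * L.im| := le_abs_self _
        _ = |k.im| * |L.im| := abs_mul _ _
        _ ≤ |k.im| * Real.pi := by
            apply mul_le_mul_of_nonneg_left _ (abs_nonneg _)
            rw [abs_le]; exact ⟨hLim1, hLim2.le⟩
    have h2 : k.re * L.re < k.re * Real.log δ' := by linarith
    exact lt_of_mul_lt_mul_left h2 hkre.le
  have hexpL : Real.exp L.re < δ' := by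
    rw [← Real.exp_log hδ'pos]; exact Real.exp_lt_exp.2 hLre
  by_cases h0 : 0 ≤ L.im
  · left
    refine ⟨exp L, ?_, ?_, ?_⟩
    · rw [exp_im]
      exact mul_nonneg (Real.exp_pos _).le (Real.sin_nonneg_of_nonneg_of_le_pi h0 hLim2.le)
    · rw [norm_exp]
      exact lt_of_lt_of_le hexpL (min_le_left _ _)
    · rw [PU_eq lp lm (exp_ne_zero _), log_exp (by linarith) hLim2.le]
      exact hexp
  · right
    push Not at h0
    have hconj : conj ((lp : ℂ) * exp L) = (lp : ℂ) * exp (conj L) := by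
      rw [map_mul, conj_ofReal, exp_conj]
    refine ⟨(lp : ℂ) * exp L, ?_, ?_, ?_⟩
    · rw [im_ofReal_mul, exp_im]
      have : Real.sin L.im ≤ 0 := Real.sin_nonpos_of_nonpos_of_neg_pi_le h0.le hLim1
      exact mul_nonpos_of_nonneg_of_nonpos hlp.le
        (mul_nonpos_of_nonneg_of_nonpos (Real.exp_pos _).le this)
    · rw [norm_mul, norm_real, Real.norm_of_nonneg hlp.le, norm_exp]
      have : Real.exp L.re < δ / lp := lt_of_lt_of_le hexpL (min_le_right _ _)
      rw [lt_div_iff₀ hlp] at this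
      linarith
    · have hne : (lp : ℂ) * exp L ≠ 0 :=
        mul_ne_zero (by exact_mod_cast hlp.ne') (exp_ne_zero _)
      rw [PD_eq lp lm hne, hconj, log_ofReal_mul hlp (exp_ne_zero _), log_exp]
      · rw [map_add, conj_ofReal, conj_conj]
        rw [← hexp]
        congr 1
        ring
      · simp; linarith
      · simp; linarith

end Pool.Agent.Helper647.Sew
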