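import Mathlib

set_option autoImplicit false

open Set Filter Topology Complex MeasureTheory
open scoped Interval

namespace Pool.Agent.Helper647.Sew

/-- rectangle integral -/
noncomputable def rectInt (f : ℂ → ℂ) (x0 x1 y0 y1 : ℝ) : ℂ :=
  (∫ x : ℝ in x0..x1, f (x + y0 * I)) - (∫ x : ℝ in x0..x1, f (x + y1 * I)) +
      I • (∫ y : ℝ in y0..y1, f (x1 + y * I)) - I • (∫ y : ℝ in y0..y1, f (x0 + y * I))

lemma rect_zero_aux {f : ℂ → ℂ} {x0 x1 y0 y1 : ℝ}
    (hc : ContinuousOn f ([[x0, x1]] ×ℂ [[y0, y1]]))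
    (hd : ∀ z ∈ [[x0, x1]] ×ℂ [[y0, y1]], z.im ≠ 0 → DifferentiableAt ℂ f z)
    (h0 : (0 : ℝ) ∉ Ioo (min y0 y1) (max y0 y1)) : rectInt f x0 x1 y0 y1 = 0 := by
  have := integral_boundary_rect_eq_zero_of_continuousOn_of_differentiableOn f
    ((x0 : ℂ) + y0 * I) ((x1 : ℂ) + y1 * I) (by simpa using hc) (by
      intro z hz
      simp only [add_re, ofReal_re, mul_re, I_re, mul_zero, ofReal_im, I_im, mul_one, sub_self,
        add_zero, add_im, mul_im, zero_add] at hz
      rw [mem_reProdIm] at hz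
      refine (hd z ?_ ?_).differentiableWithinAt
      · rw [mem_reProdIm]
        refine ⟨?_, ?_⟩
        · rw [uIcc_eq_union]; 
          rcases le_total x0 x1 with h | h
          · left; simp [h] at hz; exact ⟨hz.1.1.le, hz.1.2.le⟩
          · right; simp [h] at hz; exact ⟨hz.1.1.le, hz.1.2.le⟩
        · rw [uIcc_eq_union]; 
          rcases le_total y0 y1 with h | h
          · left; simp [h] at hz; exact ⟨hz.2.1.le, hz.2.2.le⟩
          · right; simp [h] at hz; exact ⟨hz.2.1.le, hz.2.2.le⟩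
      · intro hzi
        apply h0
        rw [← hzi]
        exact hz.2)
  simpa [rectInt] using this

/-- a continuous function on an open set, holomorphic off the real line, is holomorphic -/
theorem differentiableOn_of_off_real {V : Set ℂ} (hV : IsOpen V) {f : ℂ → ℂ}
    (hc : ContinuousOn f V) (hd : ∀ z ∈ V, z.im ≠ 0 → DifferentiableAt ℂ f z) :
    DifferentiableOn ℂ f V := by
  rw [← isConservativeOn_and_continuousOn_iff_isDifferentiableOn hV]
  refine ⟨?_, hc⟩
  intro z w hzw
  rw [← add_eq_zero_iff_eq_neg, wedgeIntegral_add_wedgeIntegral_eq]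
  have hsub : [[z.re, w.re]] ×ℂ [[z.im, w.im]] ⊆ V := hzw
  change rectInt f z.re w.re z.im w.im = 0
  by_cases h0 : (0 : ℝ) ∈ Ioo (min z.im w.im) (max z.im w.im)
  · have hmem : (0 : ℝ) ∈ [[z.im, w.im]] := ⟨h0.1.le, h0.2.le⟩
    have sub1 : [[z.re, w.re]] ×ℂ [[z.im, 0]] ⊆ V := by
      intro u hu
      apply hsub
      rw [mem_reProdIm] at hu ⊢
      exact ⟨hu.1, uIcc_subset_uIcc left_mem_uIcc hmem hu.2⟩
    have sub2 : [[z.re, w.re]] ×ℂ [[0, w.im]] ⊆ V := by
      intro u hu
      apply hsub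
      rw [mem_reProdIm] at hu ⊢
      exact ⟨hu.1, uIcc_subset_uIcc hmem right_mem_uIcc hu.2⟩
    have r1 : rectInt f z.re w.re z.im 0 = 0 := by
      apply rect_zero_aux (hc.mono sub1) (fun u hu => hd u (sub1 hu))
      intro h
      rcases le_total z.im 0 with h' | h' <;> simp [h'] at h
    have r2 : rectInt f z.re w.re 0 w.im = 0 := by
      apply rect_zero_aux (hc.mono sub2) (fun u hu => hd u (sub2 hu))
      intro h
      rcases le_total w.im 0 with h' | h' <;> simp [h'] at h
    have key : rectInt f z.re w.re z.im w.im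
        = rectInt f z.re w.re z.im 0 + rectInt f z.re w.re 0 w.im := by
      have i1 : ∀ x : ℝ, x ∈ [[z.re, w.re]] → ∀ a b : ℝ, a ∈ [[z.im, w.im]] → b ∈ [[z.im, w.im]] →
          IntervalIntegrable (fun y : ℝ => f (x + y * I)) volume a b := by
        intro x hx a b ha hb
        apply ContinuousOn.intervalIntegrable
        apply hc.comp (by fun_prop)
        intro y hy
        apply hsub
        rw [mem_reProdIm]
        simp only [add_re, ofReal_re, mul_re, I_re, mul_zero, ofReal_im, I_im, mul_one, sub_self,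
          add_zero, add_im, mul_im, zero_add]
        exact ⟨hx, uIcc_subset_uIcc ha hb hy⟩
      have e1 : (∫ y : ℝ in z.im..w.im, f (w.re + y * I))
          = (∫ y : ℝ in z.im..0, f (w.re + y * I)) + ∫ y : ℝ in (0:ℝ)..w.im, f (w.re + y * I) :=
        (intervalIntegral.integral_add_adjacent_intervals
          (i1 _ right_mem_uIcc _ _ left_mem_uIcc hmem)
          (i1 _ right_mem_uIcc _ _ hmem right_mem_uIcc)).symm
      have e2 : (∫ y : ℝ in z.im..w.im, f (z.re + y * I))
          = (∫ y : ℝ in z.im..0, f (z.re + y * I)) + ∫ y : ℝ in (0:ℝ)..w.im, f (z.re + y * I) :=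
        (intervalIntegral.integral_add_adjacent_intervals
          (i1 _ left_mem_uIcc _ _ left_mem_uIcc hmem)
          (i1 _ left_mem_uIcc _ _ hmem right_mem_uIcc)).symm
      unfold rectInt
      rw [e1, e2]
      simp only [smul_eq_mul]
      ring
    rw [key, r1, r2, add_zero]
  · exact rect_zero_aux (hc.mono hsub) (fun u hu => hd u (hsub hu)) h0

/-- isolated points are removable for continuous functions -/
theorem differentiableOn_of_punctured {V : Set ℂ} (hV : IsOpen V) {f : ℂ → ℂ}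
    (hc : ContinuousOn f V) (hd : ∀ z ∈ V, ∀ᶠ w in 𝓝[≠] z, DifferentiableAt ℂ f w) :
    DifferentiableOn ℂ f V := by
  intro z hz
  exact (analyticAt_of_differentiable_on_punctured_nhds_of_continuousAt (hd z hz)
    (hc.continuousAt (hV.mem_nhds hz))).differentiableAt.differentiableWithinAt

/-- local behaviour of an analytic function with positive derivative, real on the real line -/
theorem local_real_analytic {f : ℂ → ℂ} {x0 c : ℝ} (hf : AnalyticAt ℂ f x0) (hc : 0 < c)
    (hdf : deriv f x0 = c) (hr : ∀ᶠ x : ℝ in 𝓝 x0, (f x).im = 0) :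
    ∃ r > 0, DifferentiableOn ℂ f (Metric.ball (x0 : ℂ) r) ∧ InjOn f (Metric.ball (x0 : ℂ) r) ∧
      (∀ z ∈ Metric.ball (x0 : ℂ) r, deriv f z ≠ 0) ∧
      (∀ z ∈ Metric.ball (x0 : ℂ) r, (z.im = 0 → (f z).im = 0) ∧ (0 < z.im → 0 < (f z).im) ∧
        (z.im < 0 → (f z).im < 0)) := by
  have h1 : ∀ᶠ z in 𝓝 (x0 : ℂ), DifferentiableAt ℂ f z :=
    hf.eventually_analyticAt.mono fun z hz => hz.differentiableAt
  have h2 : ∀ᶠ z in 𝓝 (x0 : ℂ), deriv f z ≠ 0 := by
    have : ContinuousAt (deriv f) x0 := hf.deriv.continuousAt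
    apply this.eventually_ne
    rw [hdf]
    exact_mod_cast hc.ne'
  have hs : HasStrictDerivAt f (c : ℂ) x0 := by
    have := hf.hasStrictDerivAt
    rwa [hdf] at this
  have h3 : ∀ᶠ p : ℂ × ℂ in 𝓝 ((x0 : ℂ), (x0 : ℂ)),
      ‖f p.1 - f p.2 - (p.1 - p.2) * c‖ ≤ c / 2 * ‖p.1 - p.2‖ := by
    have := hs.isLittleO
    have := this.def (c := c / 2) (by linarith)
    filter_upwards [this] with p hp
    simpa using hp
  obtain ⟨r1, hr1, hb1⟩ := Metric.eventually_nhds_iff_ball.1 h1
  obtain ⟨r2, hr2, hb2⟩ := Metric.eventually_nhds_iff_ball.1 h2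
  obtain ⟨r3, hr3, hb3⟩ := Metric.eventually_nhds_iff_ball.1 h3
  obtain ⟨r4, hr4, hb4⟩ := Metric.eventually_nhds_iff_ball.1 hr
  have hkey : ∀ z ∈ Metric.ball (x0 : ℂ) r3, ∀ w ∈ Metric.ball (x0 : ℂ) r3,
      ‖f z - f w - (z - w) * c‖ ≤ c / 2 * ‖z - w‖ := by
    intro z hz w hw
    apply hb3 (z, w)
    rw [Metric.mem_ball, Prod.dist_eq]
    exact max_lt hz hw
  refine ⟨min (min r1 r2) (min r3 r4), by positivity, ?_, ?_, ?_, ?_⟩
  · intro z hz
    apply (hb1 z _).differentiableWithinAt
    exact Metric.ball_subset_ball ((min_le_left _ _).trans (min_le_left _ _)) hz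
  · intro z hz w hw hfe
    have hz' := Metric.ball_subset_ball ((min_le_right _ _).trans (min_le_left _ _)) hz
    have hw' := Metric.ball_subset_ball ((min_le_right _ _).trans (min_le_left _ _)) hw
    have := hkey z hz' w hw'
    rw [hfe, sub_self, zero_sub, norm_neg, norm_mul, norm_real, Real.norm_of_nonneg hc.le] at this
    have h0 : ‖z - w‖ = 0 := by
      have := norm_nonneg (z - w)
      nlinarith
    exact sub_eq_zero.1 (norm_eq_zero.1 h0)
  · intro z hz
    apply hb2 z
    exact Metric.ball_subset_ball ((min_le_left _ _).trans (min_le_right _ _)) hz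
  · intro z hz
    have hz3 := Metric.ball_subset_ball ((min_le_right _ _).trans (min_le_left _ _)) hz
    have hz4 := Metric.ball_subset_ball ((min_le_right _ _).trans (min_le_right _ _)) hz
    have hre : ‖((z.re : ℝ) : ℂ) - x0‖ ≤ ‖z - x0‖ := by
      have : ((z.re : ℝ) : ℂ) - x0 = (((z - x0).re : ℝ) : ℂ) := by simp
      rw [this, norm_real]
      exact abs_re_le_norm _
    have hzr3 : ((z.re : ℝ) : ℂ) ∈ Metric.ball (x0 : ℂ) r3 := by
      rw [mem_ball_iff_norm] at hz3 ⊢
      exact lt_of_le_of_lt hre hz3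
    have hzr4 : (f ((z.re : ℝ) : ℂ)).im = 0 := by
      apply hb4
      rw [mem_ball_iff_norm] at hz4 ⊢
      have := lt_of_le_of_lt hre hz4
      rw [← ofReal_sub, norm_real] at this
      exact this
    have hk := hkey z hz3 _ hzr3
    have hzz : z - ((z.re : ℝ) : ℂ) = (z.im : ℂ) * I := by
      apply Complex.ext <;> simp
    rw [hzz] at hk
    have him : |(f z).im - z.im * c| ≤ c / 2 * |z.im| := by
      refine le_trans ?_ (hk.trans_eq ?_)
      · refine le_trans (le_of_eq ?_) (abs_im_le_norm _)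
        simp [hzr4]
      · simp
    refine ⟨?_, ?_, ?_⟩
    · intro h0
      rw [h0] at him
      simpa using him
    · intro h0
      rw [abs_of_pos h0] at him
      have := (abs_le.1 him).1
      nlinarith
    · intro h0
      rw [abs_of_neg h0] at him
      have := (abs_le.1 him).2
      nlinarith

theorem local_real_mono {f : ℂ → ℂ} {x0 c : ℝ} (hf : AnalyticAt ℂ f x0) (hc : 0 < c)
    (hdf : deriv f x0 = c) :
    ∃ r > 0, ∀ x y : ℝ, |x - x0| < r → |y - x0| < r → x < y → (f x).re < (f y).re := by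
  have hs : HasStrictDerivAt f (c : ℂ) x0 := by
    have := hf.hasStrictDerivAt
    rwa [hdf] at this
  have h3 : ∀ᶠ p : ℂ × ℂ in 𝓝 ((x0 : ℂ), (x0 : ℂ)),
      ‖f p.1 - f p.2 - (p.1 - p.2) * c‖ ≤ c / 2 * ‖p.1 - p.2‖ := by
    have := hs.isLittleO
    have := this.def (c := c / 2) (by linarith)
    filter_upwards [this] with p hp
    simpa using hp
  obtain ⟨r3, hr3, hb3⟩ := Metric.eventually_nhds_iff_ball.1 h3
  refine ⟨r3, hr3, ?_⟩
  intro x y hx hy hxy
  have h4 := hb3 ((y : ℂ), (x : ℂ)) (by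
    rw [Metric.mem_ball, Prod.dist_eq]
    refine max_lt ?_ ?_
    · rw [dist_eq_norm]; dsimp only; rw [← ofReal_sub, norm_real]; exact hy
    · rw [dist_eq_norm]; dsimp only; rw [← ofReal_sub, norm_real]; exact hx)
  dsimp only at h4
  have h5 : |(f y).re - (f x).re - (y - x) * c| ≤ c / 2 * (y - x) := by
    refine le_trans ?_ (h4.trans_eq ?_)
    · refine le_trans (le_of_eq ?_) (abs_re_le_norm _)
      simp
    · rw [← ofReal_sub, norm_real, Real.norm_of_nonneg (by linarith)]
  have h6 := (abs_le.1 h5).1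
  nlinarith

end Pool.Agent.Helper647.Sew
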