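import Mathlib

set_option autoImplicit false

open Set Filter Topology Complex
open scoped Manifold ContDiff

namespace Pool.Agent.Helper647.Sew

/-- `α` is an increasing homeomorphism of `(0, ∞)` onto `(a, ∞)`, where `a = α(0) ≥ 0`. -/
structure IsSewing (α : ℝ → ℝ) (a : ℝ) : Prop where
  nonneg : 0 ≤ a
  strictMono : StrictMonoOn α (Ioi 0)
  cont : ContinuousOn α (Ioi 0)
  image : α '' Ioi 0 = Ioi a

/-- The part of the closed half-strip that carries the generated surface: the interior, the bottom
edge, and the sewn part of the top edge. -/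
def Strip (a : ℝ) : Set ℂ :=
  {z | 0 < z.re ∧ 0 ≤ z.im ∧ z.im ≤ 1 ∧ (z.im = 1 → a < z.re)}

/-- The bottom edge point `z` is glued to the top edge point `w = α(z) + i`. -/
def Glued (α : ℝ → ℝ) (z w : ℂ) : Prop := z.im = 0 ∧ w = (α z.re : ℂ) + I

/-- The Riemann surface `X` is generated by the sewing `α`: topologically it is the quotient of the
half-strip by the sewing, and the quotient map is conformal (holomorphic, and injective by
`fibre`) on the interior of the half-strip. -/
structure IsGenerated (α : ℝ → ℝ) (a : ℝ) (X : Type) [TopologicalSpace X] [ChartedSpace ℂ X]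
    (q : ℂ → X) : Prop where
  manifold : IsManifold 𝓘(ℂ) ω X
  quotient : IsQuotientMap ((Strip a).domRestrict q)
  fibre : ∀ z ∈ Strip a, ∀ w ∈ Strip a, (q z = q w ↔ z = w ∨ Glued α z w ∨ Glued α w z)
  conformal : MDifferentiableOn 𝓘(ℂ) 𝓘(ℂ) q (interior (Strip a))

/-- The end at infinity of the generated surface is hyperbolic: some open neighbourhood `U` of the
end, bounded by a single closed curve `γ`, is conformally equivalent to a ring `1 < |w| < ρ`
(a bijective holomorphic map is a conformal equivalence). -/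
def HasHyperbolicEnd (a : ℝ) (X : Type) [TopologicalSpace X] [ChartedSpace ℂ X]
    (q : ℂ → X) : Prop :=
  ∃ U : Set X, IsOpen U ∧ (∃ R : ℝ, ∀ z ∈ Strip a, R < z.re → q z ∈ U) ∧
    (∃ γ : Circle → X, Continuous γ ∧ Function.Injective γ ∧ range γ = frontier U) ∧
    ∃ (ρ : ℝ) (φ : X → ℂ), MDifferentiableOn 𝓘(ℂ) 𝓘(ℂ) φ U ∧
      BijOn φ U {w : ℂ | 1 < ‖w‖ ∧ ‖w‖ < ρ}

/-- `α` is a conformal sewing: the quotient carries a Riemann surface structure for which the
quotient map is conformal on the interior. -/
def IsConformalSewing (α : ℝ → ℝ) (a : ℝ) : Prop :=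
  IsSewing α a ∧ ∃ (X : Type) (_ : TopologicalSpace X) (_ : ChartedSpace ℂ X) (q : ℂ → X),
    IsGenerated α a X q

end Pool.Agent.Helper647.Sew
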