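import Mathlib
import Pool.Agent.Helper647.SewDefs

set_option autoImplicit false

open Set Filter Topology Complex

namespace Pool.Agent.Helper647.Sew

/-- topological part of `IsGenerated` together with the sewing hypothesis -/
structure QS (α : ℝ → ℝ) (a : ℝ) {X : Type} [TopologicalSpace X] (q : ℂ → X) : Prop where
  sew : IsSewing α a
  quotient : IsQuotientMap ((Strip a).domRestrict q)
  fibre : ∀ z ∈ Strip a, ∀ w ∈ Strip a, (q z = q w ↔ z = w ∨ Glued α z w ∨ Glued α w z)

/-- the interior of the strip, explicitly -/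
def SInt : Set ℂ := {z | 0 < z.re ∧ 0 < z.im ∧ z.im < 1}

lemma isOpen_SInt : IsOpen SInt := by
  have : SInt = {z : ℂ | 0 < z.re} ∩ ({z : ℂ | 0 < z.im} ∩ {z : ℂ | z.im < 1}) := by
    ext z; simp [SInt]
  rw [this]
  exact (isOpen_lt continuous_const continuous_re).inter
    ((isOpen_lt continuous_const continuous_im).inter (isOpen_lt continuous_im continuous_const))

lemma SInt_subset (a : ℝ) : SInt ⊆ Strip a := by
  rintro z ⟨h1, h2, h3⟩
  exact ⟨h1, h2.le, h3.le, fun h => absurd h h3.ne⟩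

lemma interior_Strip (a : ℝ) : interior (Strip a) = SInt := by
  apply Subset.antisymm
  · intro z hz
    have hz' : z ∈ Strip a := interior_subset hz
    obtain ⟨h1, h2, h3, h4⟩ := hz'
    rw [mem_interior_iff_mem_nhds, Metric.mem_nhds_iff] at hz
    obtain ⟨r, hr, hb⟩ := hz
    refine ⟨h1, ?_, ?_⟩
    · have : z - ((r / 2 : ℝ) : ℂ) * I ∈ Metric.ball z r := by
        rw [Metric.mem_ball, dist_eq_norm]
        simp [abs_of_pos hr]
        linarith
      have := (hb this).2.1
      simp at this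
      linarith
    · have : z + ((r / 2 : ℝ) : ℂ) * I ∈ Metric.ball z r := by
        rw [Metric.mem_ball, dist_eq_norm]
        simp [abs_of_pos hr]
        linarith
      have := (hb this).2.2.1
      simp at this
      linarith
  · exact interior_maximal (SInt_subset a) isOpen_SInt

lemma bot_mem (a : ℝ) {x : ℝ} (hx : 0 < x) : (x : ℂ) ∈ Strip a := by
  refine ⟨by simpa using hx, by simp, by simp, ?_⟩
  intro h; simp at h

lemma top_mem {a : ℝ} (ha : 0 ≤ a) {y : ℝ} (hy : a < y) : (y : ℂ) + I ∈ Strip a := by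
  refine ⟨by simpa using lt_of_le_of_lt ha hy, by simp, by simp, ?_⟩
  intro h; simpa using hy

section

variable {α : ℝ → ℝ} {a : ℝ}

lemma IsSewing.lt (h : IsSewing α a) {x : ℝ} (hx : 0 < x) : a < α x := by
  have : α x ∈ α '' Ioi 0 := ⟨x, hx, rfl⟩
  rw [h.image] at this
  exact this

lemma IsSewing.pos (h : IsSewing α a) {x : ℝ} (hx : 0 < x) : 0 < α x :=
  lt_of_le_of_lt h.nonneg (h.lt hx)

/-- the inverse sewing -/
noncomputable def inv (α : ℝ → ℝ) : ℝ → ℝ := Function.invFunOn α (Ioi 0)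

lemma IsSewing.inv_pos (h : IsSewing α a) {y : ℝ} (hy : a < y) : 0 < inv α y := by
  have : y ∈ α '' Ioi 0 := by rw [h.image]; exact hy
  exact Function.invFunOn_mem this

lemma IsSewing.apply_inv (h : IsSewing α a) {y : ℝ} (hy : a < y) : α (inv α y) = y := by
  have : y ∈ α '' Ioi 0 := by rw [h.image]; exact hy
  exact Function.invFunOn_eq this

lemma IsSewing.inv_apply (h : IsSewing α a) {x : ℝ} (hx : 0 < x) : inv α (α x) = x :=
  h.strictMono.injOn (h.inv_pos (h.lt hx)) hx (h.apply_inv (h.lt hx))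

lemma IsSewing.inv_strictMono (h : IsSewing α a) : StrictMonoOn (inv α) (Ioi a) := by
  intro y hy y' hy' hlt
  by_contra hcon
  push Not at hcon
  have := h.strictMono.monotoneOn (h.inv_pos hy') (h.inv_pos hy) hcon
  rw [h.apply_inv hy, h.apply_inv hy'] at this
  exact absurd hlt (not_lt.mpr this)

lemma IsSewing.inv_image (h : IsSewing α a) : inv α '' Ioi a = Ioi 0 := by
  ext x
  constructor
  · rintro ⟨y, hy, rfl⟩
    exact h.inv_pos hy
  · intro hx
    exact ⟨α x, h.lt hx, h.inv_apply hx⟩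

lemma IsSewing.inv_cont (h : IsSewing α a) : ContinuousOn (inv α) (Ioi a) := by
  intro y hy
  have hy' : y ∈ Ioi a := hy
  apply ContinuousAt.continuousWithinAt
  refine h.inv_strictMono.continuousAt_of_image_mem_nhds (Ioi_mem_nhds hy') ?_
  rw [h.inv_image]
  exact Ioi_mem_nhds (h.inv_pos hy)

end

section

variable {α : ℝ → ℝ} {a : ℝ} {X : Type} [TopologicalSpace X] {q : ℂ → X}

lemma QS.cont (h : QS α a q) : ContinuousOn q (Strip a) := by
  rw [continuousOn_iff_continuous_domRestrict]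
  exact h.quotient.continuous

lemma QS.surj (h : QS α a q) (p : X) : ∃ z ∈ Strip a, q z = p := by
  obtain ⟨z, hz⟩ := h.quotient.surjective p
  exact ⟨z.1, z.2, hz⟩

lemma QS.glue (h : QS α a q) {x : ℝ} (hx : 0 < x) : q ((α x : ℂ) + I) = q x := by
  have := (h.fibre x (bot_mem a hx) ((α x : ℂ) + I) (top_mem h.sew.nonneg (h.sew.lt hx))).2
  refine (this (Or.inr (Or.inl ⟨by simp, by simp⟩))).symm

lemma QS.isOpen_iff (h : QS α a q) (N : Set X) :
    IsOpen N ↔ ∀ z ∈ Strip a, q z ∈ N → ∀ᶠ w in 𝓝[Strip a] z, q w ∈ N := by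
  rw [← h.quotient.isOpen_preimage]
  rw [isOpen_iff_mem_nhds]
  constructor
  · intro H z hz hq
    have := H ⟨z, hz⟩ hq
    rw [nhds_subtype_eq_comap, mem_comap] at this
    obtain ⟨t, ht, hts⟩ := this
    rw [eventually_nhdsWithin_iff]
    filter_upwards [ht] with w hw hwS
    exact hts (a := ⟨w, hwS⟩) hw
  · rintro H ⟨z, hz⟩ hq
    have := H z hz hq
    rw [eventually_nhdsWithin_iff] at this
    rw [nhds_subtype_eq_comap, mem_comap]
    refine ⟨_, this, ?_⟩
    rintro ⟨w, hw⟩ hw'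
    exact hw' hw

/-- fibres of points -/
lemma QS.fibre_cases (h : QS α a q) {z w : ℂ} (hz : z ∈ Strip a) (hw : w ∈ Strip a)
    (hq : q z = q w) : z = w ∨ (∃ x : ℝ, 0 < x ∧ z = x ∧ w = (α x : ℂ) + I) ∨
      (∃ x : ℝ, 0 < x ∧ w = x ∧ z = (α x : ℂ) + I) := by
  rcases (h.fibre z hz w hw).1 hq with h1 | h1 | h1
  · exact Or.inl h1
  · refine Or.inr (Or.inl ⟨z.re, hz.1, ?_, h1.2⟩)
    apply Complex.ext <;> simp [h1.1]
  · refine Or.inr (Or.inr ⟨w.re, hw.1, ?_, h1.2⟩)
    apply Complex.ext <;> simp [h1.1]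

lemma QS.nbhd (h : QS α a q) (O : Set ℂ) (hO : IsOpen O) :
    IsOpen {p : X | ∀ z ∈ Strip a, q z = p → z ∈ O} := by
  rw [h.isOpen_iff]
  intro z0 hz0 hp
  have hz0O : z0 ∈ O := hp z0 hz0 rfl
  rw [eventually_nhdsWithin_iff]
  rcases lt_or_eq_of_le hz0.2.2.1 with h1 | h1
  · rcases lt_or_eq_of_le hz0.2.1 with h0 | h0
    · -- interior
      have : O ∩ SInt ∈ 𝓝 z0 := (hO.inter isOpen_SInt).mem_nhds ⟨hz0O, hz0.1, h0, h1⟩
      filter_upwards [this] with w hw hwS
      intro z hz hzw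
      rcases h.fibre_cases hz hwS hzw with rfl | ⟨x, hx, h2, h3⟩ | ⟨x, hx, h2, h3⟩
      · exact hw.1
      · exfalso
        have := hw.2.2.2
        rw [h3] at this; simp at this
      · exfalso
        have := hw.2.2.1
        rw [h2] at this; simp at this
    · -- bottom
      have hx0 : (z0.re : ℂ) = z0 := by apply Complex.ext <;> simp [← h0]
      have htop : (α z0.re : ℂ) + I ∈ O := by
        apply hp _ (top_mem h.sew.nonneg (h.sew.lt hz0.1))
        rw [h.glue hz0.1, hx0]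
      have hcont : ContinuousAt (fun z : ℂ => ((α z.re : ℝ) : ℂ) + I) z0 := by
        have h1 : ContinuousAt α z0.re :=
          h.sew.cont.continuousAt (Ioi_mem_nhds hz0.1)
        have h2 : ContinuousAt (fun z : ℂ => α z.re) z0 :=
          ContinuousAt.comp (f := fun z : ℂ => z.re) (g := α) h1 continuous_re.continuousAt
        exact (continuous_ofReal.continuousAt.comp h2).add continuousAt_const
      have e1 := hcont (hO.mem_nhds htop)
      have e2 : ∀ᶠ w : ℂ in 𝓝 z0, w.im < 1 := (isOpen_lt continuous_im continuous_const).mem_nhds h1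
      filter_upwards [e1, e2, hO.mem_nhds hz0O] with w hw1 hw2 hw3 hwS
      intro z hz hzw
      rcases h.fibre_cases hz hwS hzw with rfl | ⟨x, hx, h2, h3⟩ | ⟨x, hx, h2, h3⟩
      · exact hw3
      · exfalso
        rw [h3] at hw2; simp at hw2
      · rw [h3]
        rw [h2] at hw1
        simpa using hw1
  · -- top
    have hay : a < z0.re := hz0.2.2.2 h1
    have hx0 : ((z0.re : ℝ) : ℂ) + I = z0 := by apply Complex.ext <;> simp [h1]
    have hbot : ((inv α z0.re : ℝ) : ℂ) ∈ O := by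
      apply hp _ (bot_mem a (h.sew.inv_pos hay))
      rw [← h.glue (h.sew.inv_pos hay), h.sew.apply_inv hay, hx0]
    have hcont : ContinuousAt (fun z : ℂ => ((inv α z.re : ℝ) : ℂ)) z0 := by
      have h1 : ContinuousAt (inv α) z0.re :=
        h.sew.inv_cont.continuousAt (Ioi_mem_nhds hay)
      have h2 : ContinuousAt (fun z : ℂ => inv α z.re) z0 :=
        ContinuousAt.comp (f := fun z : ℂ => z.re) (g := inv α) h1 continuous_re.continuousAt
      exact (continuous_ofReal.continuousAt.comp h2)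
    have e1 := hcont (hO.mem_nhds hbot)
    have e2 : ∀ᶠ w : ℂ in 𝓝 z0, 0 < w.im :=
      (isOpen_lt continuous_const continuous_im).mem_nhds (by simp [h1])
    filter_upwards [e1, e2, hO.mem_nhds hz0O] with w hw1 hw2 hw3 hwS
    intro z hz hzw
    rcases h.fibre_cases hz hwS hzw with rfl | ⟨x, hx, h2, h3⟩ | ⟨x, hx, h2, h3⟩
    · exact hw3
    · rw [h2]
      rw [h3] at hw1
      simpa [h.sew.inv_apply hx] using hw1
    · exfalso
      rw [h2] at hw2; simp at hw2

/-- neighbourhoods in the quotient -/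
lemma QS.mem_nhds_iff (h : QS α a q) (p : X) (S : Set X) :
    S ∈ 𝓝 p ↔ ∀ z ∈ Strip a, q z = p → ∀ᶠ w in 𝓝[Strip a] z, q w ∈ S := by
  constructor
  · rintro hS z hz rfl
    exact h.cont z hz hS
  · intro H
    have : ∀ z : ℂ, ∃ O : Set ℂ, IsOpen O ∧ (z ∈ Strip a → q z = p → z ∈ O) ∧
        ∀ w ∈ O, w ∈ Strip a → q w ∈ S := by
      intro z
      by_cases hz : z ∈ Strip a ∧ q z = p
      · have := H z hz.1 hz.2
        rw [eventually_nhdsWithin_iff, eventually_nhds_iff] at this
        obtain ⟨t, ht, hto, hzt⟩ := this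
        exact ⟨t, hto, fun _ _ => hzt, ht⟩
      · exact ⟨∅, isOpen_empty, fun h1 h2 => (hz ⟨h1, h2⟩).elim, fun w hw => hw.elim⟩
    choose O hO1 hO2 hO3 using this
    have hN := h.nbhd (⋃ z, O z) (isOpen_iUnion hO1)
    refine mem_of_superset (hN.mem_nhds ?_) ?_
    · intro z hz hq
      exact mem_iUnion.2 ⟨z, hO2 z hz hq⟩
    · intro p' hp'
      obtain ⟨z, hz, rfl⟩ := h.surj p'
      obtain ⟨y, hy⟩ := mem_iUnion.1 (hp' z hz rfl)
      exact hO3 y z hy hz

lemma QS.tendsto_iff (h : QS α a q) {Y : Type*} (p : X) (g : X → Y) (l : Filter Y) :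
    Tendsto g (𝓝 p) l ↔ ∀ z ∈ Strip a, q z = p → Tendsto (fun w => g (q w)) (𝓝[Strip a] z) l := by
  constructor
  · intro H z hz hq s hs
    exact (h.mem_nhds_iff p _).1 (H hs) z hz hq
  · intro H s hs
    show g ⁻¹' s ∈ 𝓝 p
    rw [h.mem_nhds_iff]
    intro z hz hq
    exact H z hz hq hs

end

end Pool.Agent.Helper647.Sew
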