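import Mathlib
import Pool.Agent.Helper647.SewTop
import Pool.Agent.Helper647.SewHolo

set_option autoImplicit false

open Set Filter Topology Complex

namespace Pool.Agent.Helper647.Sew

/-- local homeomorphism from an injective continuous open map -/
theorem exists_homeo {X Y : Type*} [TopologicalSpace X] [TopologicalSpace Y] [Nonempty X]
    (e : X → Y) (B : Set X) (hB : IsOpen B) (hinj : InjOn e B) (hc : ContinuousOn e B)
    (ho : ∀ z ∈ B, ∀ S ∈ 𝓝 z, S ⊆ B → e '' S ∈ 𝓝 (e z)) :
    ∃ E : OpenPartialHomeomorph X Y, E.source = B ∧ E.target = e '' B ∧ ∀ z, E z = e z := by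
  refine ⟨OpenPartialHomeomorph.ofContinuousOpenRestrict (hinj.toPartialEquiv e B) hc ?_ hB,
    rfl, rfl, fun z => rfl⟩
  apply IsOpenMap.of_nhds_le
  rintro ⟨z, hz⟩ S hS
  rw [mem_map] at hS
  rw [nhds_subtype_eq_comap, mem_comap] at hS
  obtain ⟨t, ht, hts⟩ := hS
  have := ho z hz (t ∩ B) (inter_mem ht (hB.mem_nhds hz)) inter_subset_right
  refine mem_of_superset this ?_
  rintro _ ⟨w, hw, rfl⟩
  exact hts (a := ⟨w, hw.2⟩) hw.1

/-- `x0` is a point where the sewing is real analytic with positive derivative -/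
def RegularAt (α : ℝ → ℝ) (x0 : ℝ) : Prop :=
  ∃ f : ℂ → ℂ, ∃ c : ℝ, AnalyticAt ℂ f x0 ∧ 0 < c ∧ deriv f x0 = c ∧
    ∀ᶠ x : ℝ in 𝓝 x0, f x = α x

/-- continuous on `N` and holomorphic in the interior of the strip -/
def Holo {X : Type} [TopologicalSpace X] (q : ℂ → X) (g : X → ℂ) (N : Set X) : Prop :=
  ContinuousOn g N ∧ DifferentiableOn ℂ (fun z => g (q z)) (SInt ∩ q ⁻¹' N)

section

variable {α : ℝ → ℝ} {a : ℝ} {X : Type} [TopologicalSpace X] {q : ℂ → X}

lemma QS.contSInt (h : QS α a q) : ContinuousOn q SInt := h.cont.mono (SInt_subset a)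

lemma QS.isOpen_pre (h : QS α a q) {N : Set X} (hN : IsOpen N) : IsOpen (SInt ∩ q ⁻¹' N) :=
  h.contSInt.isOpen_inter_preimage isOpen_SInt hN

lemma QS.eq_of_SInt (h : QS α a q) {z w : ℂ} (hz : z ∈ SInt) (hw : w ∈ Strip a)
    (hq : q z = q w) : z = w := by
  rcases h.fibre_cases (SInt_subset a hz) hw hq with h1 | ⟨x, hx, h2, h3⟩ | ⟨x, hx, h2, h3⟩
  · exact h1
  · exfalso
    have := hz.2.1
    rw [h2] at this; simp at this
  · exfalso
    have := hz.2.2
    rw [h3] at this; simp at this

theorem QS.regular_param (h : QS α a q) {x0 : ℝ} (hx0 : 0 < x0) (hreg : RegularAt α x0) :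
    ∃ E : OpenPartialHomeomorph ℂ X, (x0 : ℂ) ∈ E.source ∧ E x0 = q x0 ∧
      (∀ (g : X → ℂ) (N : Set X), IsOpen N → Holo q g N →
        DifferentiableOn ℂ (fun z => g (E z)) (E.source ∩ E ⁻¹' N)) ∧
      Holo q E.symm E.target := by
  obtain ⟨f, c, hf, hc, hdf, hfα⟩ := hreg
  obtain ⟨r0, hr0, hdiff, hinj, hder, hsign⟩ := local_real_analytic hf hc hdf
    (hfα.mono fun x hx => by rw [hx]; simp)
  have hfx0 : f x0 = α x0 := hfα.self_of_nhds
  obtain ⟨r1, hr1, hb1⟩ := Metric.eventually_nhds_iff_ball.1 hfα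
  have hcont0 : ∀ᶠ z in 𝓝 (x0 : ℂ), ‖f z - α x0‖ < min (1 / 2) (α x0) := by
    have : ContinuousAt (fun z => ‖f z - α x0‖) (x0 : ℂ) :=
      (hf.continuousAt.sub continuousAt_const).norm
    have h0 : ‖f x0 - α x0‖ < min (1 / 2) (α x0) := by
      rw [hfx0, sub_self, norm_zero]
      exact lt_min (by norm_num) (h.sew.pos hx0)
    exact this.eventually (gt_mem_nhds h0)
  obtain ⟨r2, hr2, hb2⟩ := Metric.eventually_nhds_iff_ball.1 hcont0
  -- the ball
  set r := min (min r0 r1) (min r2 (min (1 / 2) x0)) with hr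
  have hrpos : 0 < r := by positivity
  set B := Metric.ball (x0 : ℂ) r with hB
  have hB0 : B ⊆ Metric.ball (x0 : ℂ) r0 :=
    Metric.ball_subset_ball ((min_le_left _ _).trans (min_le_left _ _))
  have hB1 : B ⊆ Metric.ball (x0 : ℂ) r1 :=
    Metric.ball_subset_ball ((min_le_left _ _).trans (min_le_right _ _))
  have hB2 : B ⊆ Metric.ball (x0 : ℂ) r2 :=
    Metric.ball_subset_ball ((min_le_right _ _).trans (min_le_left _ _))
  have hB3 : ∀ z ∈ B, 0 < z.re ∧ |z.im| < 1 / 2 := by
    intro z hz
    have hz' : ‖z - x0‖ < min (1 / 2) x0 := by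
      rw [hB, mem_ball_iff_norm] at hz
      exact lt_of_lt_of_le hz ((min_le_right _ _).trans (min_le_right _ _))
    constructor
    · have h1 := abs_re_le_norm (z - x0)
      have h2 : ‖z - x0‖ < x0 := lt_of_lt_of_le hz' (min_le_right _ _)
      have h3 : |z.re - x0| < x0 := by
        refine lt_of_le_of_lt ?_ h2
        simpa using h1
      have := (abs_lt.1 h3).1
      linarith
    · have h1 := abs_im_le_norm (z - x0)
      have h2 : ‖z - x0‖ < 1 / 2 := lt_of_lt_of_le hz' (min_le_left _ _)
      refine lt_of_le_of_lt ?_ h2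
      simpa using h1
  have hBf : ∀ z ∈ B, 0 < (f z).re ∧ |(f z).im| < 1 / 2 := by
    intro z hz
    have hz' := hb2 z (hB2 hz)
    constructor
    · have h1 := abs_re_le_norm (f z - α x0)
      have h2 : ‖f z - α x0‖ < α x0 := lt_of_lt_of_le hz' (min_le_right _ _)
      have h3 : |(f z).re - α x0| < α x0 := by
        refine lt_of_le_of_lt ?_ h2
        simpa using h1
      have := (abs_lt.1 h3).1
      linarith
    · have h1 := abs_im_le_norm (f z - α x0)
      have h2 : ‖f z - α x0‖ < 1 / 2 := lt_of_lt_of_le hz' (min_le_left _ _)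
      refine lt_of_le_of_lt ?_ h2
      simpa using h1
  have hreal : ∀ z ∈ B, z.im = 0 → 0 < z.re ∧ z = (z.re : ℂ) ∧ f z = (α z.re : ℂ) := by
    intro z hz h0
    have hz1 : z = (z.re : ℂ) := by apply Complex.ext <;> simp [h0]
    refine ⟨(hB3 z hz).1, hz1, ?_⟩
    have := hB1 hz
    rw [mem_ball_iff_norm] at this
    rw [hz1, ← ofReal_sub, norm_real] at this
    have h2 := hb1 z.re (by rw [Metric.mem_ball, Real.dist_eq]; exact this)
    rw [hz1]
    exact_mod_cast h2
  have up : ∀ z ∈ B, 0 < z.im → z ∈ SInt := by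
    intro z hz h0
    have := hB3 z hz
    exact ⟨this.1, h0, by linarith [(abs_lt.1 this.2).2]⟩
  have up' : ∀ z ∈ B, 0 ≤ z.im → z ∈ Strip a := by
    intro z hz h0
    rcases h0.lt_or_eq with h1 | h1
    · exact SInt_subset a (up z hz h1)
    · obtain ⟨h2, h3, h4⟩ := hreal z hz h1.symm
      rw [h3]; exact bot_mem a h2
  have dn : ∀ z ∈ B, z.im < 0 → f z + I ∈ SInt := by
    intro z hz h0
    have h1 := hBf z hz
    have h2 := (hsign z (hB0 hz)).2.2 h0
    refine ⟨by simpa using h1.1, ?_, ?_⟩
    · have := (abs_lt.1 h1.2).1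
      simp; linarith
    · simp; linarith
  have dn' : ∀ z ∈ B, z.im ≤ 0 → f z + I ∈ Strip a := by
    intro z hz h0
    rcases h0.lt_or_eq with h1 | h1
    · exact SInt_subset a (dn z hz h1)
    · obtain ⟨h2, h3, h4⟩ := hreal z hz h1
      rw [h4]; exact top_mem h.sew.nonneg (h.sew.lt h2)
  set e : ℂ → X := fun z => if 0 ≤ z.im then q z else q (f z + I) with he
  have eup : ∀ z, 0 ≤ z.im → e z = q z := fun z hz => by simp [he, hz]
  have edn : ∀ z ∈ B, z.im ≤ 0 → e z = q (f z + I) := by
    intro z hz h0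
    rcases h0.lt_or_eq with h1 | h1
    · simp [he, not_le.2 h1]
    · obtain ⟨h2, h3, h4⟩ := hreal z hz h1
      rw [eup z h1.ge, h4, h.glue h2, ← h3]
  have hBo : IsOpen B := Metric.isOpen_ball
  have fcont : ∀ z ∈ B, ContinuousAt f z := fun z hz =>
    ((hdiff z (hB0 hz)).differentiableAt (Metric.isOpen_ball.mem_nhds (hB0 hz))).continuousAt
  have fdiff : ∀ z ∈ B, DifferentiableAt ℂ f z := fun z hz =>
    (hdiff z (hB0 hz)).differentiableAt (Metric.isOpen_ball.mem_nhds (hB0 hz))
  -- continuity
  have econt : ContinuousOn e B := by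
    intro z hz
    have c1 : ContinuousWithinAt e (B ∩ {w | 0 ≤ w.im}) z := by
      by_cases h0 : 0 ≤ z.im
      · have : ContinuousWithinAt q (B ∩ {w | 0 ≤ w.im}) z :=
          (h.cont z (up' z hz h0)).mono (fun w hw => up' w hw.1 hw.2)
        exact this.congr (fun w hw => eup w hw.2) (eup z h0)
      · apply continuousWithinAt_of_notMem_closure
        intro hcl
        have : closure (B ∩ {w : ℂ | 0 ≤ w.im}) ⊆ {w | 0 ≤ w.im} :=
          closure_minimal inter_subset_right (isClosed_le continuous_const continuous_im)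
        exact h0 (this hcl)
    have c2 : ContinuousWithinAt e (B ∩ {w | w.im ≤ 0}) z := by
      by_cases h0 : z.im ≤ 0
      · have : ContinuousWithinAt (fun w => q (f w + I)) (B ∩ {w | w.im ≤ 0}) z := by
          apply ContinuousWithinAt.comp (t := Strip a) (g := q) (f := fun w => f w + I)
          · exact h.cont _ (dn' z hz h0)
          · exact ((fcont z hz).add continuousAt_const).continuousWithinAt
          · intro w hw; exact dn' w hw.1 hw.2
        exact this.congr (fun w hw => edn w hw.1 hw.2) (edn z hz h0)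
      · apply continuousWithinAt_of_notMem_closure
        intro hcl
        have : closure (B ∩ {w : ℂ | w.im ≤ 0}) ⊆ {w | w.im ≤ 0} :=
          closure_minimal inter_subset_right (isClosed_le continuous_im continuous_const)
        exact h0 (this hcl)
    have c3 := c1.union c2
    refine c3.mono ?_
    intro w hw
    rcases le_total 0 w.im with h0 | h0
    · exact Or.inl ⟨hw, h0⟩
    · exact Or.inr ⟨hw, h0⟩
  -- injectivity
  have mixed : ∀ z ∈ B, ∀ w ∈ B, 0 ≤ z.im → w.im < 0 → e z ≠ e w := by
    intro z hz w hw h0 h1 heq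
    rw [eup z h0, edn w hw h1.le] at heq
    have := h.eq_of_SInt (dn w hw h1) (up' z hz h0) heq.symm
    have h2 : (f w + I).im = z.im := by rw [this]
    have h3 := (abs_lt.1 (hBf w hw).2).1
    have h4 := (abs_lt.1 (hB3 z hz).2).2
    simp at h2
    linarith
  have einj : InjOn e B := by
    intro z hz w hw heq
    rcases le_or_gt 0 z.im with h0 | h0 <;> rcases le_or_gt 0 w.im with h1 | h1
    · rw [eup z h0, eup w h1] at heq
      rcases h.fibre_cases (up' z hz h0) (up' w hw h1) heq with h2 | ⟨x, hx, h2, h3⟩ | ⟨x, hx, h2, h3⟩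
      · exact h2
      · exfalso
        have := (abs_lt.1 (hB3 w hw).2).2
        rw [h3] at this; simp at this; norm_num at this
      · exfalso
        have := (abs_lt.1 (hB3 z hz).2).2
        rw [h3] at this; simp at this; norm_num at this
    · exact (mixed z hz w hw h0 h1 heq).elim
    · exact (mixed w hw z hz h1 h0 heq.symm).elim
    · rw [edn z hz h0.le, edn w hw h1.le] at heq
      have := h.eq_of_SInt (dn z hz h0) (SInt_subset a (dn w hw h1)) heq
      exact hinj (hB0 hz) (hB0 hw) (by simpa using this)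
  -- openness
  have fopen : ∀ z ∈ B, ∀ S ∈ 𝓝 z, f '' S ∈ 𝓝 (f z) := by
    intro z hz S hS
    have hs : HasStrictDerivAt f (deriv f z) z := by
      have : AnalyticAt ℂ f z := hdiff.analyticAt (Metric.isOpen_ball.mem_nhds (hB0 hz))
      exact this.hasStrictDerivAt
    rw [← hs.map_nhds_eq (hder z (hB0 hz))]
    exact image_mem_map hS
  have eopen : ∀ z ∈ B, ∀ S ∈ 𝓝 z, S ⊆ B → e '' S ∈ 𝓝 (e z) := by
    intro z hz S hS hSB
    rw [h.mem_nhds_iff]
    -- the lower piece
    have low : z.im ≤ 0 → ∀ᶠ w in 𝓝[Strip a] (f z + I), q w ∈ e '' S := by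
      intro h0
      rw [eventually_nhdsWithin_iff]
      have h1 : (fun w : ℂ => w - I) ⁻¹' (f '' S) ∈ 𝓝 (f z + I) := by
        have : ContinuousAt (fun w : ℂ => w - I) (f z + I) := by fun_prop
        apply this
        simpa using fopen z hz S hS
      filter_upwards [h1] with w hw hwS
      obtain ⟨z', hz', hz'w⟩ := hw
      have hw' : w = f z' + I := by rw [hz'w]; ring
      have him : z'.im ≤ 0 := by
        by_contra hcon
        push Not at hcon
        have := (hsign z' (hB0 (hSB hz'))).2.1 hcon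
        have h3 := hwS.2.2.1
        rw [hw'] at h3
        simp at h3
        linarith
      exact ⟨z', hz', by rw [edn z' (hSB hz') him, hw']⟩
    have upp : 0 ≤ z.im → ∀ᶠ w in 𝓝[Strip a] z, q w ∈ e '' S := by
      intro h0
      rw [eventually_nhdsWithin_iff]
      filter_upwards [hS] with w hw hwS
      exact ⟨w, hw, eup w hwS.2.1⟩
    intro y hy hqy
    rcases lt_trichotomy z.im 0 with h0 | h0 | h0
    · rw [edn z hz h0.le] at hqy
      have := h.eq_of_SInt (dn z hz h0) hy hqy.symm
      rw [← this]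
      exact low h0.le
    · rw [eup z h0.ge] at hqy
      obtain ⟨h2, h3, h4⟩ := hreal z hz h0
      rcases h.fibre_cases hy (up' z hz h0.ge) hqy with h5 | ⟨x, hx, h5, h6⟩ | ⟨x, hx, h5, h6⟩
      · rw [h5]; exact upp h0.ge
      · exfalso
        rw [h6] at h0; simp at h0
      · have : x = z.re := by rw [h5]; simp
        rw [h6, this, ← h4]
        exact low h0.le
    · rw [eup z h0.le] at hqy
      have := h.eq_of_SInt (up z hz h0) hy hqy.symm
      rw [← this]
      exact upp h0.le
  obtain ⟨E, hE1, hE2, hE3⟩ := exists_homeo e B hBo einj econt eopen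
  have hEe : (E : ℂ → X) = e := funext hE3
  refine ⟨E, ?_, ?_, ?_, ?_⟩
  · rw [hE1]; exact Metric.mem_ball_self hrpos
  · rw [hE3]; exact eup _ (by simp)
  · rintro g N hN ⟨hg1, hg2⟩
    have hopenV : IsOpen (E.source ∩ E ⁻¹' N) := E.isOpen_inter_preimage hN
    apply differentiableOn_of_off_real hopenV
    · exact hg1.comp (E.continuousOn.mono inter_subset_left) (fun z hz => hz.2)
    · rintro z ⟨hzs, hzN⟩ him
      have hzB : z ∈ B := by rw [← hE1]; exact hzs
      have hzN' : e z ∈ N := by rw [← hE3]; exact hzN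
      rcases lt_or_gt_of_ne him with h0 | h0
      · have h1 : f z + I ∈ SInt ∩ q ⁻¹' N := ⟨dn z hzB h0, by
          rw [mem_preimage, ← edn z hzB h0.le]; exact hzN'⟩
        have h2 : DifferentiableAt ℂ (fun w => g (q w)) (f z + I) :=
          (hg2 _ h1).differentiableAt ((h.isOpen_pre hN).mem_nhds h1)
        have h3 : DifferentiableAt ℂ (fun w => g (q (f w + I))) z :=
          DifferentiableAt.comp (g := fun w => g (q w)) (f := fun w => f w + I) z h2
            ((fdiff z hzB).add_const I)
        refine h3.congr_of_eventuallyEq ?_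
        filter_upwards [hBo.mem_nhds hzB, (isOpen_lt continuous_im continuous_const).mem_nhds h0]
          with w hw1 hw2
        rw [hE3, edn w hw1 (le_of_lt hw2)]
      · have h1 : z ∈ SInt ∩ q ⁻¹' N := ⟨up z hzB h0, by
          rw [mem_preimage, ← eup z h0.le]; exact hzN'⟩
        have h2 : DifferentiableAt ℂ (fun w => g (q w)) z :=
          (hg2 _ h1).differentiableAt ((h.isOpen_pre hN).mem_nhds h1)
        refine h2.congr_of_eventuallyEq ?_
        filter_upwards [(isOpen_lt continuous_const continuous_im).mem_nhds h0]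
          with w hw2
        rw [hE3, eup w (le_of_lt hw2)]
  · refine ⟨E.continuousOn_symm, ?_⟩
    rintro w ⟨hwS, hwT⟩
    apply DifferentiableAt.differentiableWithinAt
    have hopen := h.isOpen_pre E.open_target
    have hzs := E.map_target hwT
    set z := E.symm (q w) with hz
    have hzB : z ∈ B := by rw [← hE1]; exact hzs
    have hez : e z = q w := by rw [← hE3]; exact E.right_inv hwT
    rcases lt_trichotomy z.im 0 with h0 | h0 | h0
    · rw [edn z hzB h0.le] at hez
      have hw : f z + I = w := h.eq_of_SInt (dn z hzB h0) (SInt_subset a hwS) hez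
      have hcontG : ContinuousAt (fun w' => E.symm (q w')) w := by
        have h1 : ContinuousAt E.symm (q w) := E.continuousAt_symm hwT
        have h2 : ContinuousAt q w := h.contSInt.continuousAt (isOpen_SInt.mem_nhds hwS)
        exact ContinuousAt.comp (g := E.symm) (f := q) h1 h2
      have hGim : ∀ᶠ w' in 𝓝 w, (E.symm (q w')).im < 0 :=
        hcontG.eventually ((isOpen_lt continuous_im continuous_const).mem_nhds h0)
      have hG : ∀ᶠ w' in 𝓝 w, f (E.symm (q w')) + I = w' := by
        filter_upwards [hGim, hopen.mem_nhds ⟨hwS, hwT⟩] with w' h1 h2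
        have h3 : E.symm (q w') ∈ B := by rw [← hE1]; exact E.map_target h2.2
        have h4 : e (E.symm (q w')) = q w' := by rw [← hE3]; exact E.right_inv h2.2
        rw [edn _ h3 h1.le] at h4
        exact h.eq_of_SInt (dn _ h3 h1) (SInt_subset a h2.1) h4
      have hd : HasDerivAt (fun u => f u + I) (deriv f z) (E.symm (q w)) :=
        (fdiff z hzB).hasDerivAt.add_const I
      exact (HasDerivAt.of_local_left_inverse hcontG hd (hder z (hB0 hzB)) hG).differentiableAt
    · exfalso
      rw [eup z h0.ge] at hez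
      have := h.eq_of_SInt hwS (up' z hzB h0.ge) hez.symm
      have h2 := hwS.2.1
      rw [this] at h2
      linarith
    · rw [eup z h0.le] at hez
      have hw : z = w := h.eq_of_SInt (up z hzB h0) (SInt_subset a hwS) hez
      have : (fun w' => E.symm (q w')) =ᶠ[𝓝 w] fun w' => w' := by
        have hB' : B ∩ {u : ℂ | 0 < u.im} ∈ 𝓝 w := by
          rw [← hw]
          exact (hBo.inter (isOpen_lt continuous_const continuous_im)).mem_nhds ⟨hzB, h0⟩
        filter_upwards [hB'] with w' hw'
        have h3 : q w' = E w' := by rw [hE3, eup w' (le_of_lt hw'.2)]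
        rw [h3]
        apply E.left_inv
        rw [hE1]; exact hw'.1
      exact differentiableAt_id.congr_of_eventuallyEq this

end

end Pool.Agent.Helper647.Sew
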