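import Mathlib
import Pool.Agent.Helper647.SewReg

set_option autoImplicit false

open Set Filter Topology Complex

namespace Pool.Agent.Helper647.Sew

/-- a local parametrisation through which holomorphic functions pull back to holomorphic ones -/
def IsParam {X : Type} [TopologicalSpace X] (q : ℂ → X) (E : OpenPartialHomeomorph ℂ X) : Prop :=
  ∀ (g : X → ℂ) (N : Set X), IsOpen N → Holo q g N →
    DifferentiableOn ℂ (fun z => g (E z)) (E.source ∩ E ⁻¹' N)

def HasParam {X : Type} [TopologicalSpace X] (q : ℂ → X) (p : X) : Prop :=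
  ∃ E : OpenPartialHomeomorph ℂ X, p ∈ E.target ∧ IsParam q E

section

variable {α : ℝ → ℝ} {a : ℝ} {X : Type} [TopologicalSpace X] {q : ℂ → X}

lemma QS.interior_param (h : QS α a q) :
    ∃ E : OpenPartialHomeomorph ℂ X, E.source = SInt ∧ (∀ z, E z = q z) ∧ IsParam q E ∧
      Holo q E.symm E.target := by
  obtain ⟨E, hE1, hE2, hE3⟩ := exists_homeo q SInt isOpen_SInt
    (fun z hz w hw heq => h.eq_of_SInt hz (SInt_subset a hw) heq) h.contSInt (by
      intro z hz S hS hSB
      rw [h.mem_nhds_iff]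
      intro y hy hq
      have : z = y := h.eq_of_SInt hz hy hq.symm
      rw [← this]
      exact mem_nhdsWithin_of_mem_nhds (mem_of_superset hS (fun w hw => ⟨w, hw, rfl⟩)))
  refine ⟨E, hE1, hE3, ?_, E.continuousOn_symm, ?_⟩
  · intro g N hN hg
    have : (fun z => g (E z)) = fun z => g (q z) := by funext z; rw [hE3]
    rw [this]
    have h2 : E.source ∩ E ⁻¹' N = SInt ∩ q ⁻¹' N := by
      rw [hE1]; ext z; simp [hE3]
    rw [h2]
    exact hg.2
  · apply differentiableOn_id.congr
    rintro z ⟨hz, _⟩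
    rw [← hE3]
    exact E.left_inv (by rw [hE1]; exact hz)

lemma QS.hasParam_interior (h : QS α a q) {z : ℂ} (hz : z ∈ SInt) : HasParam q (q z) := by
  obtain ⟨E, h1, h2, h3, h4⟩ := h.interior_param
  refine ⟨E, ?_, h3⟩
  rw [← h2]; exact E.map_source (by rw [h1]; exact hz)

lemma QS.hasParam_regular (h : QS α a q) {x : ℝ} (hx : 0 < x) (hr : RegularAt α x) :
    HasParam q (q x) := by
  obtain ⟨E, h1, h2, h3, h4⟩ := h.regular_param hx hr
  refine ⟨E, ?_, h3⟩
  rw [← h2]; exact E.map_source h1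

/-- every point of the strip is interior, bottom or top -/
lemma strip_cases (_hs : IsSewing α a) {z : ℂ} (hz : z ∈ Strip a) :
    z ∈ SInt ∨ (0 < z.re ∧ z = (z.re : ℂ)) ∨ (a < z.re ∧ z = (z.re : ℂ) + I) := by
  rcases hz.2.1.lt_or_eq with h0 | h0
  · rcases hz.2.2.1.lt_or_eq with h1 | h1
    · exact Or.inl ⟨hz.1, h0, h1⟩
    · exact Or.inr (Or.inr ⟨hz.2.2.2 h1, by apply Complex.ext <;> simp [h1]⟩)
  · exact Or.inr (Or.inl ⟨hz.1, by apply Complex.ext <;> simp [← h0]⟩)

lemma QS.eventually_hasParam (h : QS α a q)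
    (hreg : ∀ x0 : ℝ, 0 < x0 → ∀ᶠ x in 𝓝[≠] x0, RegularAt α x) (p : X) :
    ∀ᶠ p' in 𝓝[≠] p, HasParam q p' := by
  rw [eventually_nhdsWithin_iff]
  change {p' | p' ∈ ({p}ᶜ : Set X) → HasParam q p'} ∈ 𝓝 p
  rw [h.mem_nhds_iff]
  intro z hz hqz
  rw [eventually_nhdsWithin_iff]
  rcases strip_cases h.sew hz with h1 | ⟨h1, h2⟩ | ⟨h1, h2⟩
  · filter_upwards [isOpen_SInt.mem_nhds h1] with w hw _ _
    exact h.hasParam_interior hw
  · have e1 := hreg z.re h1
    rw [eventually_nhdsWithin_iff] at e1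
    have e2 : ∀ᶠ w : ℂ in 𝓝 z, w.re ∈ ({z.re}ᶜ : Set ℝ) → RegularAt α w.re :=
      continuous_re.continuousAt.eventually e1
    have e3 : ∀ᶠ w : ℂ in 𝓝 z, w.im < 1 :=
      (isOpen_lt continuous_im continuous_const).mem_nhds (by rw [h2]; simp)
    filter_upwards [e2, e3] with w hw1 hw2 hwS hne
    rcases strip_cases h.sew hwS with h3 | ⟨h3, h4⟩ | ⟨h3, h4⟩
    · exact h.hasParam_interior h3
    · rw [h4]
      apply h.hasParam_regular h3
      apply hw1
      intro h5
      apply hne
      rw [mem_singleton_iff] at h5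
      rw [mem_singleton_iff, h4, h5, ← h2, hqz]
    · exfalso
      rw [h4] at hw2; simp at hw2
  · have hxp := h.sew.inv_pos h1
    have e1 := hreg (inv α z.re) hxp
    rw [eventually_nhdsWithin_iff] at e1
    have hci : ContinuousAt (fun w : ℂ => inv α w.re) z :=
      ContinuousAt.comp (f := fun z : ℂ => z.re) (g := inv α)
        (h.sew.inv_cont.continuousAt (Ioi_mem_nhds h1)) continuous_re.continuousAt
    have e2 := hci.eventually e1
    have e3 : ∀ᶠ w : ℂ in 𝓝 z, 0 < w.im :=
      (isOpen_lt continuous_const continuous_im).mem_nhds (by rw [h2]; simp)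
    filter_upwards [e2, e3] with w hw1 hw2 hwS hne
    rcases strip_cases h.sew hwS with h3 | ⟨h3, h4⟩ | ⟨h3, h4⟩
    · exact h.hasParam_interior h3
    · exfalso
      rw [h4] at hw2; simp at hw2
    · have h6 : q w = q (inv α w.re) := by
        rw [← h.glue (h.sew.inv_pos h3), h.sew.apply_inv h3, ← h4]
      have h7 : q z = q (inv α z.re) := by
        rw [← h.glue (h.sew.inv_pos h1), h.sew.apply_inv h1, ← h2]
      rw [h6]
      apply h.hasParam_regular (h.sew.inv_pos h3)
      apply hw1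
      intro h5
      apply hne
      rw [mem_singleton_iff] at h5
      rw [mem_singleton_iff, h6, h5, ← h7, hqz]

/-- at parametrised points, holomorphic functions are holomorphic in every compatible chart -/
lemma QS.differentiableAt_of_param (_h : QS α a q) (φ : OpenPartialHomeomorph X ℂ)
    (hφ : Holo q φ φ.source) {g : X → ℂ} {N : Set X} (hN : IsOpen N) (hg : Holo q g N)
    {w0 : ℂ} (hw0 : w0 ∈ φ.target) (hw0N : φ.symm w0 ∈ N) (hp : HasParam q (φ.symm w0)) :
    DifferentiableAt ℂ (fun w => g (φ.symm w)) w0 := by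
  obtain ⟨E, hpE, hE⟩ := hp
  set p := φ.symm w0 with hpdef
  have hps : p ∈ φ.source := φ.map_target hw0
  set z0 := E.symm p with hz0
  have hz0s : z0 ∈ E.source := E.map_target hpE
  have hEz0 : E z0 = p := E.right_inv hpE
  have hf : DifferentiableOn ℂ (fun z => φ (E z)) (E.source ∩ E ⁻¹' φ.source) :=
    hE φ φ.source φ.open_source hφ
  have hV1 : IsOpen (E.source ∩ E ⁻¹' φ.source) := E.isOpen_inter_preimage φ.open_source
  have hz0V : z0 ∈ E.source ∩ E ⁻¹' φ.source := ⟨hz0s, by rw [mem_preimage, hEz0]; exact hps⟩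
  have hgE : DifferentiableOn ℂ (fun z => g (E z)) (E.source ∩ E ⁻¹' N) := hE g N hN hg
  have hV2 : IsOpen (E.source ∩ E ⁻¹' N) := E.isOpen_inter_preimage hN
  have hz0V2 : z0 ∈ E.source ∩ E ⁻¹' N := ⟨hz0s, by rw [mem_preimage, hEz0]; exact hw0N⟩
  have hfan : AnalyticAt ℂ (fun z => φ (E z)) z0 := hf.analyticAt (hV1.mem_nhds hz0V)
  -- derivative is non zero near z0
  have hder : ∀ᶠ z in 𝓝[≠] z0, deriv (fun z => φ (E z)) z ≠ 0 := by
    rcases hfan.deriv.eventually_eq_zero_or_eventually_ne_zero with h1 | h1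
    · exfalso
      obtain ⟨r, hr, hb⟩ := Metric.eventually_nhds_iff_ball.1 (h1.and (hV1.mem_nhds hz0V))
      have hconst : ∀ z ∈ Metric.ball z0 r, φ (E z) = φ (E z0) := by
        intro z hz
        have hd : DifferentiableOn ℂ (fun z => φ (E z)) (Metric.ball z0 r) :=
          hf.mono (fun u hu => (hb u hu).2)
        have := Metric.isOpen_ball.is_const_of_deriv_eq_zero (f := fun z => φ (E z))
          (convex_ball z0 r).isPreconnected hd (fun u hu => (hb u hu).1) hz
          (Metric.mem_ball_self hr)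
        exact this
      have hmem : z0 + ((r / 2 : ℝ) : ℂ) ∈ Metric.ball z0 r := by
        rw [Metric.mem_ball, dist_eq_norm, add_sub_cancel_left, norm_real, Real.norm_eq_abs,
          abs_of_pos (by linarith)]
        linarith
      have h2 := hconst _ hmem
      have h3 := (hb _ hmem).2
      have h4 : E (z0 + ((r / 2 : ℝ) : ℂ)) = E z0 := φ.injOn h3.2 hz0V.2 h2
      have h5 := E.injOn h3.1 hz0s h4
      have h6 : ((r / 2 : ℝ) : ℂ) = 0 := by simpa using h5
      have : r / 2 = 0 := by exact_mod_cast h6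
      linarith
    · exact h1
  set k : ℂ → ℂ := fun w => E.symm (φ.symm w) with hk
  have hkc : ∀ w ∈ φ.target ∩ φ.symm ⁻¹' E.target, ContinuousAt k w := by
    rintro w ⟨h1, h2⟩
    exact ContinuousAt.comp (g := E.symm) (f := φ.symm) (E.continuousAt_symm h2)
      (φ.continuousAt_symm h1)
  have hWo : IsOpen (φ.target ∩ φ.symm ⁻¹' E.target) :=
    φ.symm.isOpen_inter_preimage E.open_target
  have hw0W : w0 ∈ φ.target ∩ φ.symm ⁻¹' E.target := ⟨hw0, hpE⟩
  have hright : ∀ w ∈ φ.target ∩ φ.symm ⁻¹' E.target, φ (E (k w)) = w := by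
    rintro w ⟨h1, h2⟩
    simp only [hk]
    rw [E.right_inv h2, φ.right_inv h1]
  have hkw0 : k w0 = z0 := rfl
  have hkt : Tendsto k (𝓝[≠] w0) (𝓝[≠] z0) := by
    rw [tendsto_nhdsWithin_iff]
    refine ⟨(hkc w0 hw0W).tendsto.mono_left nhdsWithin_le_nhds, ?_⟩
    rw [eventually_nhdsWithin_iff]
    filter_upwards [hWo.mem_nhds hw0W] with w hw hne hcon
    apply hne
    rw [mem_singleton_iff] at hcon ⊢
    rw [← hright w hw, hcon, ← hkw0, hright w0 hw0W]
  have hpun : ∀ᶠ w in 𝓝[≠] w0, DifferentiableAt ℂ (fun w => g (φ.symm w)) w := by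
    have e1 := hkt.eventually hder
    have e2 : ∀ᶠ w in 𝓝[≠] w0, k w ∈ (E.source ∩ E ⁻¹' φ.source) ∩ (E.source ∩ E ⁻¹' N) :=
      (hkt.mono_right nhdsWithin_le_nhds).eventually
        ((hV1.inter hV2).mem_nhds ⟨hz0V, hz0V2⟩)
    have e3 : ∀ᶠ w in 𝓝[≠] w0, w ∈ φ.target ∩ φ.symm ⁻¹' E.target :=
      nhdsWithin_le_nhds (hWo.mem_nhds hw0W)
    filter_upwards [e1, e2, e3] with w h1 h2 h3
    have hdk : DifferentiableAt ℂ k w := by
      have hd : HasDerivAt (fun z => φ (E z)) (deriv (fun z => φ (E z)) (k w)) (k w) :=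
        ((hf _ h2.1).differentiableAt (hV1.mem_nhds h2.1)).hasDerivAt
      exact (HasDerivAt.of_local_left_inverse (hkc w h3) hd h1
        (by filter_upwards [hWo.mem_nhds h3] with w' hw'; exact hright w' hw')).differentiableAt
    have hdg : DifferentiableAt ℂ (fun z => g (E z)) (k w) :=
      (hgE _ h2.2).differentiableAt (hV2.mem_nhds h2.2)
    have hcomp : DifferentiableAt ℂ (fun w => g (E (k w))) w :=
      DifferentiableAt.comp (g := fun z => g (E z)) (f := k) w hdg hdk
    refine hcomp.congr_of_eventuallyEq ?_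
    filter_upwards [hWo.mem_nhds h3] with w' hw'
    simp only [hk]
    rw [E.right_inv hw'.2]
  have hcont : ContinuousAt (fun w => g (φ.symm w)) w0 :=
    ContinuousAt.comp (g := g) (f := φ.symm) (hg.1.continuousAt (hN.mem_nhds hw0N))
      (φ.continuousAt_symm hw0)
  exact (analyticAt_of_differentiable_on_punctured_nhds_of_continuousAt hpun hcont).differentiableAt

/-- the universal property: continuous functions that are holomorphic in the interior of the
strip are holomorphic in every compatible chart -/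
theorem QS.holo_chart (h : QS α a q)
    (hreg : ∀ x0 : ℝ, 0 < x0 → ∀ᶠ x in 𝓝[≠] x0, RegularAt α x)
    (φ : OpenPartialHomeomorph X ℂ) (hφ : Holo q φ φ.source) {g : X → ℂ} {N : Set X}
    (hN : IsOpen N) (hg : Holo q g N) :
    DifferentiableOn ℂ (fun w => g (φ.symm w)) (φ.target ∩ φ.symm ⁻¹' N) := by
  have hV : IsOpen (φ.target ∩ φ.symm ⁻¹' N) := φ.symm.isOpen_inter_preimage hN
  apply differentiableOn_of_punctured hV
  · exact hg.1.comp (φ.continuousOn_symm.mono inter_subset_left) (fun w hw => hw.2)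
  · rintro w0 ⟨hw0, hw0N⟩
    have h1 : Tendsto φ.symm (𝓝[≠] w0) (𝓝[≠] (φ.symm w0)) := by
      rw [tendsto_nhdsWithin_iff]
      refine ⟨(φ.continuousAt_symm hw0).tendsto.mono_left nhdsWithin_le_nhds, ?_⟩
      rw [eventually_nhdsWithin_iff]
      filter_upwards [φ.open_target.mem_nhds hw0] with w hw hne hcon
      exact hne (φ.symm.injOn hw hw0 hcon)
    have h2 := h1.eventually (h.eventually_hasParam hreg (φ.symm w0))
    have h3 : ∀ᶠ w in 𝓝[≠] w0, w ∈ φ.target ∩ φ.symm ⁻¹' N :=
      nhdsWithin_le_nhds (hV.mem_nhds ⟨hw0, hw0N⟩)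
    filter_upwards [h2, h3] with w h4 h5
    exact h.differentiableAt_of_param φ hφ hN hg h5.1 h5.2 h4

end

end Pool.Agent.Helper647.Sew
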