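import Mathlib
import Pool.Agent.Helper647.SewUniv
import Pool.Agent.Helper647.SewPow

set_option autoImplicit false

open Set Filter Topology Complex

namespace Pool.Agent.Helper647.Sew

/-- in suitable analytic coordinates the sewing is linear on both sides of `b` -/
def BreakAt (α : ℝ → ℝ) (b : ℝ) : Prop :=
  ∃ (u v : ℂ → ℂ) (c c' lp lm : ℝ), AnalyticAt ℂ u b ∧ 0 < c ∧ deriv u b = c ∧ u b = 0 ∧
    (∀ᶠ x : ℝ in 𝓝 b, (u x).im = 0) ∧ AnalyticAt ℂ v (α b : ℂ) ∧ 0 < c' ∧
    deriv v (α b : ℂ) = c' ∧ v (α b : ℂ) = 0 ∧ (∀ᶠ y : ℝ in 𝓝 (α b), (v y).im = 0) ∧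
    0 < lp ∧ 0 < lm ∧
    ∀ᶠ x : ℝ in 𝓝 b, (b ≤ x → v (α x : ℂ) = lp * u x) ∧ (x ≤ b → v (α x : ℂ) = lm * u x)

lemma analytic_open {f : ℂ → ℂ} {z : ℂ} (hf : AnalyticAt ℂ f z) {S : Set ℂ} (hS : S ∈ 𝓝 z)
    (hinj : InjOn f S) : f '' S ∈ 𝓝 (f z) := by
  rcases hf.eventually_constant_or_nhds_le_map_nhds with h1 | h1
  · exfalso
    obtain ⟨r, hr, hb⟩ := Metric.eventually_nhds_iff_ball.1 (h1.and hS)
    have hmem : z + ((r / 2 : ℝ) : ℂ) ∈ Metric.ball z r := by
      rw [Metric.mem_ball, dist_eq_norm, add_sub_cancel_left, norm_real, Real.norm_eq_abs,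
        abs_of_pos (by linarith)]
      linarith
    have h2 := hb _ hmem
    have h5 := hinj h2.2 (mem_of_mem_nhds hS) h2.1
    have h6 : ((r / 2 : ℝ) : ℂ) = 0 := by simpa using h5
    have : r / 2 = 0 := by exact_mod_cast h6
    linarith
  · exact h1 (image_mem_map hS)

section

variable {α : ℝ → ℝ} {a : ℝ} {X : Type} [TopologicalSpace X] {q : ℂ → X}

theorem QS.break_chart (h : QS α a q)
    (hreg : ∀ x0 : ℝ, 0 < x0 → ∀ᶠ x in 𝓝[≠] x0, RegularAt α x) {b : ℝ} (hb0 : 0 < b)
    (hbr : BreakAt α b) :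
    ∃ φ : OpenPartialHomeomorph X ℂ, q b ∈ φ.source ∧ Holo q φ φ.source := by
  obtain ⟨u, v, c, c', lp, lm, hu, hc, hdu, hub, hur, hv, hc', hdv, hvb, hvr, hlp, hlm, hmatch⟩ :=
    hbr
  obtain ⟨ru, hru, udiff, uinj, uder, usign⟩ := local_real_analytic hu hc hdu hur
  obtain ⟨rv, hrv, vdiff, vinj, vder, vsign⟩ := local_real_analytic hv hc' hdv hvr
  obtain ⟨rm, hrm, umono⟩ := local_real_mono hu hc hdu
  obtain ⟨rg, hrg, hglue⟩ := Metric.eventually_nhds_iff_ball.1 hmatch
  set r1 := min (min ru rm) (min rg (1 / 2)) with hr1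
  have hr1pos : 0 < r1 := by positivity
  set r2 := min rv (1 / 2) with hr2
  have hr2pos : 0 < r2 := by positivity
  set B1 := Metric.ball (b : ℂ) r1 with hB1
  set B2 := Metric.ball (α b : ℂ) r2 with hB2
  have hB1u : B1 ⊆ Metric.ball (b : ℂ) ru :=
    Metric.ball_subset_ball ((min_le_left _ _).trans (min_le_left _ _))
  have hB2v : B2 ⊆ Metric.ball (α b : ℂ) rv := Metric.ball_subset_ball (min_le_left _ _)
  have hB1im : ∀ z ∈ B1, |z.im| < 1 / 2 := by
    intro z hz
    rw [hB1, mem_ball_iff_norm] at hz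
    have h1 := abs_im_le_norm (z - b)
    have h2 : ‖z - b‖ < 1 / 2 := lt_of_lt_of_le hz ((min_le_right _ _).trans (min_le_right _ _))
    refine lt_of_le_of_lt ?_ h2
    simpa using h1
  have hB2im : ∀ z ∈ B2, |z.im| < 1 / 2 := by
    intro z hz
    rw [hB2, mem_ball_iff_norm] at hz
    have h1 := abs_im_le_norm (z - α b)
    have h2 : ‖z - α b‖ < 1 / 2 := lt_of_lt_of_le hz (min_le_right _ _)
    refine lt_of_le_of_lt ?_ h2
    simpa using h1
  have hB1o : IsOpen B1 := Metric.isOpen_ball
  have hB2o : IsOpen B2 := Metric.isOpen_ball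
  have hB2o' : IsOpen ((fun z : ℂ => z - I) ⁻¹' B2) := hB2o.preimage (by fun_prop)
  -- the neighbourhood
  set O : Set ℂ := B1 ∪ (fun z : ℂ => z - I) ⁻¹' B2 with hO
  have hOo : IsOpen O := hB1o.union hB2o'
  have hqb : ∀ z ∈ Strip a, q z = q b → z = b ∨ z = (α b : ℂ) + I := by
    intro z hz hq
    rcases h.fibre_cases hz (bot_mem a hb0) hq with h1 | ⟨x, hx, h2, h3⟩ | ⟨x, hx, h2, h3⟩
    · exact Or.inl h1
    · exfalso
      have := congrArg Complex.im h3
      simp at this
    · right
      have : b = x := by exact_mod_cast h2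
      rw [h3, this]
  obtain ⟨N0, hN0, hN0o, hN0b⟩ : ∃ N0 : Set X, N0 ⊆ {p' | p' ∈ ({q b}ᶜ : Set X) → HasParam q p'} ∧
      IsOpen N0 ∧ q b ∈ N0 := by
    have := h.eventually_hasParam hreg (q b)
    rw [eventually_nhdsWithin_iff] at this
    exact _root_.mem_nhds_iff.1 this
  set N : Set X := {p : X | ∀ z ∈ Strip a, q z = p → z ∈ O} ∩ N0 with hN
  have hNo : IsOpen N := (h.nbhd O hOo).inter hN0o
  have hbN : q b ∈ N := by
    refine ⟨?_, hN0b⟩
    intro z hz hq
    rcases hqb z hz hq with h1 | h1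
    · left; rw [h1]; exact Metric.mem_ball_self hr1pos
    · right
      rw [mem_preimage, h1, add_sub_cancel_right]
      exact Metric.mem_ball_self hr2pos
  have hNO : ∀ z ∈ Strip a, q z ∈ N → z ∈ O := fun z hz hq => hq.1 z hz rfl
  -- the chart upstairs
  set Ψ : ℂ → ℂ := fun z => if z.im < 1 / 2 then PU lp lm (u z) else PD lp lm (v (z - I)) with hΨ
  have ΨB1 : ∀ z ∈ B1, Ψ z = PU lp lm (u z) := by
    intro z hz
    have := (abs_lt.1 (hB1im z hz)).2
    simp only [hΨ]; rw [if_pos this]
  have ΨB2 : ∀ z, z - I ∈ B2 → Ψ z = PD lp lm (v (z - I)) := by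
    intro z hz
    have := (abs_lt.1 (hB2im _ hz)).1
    simp at this
    simp only [hΨ]; rw [if_neg (by norm_num; linarith)]
  have hup : ∀ z ∈ Strip a, z ∈ B1 → 0 ≤ (u z).im := by
    intro z hz hz1
    rcases hz.2.1.lt_or_eq with h0 | h0
    · exact ((usign z (hB1u hz1)).2.1 h0).le
    · exact ((usign z (hB1u hz1)).1 h0.symm).ge
  have hdn : ∀ z ∈ Strip a, z - I ∈ B2 → (v (z - I)).im ≤ 0 := by
    intro z hz hz1
    have him : (z - I).im ≤ 0 := by simp; exact hz.2.2.1
    rcases him.lt_or_eq with h0 | h0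
    · exact ((vsign _ (hB2v hz1)).2.2 h0).le
    · exact ((vsign _ (hB2v hz1)).1 h0).le
  have B1top : ∀ z ∈ Strip a, z ∈ B1 → z.im ≠ 1 := by
    intro z _ hz1 h0
    have := (abs_lt.1 (hB1im z hz1)).2
    rw [h0] at this; norm_num at this
  have B2bot : ∀ z ∈ Strip a, z - I ∈ B2 → z.im ≠ 0 := by
    intro z _ hz1 h0
    have := (abs_lt.1 (hB2im _ hz1)).1
    simp [h0] at this; norm_num at this
  -- gluing compatibility
  have hmatchΨ : ∀ x : ℝ, 0 < x → (x : ℂ) ∈ B1 → ((α x : ℝ) : ℂ) ∈ B2 →
      Ψ (x : ℂ) = Ψ ((α x : ℂ) + I) := by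
    intro x hx h1 h2
    rw [ΨB1 _ h1, ΨB2 _ (by simpa using h2)]
    simp only [add_sub_cancel_right]
    have hxr : x ∈ Metric.ball b rg := by
      rw [hB1, mem_ball_iff_norm, ← ofReal_sub, norm_real] at h1
      rw [Metric.mem_ball, Real.dist_eq]
      exact lt_of_lt_of_le h1 ((min_le_right _ _).trans (min_le_left _ _))
    have hg := hglue x hxr
    have hux : u x = ((u x).re : ℂ) := by
      apply Complex.ext
      · simp
      · simp; exact (usign _ (hB1u h1)).1 (by simp)
    rcases le_total b x with h3 | h3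
    · rcases h3.lt_or_eq with h4 | h4
      · have hpos : 0 < (u x).re := by
          have := umono b x (by simpa using hrm) (by
            rw [hB1, mem_ball_iff_norm, ← ofReal_sub, norm_real] at h1
            exact lt_of_lt_of_le h1 ((min_le_left _ _).trans (min_le_right _ _))) h4
          rw [hub] at this; simpa using this
        rw [hg.1 h3, hux, ← ofReal_mul, match_pos hlp hpos]
      · rw [← h4, hub, hvb, PU_zero, PD_zero]
    · rcases h3.lt_or_eq with h4 | h4
      · have hneg : (u x).re < 0 := by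
          have := umono x b (by
            rw [hB1, mem_ball_iff_norm, ← ofReal_sub, norm_real] at h1
            exact lt_of_lt_of_le h1 ((min_le_left _ _).trans (min_le_right _ _)))
            (by simpa using hrm) h4
          rw [hub] at this; simpa using this
        rw [hg.2 h3, hux, ← ofReal_mul, match_neg hlm hneg]
      · rw [h4, hub, hvb, PU_zero, PD_zero]
  -- descend
  choose rep hrep1 hrep2 using h.surj
  set g : X → ℂ := fun p => Ψ (rep p) with hg
  have hgq : ∀ z ∈ Strip a, q z ∈ N → g (q z) = Ψ z := by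
    intro z hz hq
    have h1 := hNO z hz hq
    have h2 : rep (q z) ∈ O := hNO _ (hrep1 _) (by rw [hrep2]; exact hq)
    simp only [hg]
    rcases h.fibre_cases (hrep1 (q z)) hz (hrep2 (q z)) with h3 | ⟨x, hx, h3, h4⟩ | ⟨x, hx, h3, h4⟩
    · rw [h3]
    · rw [h3, h4]
      apply hmatchΨ x hx
      · rcases h2 with h2 | h2
        · rw [← h3]; exact h2
        · exfalso
          exact B2bot _ (hrep1 _) h2 (by rw [h3]; simp)
      · rcases h1 with h1 | h1
        · exfalso
          exact B1top _ hz h1 (by rw [h4]; simp)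
        · rw [mem_preimage, h4] at h1; simpa using h1
    · rw [h4, h3]
      symm
      apply hmatchΨ x hx
      · rcases h1 with h1 | h1
        · rw [← h3]; exact h1
        · exfalso
          exact B2bot _ hz h1 (by rw [h3]; simp)
      · rcases h2 with h2 | h2
        · exfalso
          exact B1top _ (hrep1 _) h2 (by rw [h4]; simp)
        · rw [mem_preimage, h4] at h2; simpa using h2
  have ucont : ∀ z ∈ B1, ContinuousAt u z := fun z hz =>
    ((udiff z (hB1u hz)).differentiableAt (Metric.isOpen_ball.mem_nhds (hB1u hz))).continuousAt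
  have vcont : ∀ z ∈ B2, ContinuousAt v z := fun z hz =>
    ((vdiff z (hB2v hz)).differentiableAt (Metric.isOpen_ball.mem_nhds (hB2v hz))).continuousAt
  have Ψcont : ∀ z ∈ Strip a, z ∈ O → ContinuousWithinAt Ψ (Strip a) z := by
    intro z hz hzO
    rcases hzO with h1 | h1
    · have h2 : ContinuousWithinAt (fun w => PU lp lm (u w)) (Strip a ∩ B1) z := by
        apply ContinuousWithinAt.comp (t := {T : ℂ | 0 ≤ T.im}) (g := PU lp lm) (f := u)
        · exact PU_contOn lp lm _ (hup z hz h1)
        · exact (ucont z h1).continuousWithinAt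
        · intro w hw; exact hup w hw.1 hw.2
      have h3 : ContinuousWithinAt Ψ (Strip a ∩ B1) z :=
        h2.congr (fun w hw => ΨB1 w hw.2) (ΨB1 z h1)
      exact (continuousWithinAt_inter (hB1o.mem_nhds h1)).1 h3
    · have h2 : ContinuousWithinAt (fun w => PD lp lm (v (w - I)))
          (Strip a ∩ (fun z : ℂ => z - I) ⁻¹' B2) z := by
        apply ContinuousWithinAt.comp (t := {T : ℂ | T.im ≤ 0}) (g := PD lp lm)
          (f := fun w => v (w - I))
        · exact PD_contOn lp lm _ (hdn z hz h1)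
        · have : ContinuousAt (fun w : ℂ => v (w - I)) z :=
            ContinuousAt.comp (g := v) (f := fun w : ℂ => w - I) (vcont _ h1) (by fun_prop)
          exact this.continuousWithinAt
        · intro w hw; exact hdn w hw.1 hw.2
      have h3 : ContinuousWithinAt Ψ (Strip a ∩ (fun z : ℂ => z - I) ⁻¹' B2) z :=
        h2.congr (fun w hw => ΨB2 w hw.2) (ΨB2 z h1)
      exact (continuousWithinAt_inter (hB2o'.mem_nhds h1)).1 h3
  have gcont : ContinuousOn g N := by
    intro p hp
    apply ContinuousAt.continuousWithinAt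
    rw [ContinuousAt, h.tendsto_iff]
    intro z hz hqz
    have hqN : q z ∈ N := by rw [hqz]; exact hp
    have e1 : ∀ᶠ w in 𝓝[Strip a] z, q w ∈ N := h.cont z hz (by
      rw [hqz]; exact hNo.mem_nhds hp)
    have e2 : (fun w => g (q w)) =ᶠ[𝓝[Strip a] z] Ψ := by
      filter_upwards [e1, self_mem_nhdsWithin] with w hw1 hw2
      exact hgq w hw2 hw1
    rw [← hqz, hgq z hz hqN]
    exact (Ψcont z hz (hNO z hz hqN)).congr' e2.symm
  have gholo : DifferentiableOn ℂ (fun z => g (q z)) (SInt ∩ q ⁻¹' N) := by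
    rintro z ⟨hz, hqz⟩
    apply DifferentiableAt.differentiableWithinAt
    have e0 : ∀ᶠ w in 𝓝 z, g (q w) = Ψ w := by
      filter_upwards [(h.isOpen_pre hNo).mem_nhds ⟨hz, hqz⟩] with w hw
      exact hgq w (SInt_subset a hw.1) hw.2
    rcases hNO z (SInt_subset a hz) hqz with h1 | h1
    · have hd : DifferentiableAt ℂ (fun w => PU lp lm (u w)) z :=
        DifferentiableAt.comp (g := PU lp lm) (f := u) z
          (PU_diff lp lm ((usign z (hB1u h1)).2.1 hz.2.1))
          ((udiff z (hB1u h1)).differentiableAt (Metric.isOpen_ball.mem_nhds (hB1u h1)))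
      refine hd.congr_of_eventuallyEq ?_
      filter_upwards [e0, hB1o.mem_nhds h1] with w hw1 hw2
      rw [hw1, ΨB1 w hw2]
    · have hzi : (z - I).im < 0 := by simp; exact hz.2.2
      have hd : DifferentiableAt ℂ (fun w => PD lp lm (v (w - I))) z := by
        have hv1 : DifferentiableAt ℂ (fun w : ℂ => v (w - I)) z :=
          DifferentiableAt.comp (g := v) (f := fun w : ℂ => w - I) z
            ((vdiff _ (hB2v h1)).differentiableAt (Metric.isOpen_ball.mem_nhds (hB2v h1)))
            (differentiableAt_id.sub_const I)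
        exact DifferentiableAt.comp (g := PD lp lm) (f := fun w : ℂ => v (w - I)) z
          (PD_diff lp lm ((vsign _ (hB2v h1)).2.2 hzi)) hv1
      refine hd.congr_of_eventuallyEq ?_
      filter_upwards [e0, hB2o'.mem_nhds h1] with w hw1 hw2
      rw [hw1, ΨB2 w hw2]
  -- injectivity
  have cross : ∀ z ∈ Strip a, ∀ w ∈ Strip a, q z ∈ N → q w ∈ N → z ∈ B1 → w - I ∈ B2 →
      Ψ z = Ψ w → q z = q w := by
    intro z hz w hw hzN hwN h1 h2 heq
    rw [ΨB1 z h1, ΨB2 w h2] at heq
    obtain ⟨h3, h4⟩ := PU_PD hlp hlm (hup z hz h1) (hdn w hw h2) heq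
    have hzim : z.im = 0 := by
      by_contra hne
      have hpos : 0 < z.im := lt_of_le_of_ne hz.2.1 (Ne.symm hne)
      have := (usign z (hB1u h1)).2.1 hpos
      linarith
    have hzx : z = (z.re : ℂ) := by apply Complex.ext <;> simp [hzim]
    set x := z.re with hx
    have hxpos : 0 < x := hz.1
    have hxB1 : (x : ℂ) ∈ B1 := by rw [← hzx]; exact h1
    have hpart : ((α x : ℝ) : ℂ) ∈ B2 := by
      have : (α x : ℂ) + I ∈ O := by
        apply hNO _ (top_mem h.sew.nonneg (h.sew.lt hxpos))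
        rw [h.glue hxpos, ← hzx]; exact hzN
      rcases this with h5 | h5
      · exfalso
        exact B1top _ (top_mem h.sew.nonneg (h.sew.lt hxpos)) h5 (by simp)
      · rw [mem_preimage] at h5; simpa using h5
    have hux : u x = ((u x).re : ℂ) := by
      apply Complex.ext
      · simp
      · simp; exact (usign _ (hB1u hxB1)).1 (by simp)
    have hxr : x ∈ Metric.ball b rg := by
      rw [hB1, mem_ball_iff_norm, ← ofReal_sub, norm_real] at hxB1
      rw [Metric.mem_ball, Real.dist_eq]
      exact lt_of_lt_of_le hxB1 ((min_le_right _ _).trans (min_le_left _ _))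
    have hxm : |x - b| < rm := by
      rw [hB1, mem_ball_iff_norm, ← ofReal_sub, norm_real] at hxB1
      exact lt_of_lt_of_le hxB1 ((min_le_left _ _).trans (min_le_right _ _))
    have hg' := hglue x hxr
    have hbm : |b - b| < rm := by simpa using hrm
    have hvw : v (w - I) = v (α x : ℂ) := by
      rcases h4 with ⟨h5, h6⟩ | ⟨h5, h6⟩
      · have hbx : b ≤ x := by
          by_contra hcon
          push Not at hcon
          have := umono x b hxm hbm hcon
          rw [hub] at this
          rw [← hzx] at this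
          simp at this
          linarith
        rw [h6, hg'.1 hbx, ← hzx]
        have : u z = ((u z).re : ℂ) := by rw [hzx]; exact hux
        rw [this]; push_cast; simp
      · have hbx : x ≤ b := by
          by_contra hcon
          push Not at hcon
          have := umono b x hbm hxm hcon
          rw [hub] at this
          rw [← hzx] at this
          simp at this
          linarith
        rw [h6, hg'.2 hbx, ← hzx]
        have : u z = ((u z).re : ℂ) := by rw [hzx]; exact hux
        rw [this]; push_cast; simp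
    have h7 : w - I = (α x : ℂ) := vinj (hB2v h2) (hB2v hpart) hvw
    have h8 : w = (α x : ℂ) + I := by rw [← h7]; ring
    rw [h8, h.glue hxpos, ← hzx]
  have ginj : InjOn g N := by
    intro p hp p' hp' heq
    obtain ⟨z, hz, rfl⟩ := h.surj p
    obtain ⟨w, hw, rfl⟩ := h.surj p'
    rw [hgq z hz hp, hgq w hw hp'] at heq
    rcases hNO z hz hp with h1 | h1 <;> rcases hNO w hw hp' with h2 | h2
    · rw [ΨB1 z h1, ΨB1 w h2] at heq
      have := PU_inj (hup z hz h1) (hup w hw h2) heq
      rw [uinj (hB1u h1) (hB1u h2) this]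
    · exact cross z hz w hw hp hp' h1 h2 heq
    · exact (cross w hw z hz hp' hp h2 h1 heq.symm).symm
    · rw [ΨB2 z h1, ΨB2 w h2] at heq
      have := PD_inj (hdn z hz h1) (hdn w hw h2) heq
      have h3 := vinj (hB2v h1) (hB2v h2) this
      have h4 : z = w := by simpa using h3
      rw [h4]
  -- openness
  have gopen : ∀ p ∈ N, ∀ S ∈ 𝓝 p, S ⊆ N → g '' S ∈ 𝓝 (g p) := by
    intro p hp S hS hSN
    by_cases hpb : p = q b
    · subst hpb
      have hgb : g (q b) = 0 := by
        rw [hgq _ (bot_mem a hb0) hp, ΨB1 _ (Metric.mem_ball_self hr1pos), hub, PU_zero]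
      rw [hgb]
      have s1 := (h.mem_nhds_iff _ _).1 hS b (bot_mem a hb0) rfl
      have s2 := (h.mem_nhds_iff _ _).1 hS _ (top_mem h.sew.nonneg (h.sew.lt hb0)) (h.glue hb0)
      rw [eventually_nhdsWithin_iff] at s1 s2
      have t1 : u '' ({z | z ∈ Strip a → q z ∈ S} ∩ B1 ∩ {z | 0 < z.re}) ∈ 𝓝 (0 : ℂ) := by
        rw [← hub]
        apply analytic_open hu
        · refine inter_mem (inter_mem s1 (Metric.ball_mem_nhds _ hr1pos)) ?_
          exact (isOpen_lt continuous_const continuous_re).mem_nhds (by simpa using hb0)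
        · exact uinj.mono (fun z hz => hB1u hz.1.2)
      have t2 : v '' ((fun z : ℂ => z + I) ⁻¹' {z | z ∈ Strip a → q z ∈ S} ∩ B2 ∩
          {z | a < z.re}) ∈ 𝓝 (0 : ℂ) := by
        rw [← hvb]
        apply analytic_open hv
        · refine inter_mem (inter_mem ?_ (Metric.ball_mem_nhds _ hr2pos)) ?_
          · have : ContinuousAt (fun z : ℂ => z + I) (α b : ℂ) := by fun_prop
            exact this s2
          · exact (isOpen_lt continuous_const continuous_re).mem_nhds (by
              simpa using h.sew.lt hb0)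
        · exact vinj.mono (fun z hz => hB2v hz.1.2)
      obtain ⟨δ, hδ, hδs⟩ := Metric.mem_nhds_iff.1 (inter_mem t1 t2)
      obtain ⟨r, hr, hcov⟩ := cover_disc (lp := lp) (lm := lm) hlp hδ
      rw [Metric.mem_nhds_iff]
      refine ⟨r, hr, ?_⟩
      intro w hw
      rw [mem_ball_zero_iff] at hw
      rcases hcov w hw with ⟨T, hT1, hT2, hT3⟩ | ⟨T, hT1, hT2, hT3⟩
      · obtain ⟨z, ⟨⟨hz1, hz2⟩, hz3⟩, hz4⟩ := (hδs (mem_ball_zero_iff.2 hT2)).1
        have hzi : 0 ≤ z.im := by
          by_contra hcon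
          push Not at hcon
          have := (usign z (hB1u hz2)).2.2 hcon
          rw [hz4] at this; linarith
        have hzS : z ∈ Strip a := by
          have h5 := (abs_lt.1 (hB1im z hz2)).2
          exact ⟨hz3, hzi, by linarith, fun h6 => by rw [h6] at h5; norm_num at h5⟩
        refine ⟨q z, hz1 hzS, ?_⟩
        rw [hgq z hzS (hSN (hz1 hzS)), ΨB1 z hz2, hz4, hT3]
      · obtain ⟨z, ⟨⟨hz1, hz2⟩, hz3⟩, hz4⟩ := (hδs (mem_ball_zero_iff.2 hT2)).2
        have hzi : z.im ≤ 0 := by
          by_contra hcon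
          push Not at hcon
          have := (vsign z (hB2v hz2)).2.1 hcon
          rw [hz4] at this; linarith
        have hzS : z + I ∈ Strip a := by
          have h5 := (abs_lt.1 (hB2im z hz2)).1
          have ha := h.sew.nonneg
          refine ⟨?_, ?_, ?_, ?_⟩
          · simp; exact lt_of_le_of_lt ha hz3
          · simp; linarith
          · simp; exact hzi
          · intro _; simpa using hz3
        have hz1' : q (z + I) ∈ S := hz1 hzS
        refine ⟨q (z + I), hz1', ?_⟩
        rw [hgq (z + I) hzS (hSN hz1'), ΨB2 (z + I) (by simpa using hz2)]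
        simp only [add_sub_cancel_right]
        rw [hz4, hT3]
    · have hpar : HasParam q p := hN0 hp.2 hpb
      obtain ⟨E, hpE, hE⟩ := hpar
      have hd := hE g N hNo ⟨gcont, gholo⟩
      have hVo : IsOpen (E.source ∩ E ⁻¹' N) := E.isOpen_inter_preimage hNo
      set z0 := E.symm p with hz0
      have hz0s : z0 ∈ E.source := E.map_target hpE
      have hEz0 : E z0 = p := E.right_inv hpE
      have hz0V : z0 ∈ E.source ∩ E ⁻¹' N := ⟨hz0s, by rw [mem_preimage, hEz0]; exact hp⟩
      have han : AnalyticAt ℂ (fun z => g (E z)) z0 := hd.analyticAt (hVo.mem_nhds hz0V)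
      have hSpre : E.source ∩ E ⁻¹' S ∈ 𝓝 z0 := by
        refine inter_mem (E.open_source.mem_nhds hz0s) ?_
        apply E.continuousAt hz0s
        rw [hEz0]; exact hS
      have := analytic_open han hSpre (by
        intro z hz w hw heq
        have h1 := ginj (hSN hz.2) (hSN hw.2) heq
        exact E.injOn hz.1 hw.1 h1)
      rw [hEz0] at this
      refine mem_of_superset this ?_
      rintro _ ⟨z, hz, rfl⟩
      exact ⟨E z, hz.2, rfl⟩
  have : Nonempty X := ⟨q b⟩
  obtain ⟨φ, hφ1, hφ2, hφ3⟩ := exists_homeo g N hNo ginj gcont gopen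
  have hφg : (φ : X → ℂ) = g := funext hφ3
  refine ⟨φ, by rw [hφ1]; exact hbN, ?_⟩
  rw [hφg, hφ1]
  exact ⟨gcont, gholo⟩

end

end Pool.Agent.Helper647.Sew
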