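import Mathlib
import Pool.Agent.Helper647.SewBreak

set_option autoImplicit false

open Set Filter Topology Complex
open scoped Manifold ContDiff

namespace Pool.Agent.Helper647.Sew

section general

variable {α : ℝ → ℝ} {a : ℝ} {X : Type} [TopologicalSpace X] [ChartedSpace ℂ X] {q : ℂ → X}

lemma IsGenerated.qs (h : IsGenerated α a X q) (hs : IsSewing α a) : QS α a q :=
  ⟨hs, h.quotient, h.fibre⟩

lemma IsGenerated.mdiff (h : IsGenerated α a X q) {z : ℂ} (hz : z ∈ SInt) :
    MDifferentiableAt 𝓘(ℂ) 𝓘(ℂ) q z := by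
  have h1 := h.conformal
  rw [interior_Strip] at h1
  exact (h1 z hz).mdifferentiableAt (isOpen_SInt.mem_nhds hz)

lemma IsGenerated.chart_holo (h : IsGenerated α a X q)
    {φ : OpenPartialHomeomorph X ℂ} (hφ : φ ∈ atlas ℂ X) : Holo q φ φ.source := by
  have := h.manifold
  have hm1 : IsManifold 𝓘(ℂ) 1 X := IsManifold.of_le (m := 1) (n := ω) le_top
  refine ⟨φ.continuousOn, ?_⟩
  rintro z ⟨hz, hzs⟩
  have h1 : MDifferentiableAt 𝓘(ℂ) 𝓘(ℂ) φ (q z) := mdifferentiableAt_atlas hφ hzs
  have h2 : MDifferentiableAt 𝓘(ℂ) 𝓘(ℂ) (φ ∘ q) z := h1.comp z (h.mdiff hz)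
  exact h2.differentiableAt.differentiableWithinAt

lemma IsGenerated.holo_of_mdiff (h : IsGenerated α a X q) {g : X → ℂ}
    {N : Set X} (hN : IsOpen N) (hg : MDifferentiableOn 𝓘(ℂ) 𝓘(ℂ) g N) : Holo q g N := by
  refine ⟨hg.continuousOn, ?_⟩
  rintro z ⟨hz, hzs⟩
  have h1 : MDifferentiableAt 𝓘(ℂ) 𝓘(ℂ) g (q z) := (hg _ hzs).mdifferentiableAt (hN.mem_nhds hzs)
  have h2 : MDifferentiableAt 𝓘(ℂ) 𝓘(ℂ) (g ∘ q) z := h1.comp z (h.mdiff hz)
  exact h2.differentiableAt.differentiableWithinAt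

lemma IsGenerated.mdiff_of_holo (h : IsGenerated α a X q) (hs : IsSewing α a)
    (hreg : ∀ x0 : ℝ, 0 < x0 → ∀ᶠ x in 𝓝[≠] x0, RegularAt α x) {g : X → ℂ}
    {N : Set X} (hN : IsOpen N) (hg : Holo q g N) : MDifferentiableOn 𝓘(ℂ) 𝓘(ℂ) g N := by
  intro p hp
  apply MDifferentiableAt.mdifferentiableWithinAt
  have := h.manifold
  have hm1 : IsManifold 𝓘(ℂ) 1 X := IsManifold.of_le (m := 1) (n := ω) le_top
  have h1 := (h.qs hs).holo_chart hreg (chartAt ℂ p)
    (h.chart_holo (chart_mem_atlas ℂ p)) hN hg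
  have hmem : chartAt ℂ p p ∈ (chartAt ℂ p).target ∩ (chartAt ℂ p).symm ⁻¹' N := by
    refine ⟨mem_chart_target ℂ p, ?_⟩
    rw [mem_preimage, (chartAt ℂ p).left_inv (mem_chart_source ℂ p)]
    exact hp
  have h2 := (h1 _ hmem).differentiableAt
    (((chartAt ℂ p).symm.isOpen_inter_preimage hN).mem_nhds hmem)
  have h3 : MDifferentiableAt 𝓘(ℂ) 𝓘(ℂ) (chartAt ℂ p) p :=
    mdifferentiableAt_atlas (chart_mem_atlas ℂ p) (mem_chart_source ℂ p)
  have h4 := MDifferentiableAt.comp p h2.mdifferentiableAt h3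
  refine h4.congr_of_eventuallyEq ?_
  filter_upwards [(chartAt ℂ p).open_source.mem_nhds (mem_chart_source ℂ p)] with y hy
  simp [(chartAt ℂ p).left_inv hy]

end general

section construction

variable {α : ℝ → ℝ} {a : ℝ}

/-- canonical representative -/
noncomputable def canon (α : ℝ → ℝ) (a : ℝ) (z : Strip a) : ℂ :=
  if (z : ℂ).im = 1 then ((inv α (z : ℂ).re : ℝ) : ℂ) else (z : ℂ)

/-- the quotient space -/
abbrev Surf (α : ℝ → ℝ) (a : ℝ) : Type := Quotient (Setoid.ker (canon α a))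

lemma base_mem (a : ℝ) : (1 / 2 * I + 1 : ℂ) ∈ Strip a := by
  apply SInt_subset
  refine ⟨by simp, by simp, ?_⟩
  simp
  norm_num

open Classical in
/-- the quotient map, extended by a constant -/
noncomputable def sq (α : ℝ → ℝ) (a : ℝ) (z : ℂ) : Surf α a :=
  if h : z ∈ Strip a then Quotient.mk (Setoid.ker (canon α a)) ⟨z, h⟩
  else Quotient.mk (Setoid.ker (canon α a)) ⟨_, base_mem a⟩

lemma sq_restrict (α : ℝ → ℝ) (a : ℝ) :
    (Strip a).domRestrict (sq α a) = Quotient.mk (Setoid.ker (canon α a)) := by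
  funext z
  simp [sq]

lemma surf_qs (hs : IsSewing α a) : QS α a (sq α a) := by
  refine ⟨hs, ?_, ?_⟩
  · rw [sq_restrict]
    exact isQuotientMap_quotient_mk'
  · intro z hz w hw
    have e1 : sq α a z = Quotient.mk (Setoid.ker (canon α a)) ⟨z, hz⟩ := by simp [sq, hz]
    have e2 : sq α a w = Quotient.mk (Setoid.ker (canon α a)) ⟨w, hw⟩ := by simp [sq, hw]
    rw [e1, e2, Quotient.eq]
    change canon α a ⟨z, hz⟩ = canon α a ⟨w, hw⟩ ↔ _
    simp only [canon, Glued]
    by_cases hz1 : z.im = 1 <;> by_cases hw1 : w.im = 1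
    · rw [if_pos hz1, if_pos hw1]
      have hz2 := hz.2.2.2 hz1
      have hw2 := hw.2.2.2 hw1
      constructor
      · intro heq
        left
        have : inv α z.re = inv α w.re := by exact_mod_cast heq
        have h3 : z.re = w.re := by
          rw [← hs.apply_inv hz2, ← hs.apply_inv hw2, this]
        exact Complex.ext h3 (hz1.trans hw1.symm)
      · rintro (rfl | ⟨h1, h2⟩ | ⟨h1, h2⟩)
        · rfl
        · rw [hz1] at h1; norm_num at h1
        · rw [hw1] at h1; norm_num at h1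
    · rw [if_pos hz1, if_neg hw1]
      have hz2 := hz.2.2.2 hz1
      constructor
      · intro heq
        right; right
        refine ⟨by rw [← heq]; simp, ?_⟩
        rw [← heq]
        simp only [ofReal_re]
        rw [hs.apply_inv hz2]
        apply Complex.ext <;> simp [hz1]
      · rintro (rfl | ⟨h1, h2⟩ | ⟨h1, h2⟩)
        · exact (hw1 hz1).elim
        · rw [hz1] at h1; norm_num at h1
        · rw [h2]
          simp only [add_re, ofReal_re, I_re, add_zero]
          rw [hs.inv_apply hw.1]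
          apply Complex.ext <;> simp [h1]
    · rw [if_neg hz1, if_pos hw1]
      have hw2 := hw.2.2.2 hw1
      constructor
      · intro heq
        right; left
        refine ⟨by rw [heq]; simp, ?_⟩
        rw [heq]
        simp only [ofReal_re]
        rw [hs.apply_inv hw2]
        apply Complex.ext <;> simp [hw1]
      · rintro (rfl | ⟨h1, h2⟩ | ⟨h1, h2⟩)
        · exact (hz1 hw1).elim
        · rw [h2]
          simp only [add_re, ofReal_re, I_re, add_zero]
          rw [hs.inv_apply hz.1]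
          apply Complex.ext <;> simp [h1]
        · rw [hw1] at h1; norm_num at h1
    · rw [if_neg hz1, if_neg hw1]
      constructor
      · intro heq; exact Or.inl heq
      · rintro (rfl | ⟨h1, h2⟩ | ⟨h1, h2⟩)
        · rfl
        · exfalso; apply hw1; rw [h2]; simp
        · exfalso; apply hz1; rw [h2]; simp

lemma QS.exists_chart {X : Type} [TopologicalSpace X] {q : ℂ → X} (h : QS α a q)
    (hreg : ∀ x0 : ℝ, 0 < x0 → ∀ᶠ x in 𝓝[≠] x0, RegularAt α x)
    (hbr : ∀ x0 : ℝ, 0 < x0 → RegularAt α x0 ∨ BreakAt α x0) (p : X) :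
    ∃ φ : OpenPartialHomeomorph X ℂ, p ∈ φ.source ∧ Holo q φ φ.source := by
  obtain ⟨z, hz, rfl⟩ := h.surj p
  have bot : ∀ x : ℝ, 0 < x → ∃ φ : OpenPartialHomeomorph X ℂ, q x ∈ φ.source ∧
      Holo q φ φ.source := by
    intro x hx
    rcases hbr x hx with h1 | h1
    · obtain ⟨E, h2, h3, h4, h5⟩ := h.regular_param hx h1
      refine ⟨E.symm, ?_, h5⟩
      rw [← h3]
      exact E.map_source h2
    · exact h.break_chart hreg hx h1
  rcases strip_cases h.sew hz with h1 | ⟨h1, h2⟩ | ⟨h1, h2⟩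
  · obtain ⟨E, h2, h3, h4, h5⟩ := h.interior_param
    refine ⟨E.symm, ?_, h5⟩
    rw [← h3]
    exact E.map_source (by rw [h2]; exact h1)
  · rw [h2]; exact bot _ h1
  · have h3 := h.sew.inv_pos h1
    have h4 : q z = q (inv α z.re) := by
      rw [← h.glue h3, h.sew.apply_inv h1, ← h2]
    rw [h4]
    exact bot _ h3

/-- the Riemann surface structure -/
theorem exists_generated (hs : IsSewing α a)
    (hreg : ∀ x0 : ℝ, 0 < x0 → ∀ᶠ x in 𝓝[≠] x0, RegularAt α x)
    (hbr : ∀ x0 : ℝ, 0 < x0 → RegularAt α x0 ∨ BreakAt α x0) : IsConformalSewing α a := by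
  refine ⟨hs, Surf α a, inferInstance, ?_⟩
  have h := surf_qs hs
  choose ch hch1 hch2 using h.exists_chart hreg hbr
  let cs : ChartedSpace ℂ (Surf α a) :=
    { atlas := {φ | Holo (sq α a) φ φ.source}
      chartAt := ch
      mem_chart_source := hch1
      chart_mem_atlas := hch2 }
  have hman : IsManifold 𝓘(ℂ) ω (Surf α a) := by
    apply isManifold_of_contDiffOn
    intro e e' he he'
    have h1 := h.holo_chart hreg e he e'.open_source he'
    have hopen : IsOpen (e.target ∩ e.symm ⁻¹' e'.source) :=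
      e.symm.isOpen_inter_preimage e'.open_source
    have h2 : ContDiffOn ℂ ω (fun w => e' (e.symm w)) (e.target ∩ e.symm ⁻¹' e'.source) :=
      h1.contDiffOn hopen
    simpa [Function.comp_def, mfld_simps] using h2
  refine ⟨cs, sq α a, hman, h.quotient, h.fibre, ?_⟩
  · rw [interior_Strip]
    intro z hz
    apply MDifferentiableAt.mdifferentiableWithinAt
    have hm1 : IsManifold 𝓘(ℂ) 1 (Surf α a) := IsManifold.of_le (m := 1) (n := ω) le_top
    have hc : ContinuousAt (sq α a) z := h.contSInt.continuousAt (isOpen_SInt.mem_nhds hz)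
    have h1 : Holo (sq α a) (chartAt ℂ (sq α a z)) (chartAt ℂ (sq α a z)).source :=
      hch2 (sq α a z)
    have hmem : z ∈ SInt ∩ sq α a ⁻¹' (chartAt ℂ (sq α a z)).source :=
      ⟨hz, mem_chart_source ℂ (sq α a z)⟩
    have h2 := (h1.2 z hmem).differentiableAt
      ((h.isOpen_pre (chartAt ℂ (sq α a z)).open_source).mem_nhds hmem)
    have h3 : MDifferentiableAt 𝓘(ℂ) 𝓘(ℂ) (chartAt ℂ (sq α a z)).symm
        (chartAt ℂ (sq α a z) (sq α a z)) :=
      mdifferentiableAt_atlas_symm (chart_mem_atlas ℂ _) (mem_chart_target ℂ _)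
    have h4 := MDifferentiableAt.comp z h3 h2.mdifferentiableAt
    refine h4.congr_of_eventuallyEq ?_
    filter_upwards [hc ((chartAt ℂ (sq α a z)).open_source.mem_nhds (mem_chart_source ℂ _))]
      with y hy
    simp only [Function.comp_apply]
    exact ((chartAt ℂ (sq α a z)).left_inv hy).symm

end construction

end Pool.Agent.Helper647.Sew
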