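import Mathlib
import Pool.Agent.Helper647.SewMan

set_option autoImplicit false

open Set Filter Topology Complex
open scoped Manifold ContDiff

namespace Pool.Agent.Helper647.Sew

section

variable {α : ℝ → ℝ} {a : ℝ} {X : Type} [TopologicalSpace X] {q : ℂ → X}

/-- functions on the strip compatible with the gluing descend -/
theorem QS.descend (h : QS α a q) (Ψ : ℂ → ℂ) (hc : ContinuousOn Ψ (Strip a))
    (hd : DifferentiableOn ℂ Ψ SInt) (hg : ∀ x : ℝ, 0 < x → Ψ (x : ℂ) = Ψ ((α x : ℂ) + I)) :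
    ∃ g : X → ℂ, (∀ z ∈ Strip a, g (q z) = Ψ z) ∧ Holo q g univ := by
  choose rep hrep1 hrep2 using h.surj
  have key : ∀ z ∈ Strip a, Ψ (rep (q z)) = Ψ z := by
    intro z hz
    rcases h.fibre_cases (hrep1 (q z)) hz (hrep2 (q z)) with h3 | ⟨x, hx, h3, h4⟩ | ⟨x, hx, h3, h4⟩
    · rw [h3]
    · rw [h3, h4]; exact hg x hx
    · rw [h4, h3]; exact (hg x hx).symm
  refine ⟨fun p => Ψ (rep p), key, ?_, ?_⟩
  · intro p _
    apply ContinuousAt.continuousWithinAt
    rw [ContinuousAt, h.tendsto_iff]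
    intro z hz hqz
    have e2 : (fun w => Ψ (rep (q w))) =ᶠ[𝓝[Strip a] z] Ψ := by
      filter_upwards [self_mem_nhdsWithin] with w hw2
      exact key w hw2
    rw [← hqz, key z hz]
    exact (hc z hz).congr' e2.symm
  · rintro z ⟨hz, _⟩
    have h1 : DifferentiableAt ℂ Ψ z := (hd z hz).differentiableAt (isOpen_SInt.mem_nhds hz)
    apply DifferentiableAt.differentiableWithinAt
    refine h1.congr_of_eventuallyEq ?_
    filter_upwards [isOpen_SInt.mem_nhds hz] with w hw
    exact key w (SInt_subset a hw)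

/-- injective functions holomorphic off the seam are open -/
theorem QS.isOpenMap_of_holo (h : QS α a q) (hreg : ∀ x : ℝ, 0 < x → RegularAt α x)
    {g : X → ℂ} (hg : Holo q g univ) (hinj : Function.Injective g) : IsOpenMap g := by
  apply IsOpenMap.of_nhds_le
  intro p S hS
  rw [mem_map] at hS
  have hpar : HasParam q p := by
    obtain ⟨z, hz, rfl⟩ := h.surj p
    rcases strip_cases h.sew hz with h1 | ⟨h1, h2⟩ | ⟨h1, h2⟩
    · exact h.hasParam_interior h1
    · rw [h2]; exact h.hasParam_regular h1 (hreg _ h1)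
    · have h3 := h.sew.inv_pos h1
      have h4 : q z = q (inv α z.re) := by
        rw [← h.glue h3, h.sew.apply_inv h1, ← h2]
      rw [h4]
      exact h.hasParam_regular h3 (hreg _ h3)
  obtain ⟨E, hpE, hE⟩ := hpar
  have hd := hE g univ isOpen_univ hg
  have hVo : IsOpen (E.source ∩ E ⁻¹' univ) := E.isOpen_inter_preimage isOpen_univ
  set z0 := E.symm p with hz0
  have hz0s : z0 ∈ E.source := E.map_target hpE
  have hEz0 : E z0 = p := E.right_inv hpE
  have han : AnalyticAt ℂ (fun z => g (E z)) z0 :=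
    hd.analyticAt (hVo.mem_nhds ⟨hz0s, mem_univ _⟩)
  have hSpre : E.source ∩ E ⁻¹' (g ⁻¹' S) ∈ 𝓝 z0 := by
    refine inter_mem (E.open_source.mem_nhds hz0s) ?_
    apply E.continuousAt hz0s
    rw [hEz0]; exact hS
  have := analytic_open han hSpre (by
    intro z hz w hw heq
    exact E.injOn hz.1 hw.1 (hinj heq))
  rw [hEz0] at this
  refine mem_of_superset this ?_
  rintro _ ⟨z, hz, rfl⟩
  exact hz.2

end

/-- the sewing `x ↦ 2x` -/
def dbl (x : ℝ) : ℝ := 2 * x

lemma dbl_sewing : IsSewing dbl 0 := by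
  refine ⟨le_refl _, ?_, ?_, ?_⟩
  · intro x _ y _ hxy
    simp only [dbl]; linarith
  · unfold dbl; fun_prop
  · ext y
    simp only [dbl, mem_image, mem_Ioi]
    constructor
    · rintro ⟨x, hx, rfl⟩; linarith
    · intro hy; exact ⟨y / 2, by linarith, by ring⟩

lemma dbl_regular (x : ℝ) : RegularAt dbl x := by
  refine ⟨fun z => 2 * z, 2, ?_, by norm_num, ?_, ?_⟩
  · exact (analyticAt_const).mul analyticAt_id
  · simp
  · filter_upwards with y
    simp [dbl]

lemma dbl_conformal : IsConformalSewing dbl 0 :=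
  exists_generated dbl_sewing (fun _ _ => Eventually.of_forall fun x => dbl_regular x)
    (fun _ _ => Or.inl (dbl_regular _))

/-- the uniformising map on the strip -/
noncomputable def Phi0 (z : ℂ) : ℂ :=
  exp (((Real.pi ^ 2 / Real.log 2 : ℝ) : ℂ) + (2 * Real.pi * I / (Real.log 2 : ℂ)) * log (z + I))

lemma log2_pos : 0 < Real.log 2 := Real.log_pos (by norm_num)

lemma Phi0_norm (z : ℂ) :
    ‖Phi0 z‖ = Real.exp (Real.pi ^ 2 / Real.log 2 - 2 * Real.pi / Real.log 2 * arg (z + I)) := by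
  have hl := log2_pos
  rw [Phi0, norm_exp]
  congr 1
  have : (2 * Real.pi * I / (Real.log 2 : ℂ)) * log (z + I)
      = ((2 * Real.pi / Real.log 2 : ℝ) : ℂ) * (I * log (z + I)) := by
    push_cast; ring
  rw [add_re, ofReal_re, this, re_ofReal_mul]
  simp [log_im]
  ring

lemma shift_slit {z : ℂ} (hz : z ∈ Strip 0) : z + I ∈ slitPlane := by
  rw [mem_slitPlane_iff]; left; simpa using hz.1

lemma shift_ne {z : ℂ} (hz : z ∈ Strip 0) : z + I ≠ 0 := slitPlane_ne_zero (shift_slit hz)

lemma Phi0_diff {z : ℂ} (hz : z ∈ Strip 0) : DifferentiableAt ℂ Phi0 z := by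
  unfold Phi0
  have h1 : DifferentiableAt ℂ (fun z : ℂ => log (z + I)) z :=
    (differentiableAt_id.add_const I).clog (shift_slit hz)
  exact ((h1.const_mul _).const_add _).cexp

lemma Phi0_glue {x : ℝ} (hx : 0 < x) : Phi0 (x : ℂ) = Phi0 ((dbl x : ℂ) + I) := by
  have hl := log2_pos
  have h1 : ((dbl x : ℝ) : ℂ) + I + I = ((2 : ℝ) : ℂ) * ((x : ℂ) + I) := by
    simp only [dbl]; push_cast; ring
  have h2 : (x : ℂ) + I ≠ 0 := shift_ne (bot_mem 0 hx)
  rw [Phi0, Phi0, h1, log_ofReal_mul (by norm_num) h2]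
  rw [mul_add, ← add_assoc, add_right_comm, exp_add]
  have h3 : (2 * Real.pi * I / (Real.log 2 : ℂ)) * (Real.log 2 : ℂ) = 2 * Real.pi * I := by
    have : (Real.log 2 : ℂ) ≠ 0 := by exact_mod_cast hl.ne'
    field_simp
  rw [h3]
  conv_rhs => rw [exp_add, exp_add, exp_two_pi_mul_I, mul_one]

lemma Phi0_inj {z w : ℂ} (hz : z ∈ Strip 0) (hw : w ∈ Strip 0) (h : Phi0 z = Phi0 w) :
    z = w ∨ Glued dbl z w ∨ Glued dbl w z := by
  have hl := log2_pos
  have hlC : (Real.log 2 : ℂ) ≠ 0 := by exact_mod_cast hl.ne'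
  obtain ⟨n, hn⟩ := exp_eq_exp_iff_exists_int.1 h
  have hpi : (Real.pi : ℂ) ≠ 0 := by exact_mod_cast Real.pi_ne_zero
  have h1 : log (z + I) = log (w + I) + ((n * Real.log 2 : ℝ) : ℂ) := by
    have h2 : (2 * Real.pi * I / (Real.log 2 : ℂ)) * log (z + I)
        = (2 * Real.pi * I / (Real.log 2 : ℂ)) * (log (w + I) + ((n * Real.log 2 : ℝ) : ℂ)) := by
      have h3 : (2 * Real.pi * I / (Real.log 2 : ℂ)) * (((n * Real.log 2 : ℝ) : ℂ))
          = n * (2 * Real.pi * I) := by
        push_cast; field_simp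
      rw [mul_add, h3]
      linear_combination hn
    refine mul_left_cancel₀ ?_ h2
    exact div_ne_zero (mul_ne_zero (mul_ne_zero two_ne_zero hpi) I_ne_zero) hlC
  have h4 : z + I = (w + I) * ((Real.exp (n * Real.log 2) : ℝ) : ℂ) := by
    rw [← exp_log (shift_ne hz), h1, exp_add, exp_log (shift_ne hw), ofReal_exp]
  have hexp : Real.exp (n * Real.log 2) = (2 : ℝ) ^ n := by
    rw [mul_comm, Real.exp_mul, Real.exp_log (by norm_num), Real.rpow_intCast]
  rw [hexp] at h4
  have him : z.im + 1 = (w.im + 1) * (2 : ℝ) ^ n := by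
    have := congrArg Complex.im h4
    rw [im_mul_ofReal] at this
    simpa using this
  have hre : z.re = w.re * (2 : ℝ) ^ n := by
    have := congrArg Complex.re h4
    rw [re_mul_ofReal] at this
    simpa using this
  have hz1 := hz.2.1
  have hz2 := hz.2.2.1
  have hw1 := hw.2.1
  have hw2 := hw.2.2.1
  have hpos : (0 : ℝ) < 2 ^ n := by positivity
  have hn1 : n ≤ 1 := by
    by_contra hcon
    push Not at hcon
    have : (2 : ℝ) ^ (2 : ℤ) ≤ 2 ^ n := zpow_le_zpow_right₀ (by norm_num) (by omega)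
    norm_num at this
    nlinarith
  have hn2 : -1 ≤ n := by
    by_contra hcon
    push Not at hcon
    have : (2 : ℝ) ^ n ≤ 2 ^ (-2 : ℤ) := zpow_le_zpow_right₀ (by norm_num) (by omega)
    norm_num at this
    nlinarith
  have : n = 0 ∨ n = 1 ∨ n = -1 := by omega
  rcases this with h5 | h5 | h5
  · left
    rw [h5] at him hre
    simp at him hre
    exact Complex.ext hre him
  · right; right
    rw [h5] at him hre
    simp at him hre
    have hwi : w.im = 0 := by linarith
    have hzi : z.im = 1 := by linarith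
    refine ⟨hwi, ?_⟩
    apply Complex.ext
    · simp [dbl, hre]; ring
    · simp [hzi]
  · right; left
    rw [h5] at him hre
    norm_num at him hre
    have hzi : z.im = 0 := by linarith
    have hwi : w.im = 1 := by linarith
    refine ⟨hzi, ?_⟩
    apply Complex.ext
    · simp [dbl, hre]
      ring
    · simp [hwi]

lemma Phi0_surj {w : ℂ} (h1 : 1 < ‖w‖) (h2 : ‖w‖ < Real.exp (Real.pi ^ 2 / Real.log 2)) :
    ∃ z ∈ Strip 0, Phi0 z = w := by
  have hl := log2_pos
  have hlC : (Real.log 2 : ℂ) ≠ 0 := by exact_mod_cast hl.ne'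
  have hpi := Real.pi_pos
  have hpiC : (Real.pi : ℂ) ≠ 0 := by exact_mod_cast Real.pi_ne_zero
  have hw0 : w ≠ 0 := by rintro rfl; simp at h1; linarith
  set ζ : ℂ := (log w - ((Real.pi ^ 2 / Real.log 2 : ℝ) : ℂ)) / (2 * Real.pi * I / (Real.log 2 : ℂ))
    with hζ
  have hcoef : (2 * Real.pi * I / (Real.log 2 : ℂ)) ≠ 0 :=
    div_ne_zero (mul_ne_zero (mul_ne_zero two_ne_zero hpiC) I_ne_zero) hlC
  have hζ1 : (2 * Real.pi * I / (Real.log 2 : ℂ)) * ζ
      = log w - ((Real.pi ^ 2 / Real.log 2 : ℝ) : ℂ) := mul_div_cancel₀ _ hcoef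
  have hζim : 2 * Real.pi / Real.log 2 * ζ.im = Real.pi ^ 2 / Real.log 2 - Real.log ‖w‖ := by
    have h3 := congrArg Complex.re hζ1
    have : (2 * Real.pi * I / (Real.log 2 : ℂ)) * ζ
        = ((2 * Real.pi / Real.log 2 : ℝ) : ℂ) * (I * ζ) := by
      push_cast; ring
    rw [this, re_ofReal_mul, sub_re, ofReal_re, log_re] at h3
    simp at h3
    linarith
  have hlogw1 : 0 < Real.log ‖w‖ := Real.log_pos h1
  have hlogw2 : Real.log ‖w‖ < Real.pi ^ 2 / Real.log 2 := by
    rw [← Real.log_exp (Real.pi ^ 2 / Real.log 2)]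
    exact Real.log_lt_log (by linarith) h2
  have hζim1 : 0 < ζ.im := by
    have : 0 < 2 * Real.pi / Real.log 2 * ζ.im := by rw [hζim]; linarith
    exact (mul_pos_iff_of_pos_left (by positivity)).1 this
  have hζim2 : ζ.im < Real.pi / 2 := by
    have h3 : 2 * Real.pi / Real.log 2 * ζ.im < 2 * Real.pi / Real.log 2 * (Real.pi / 2) := by
      rw [hζim]
      have : 2 * Real.pi / Real.log 2 * (Real.pi / 2) = Real.pi ^ 2 / Real.log 2 := by
        field_simp
      rw [this]; linarith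
    exact lt_of_mul_lt_mul_left h3 (by positivity)
  have hZim : 0 < (exp ζ).im := by
    rw [exp_im]
    exact mul_pos (Real.exp_pos _) (Real.sin_pos_of_pos_of_lt_pi hζim1 (by linarith))
  have hZre : 0 < (exp ζ).re := by
    rw [exp_re]
    exact mul_pos (Real.exp_pos _) (Real.cos_pos_of_mem_Ioo ⟨by linarith, by linarith⟩)
  obtain ⟨n, hn⟩ := exists_mem_Ico_zpow hZim (one_lt_two : (1 : ℝ) < 2)
  set c : ℝ := (2 : ℝ) ^ (-n) with hc
  have hcpos : 0 < c := by positivity
  have hcn : c * (2 : ℝ) ^ n = 1 := by rw [hc, ← zpow_add₀ (by norm_num)]; simp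
  have him1 : 1 ≤ c * (exp ζ).im := by
    rw [← hcn]; exact mul_le_mul_of_nonneg_left hn.1 hcpos.le
  have him2 : c * (exp ζ).im < 2 := by
    have : c * (exp ζ).im < c * (2 : ℝ) ^ (n + 1) := mul_lt_mul_of_pos_left hn.2 hcpos
    rw [zpow_add₀ (by norm_num), ← mul_assoc, hcn] at this
    simpa using this
  refine ⟨(c : ℂ) * exp ζ - I, ?_, ?_⟩
  · refine ⟨?_, ?_, ?_, ?_⟩
    · simp only [sub_re, re_ofReal_mul, I_re, sub_zero]; positivity
    · simp only [sub_im, im_ofReal_mul, I_im]; linarith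
    · simp only [sub_im, im_ofReal_mul, I_im]; linarith
    · intro hcon
      simp only [sub_im, im_ofReal_mul, I_im] at hcon
      linarith
  · rw [Phi0, sub_add_cancel, log_ofReal_mul hcpos (exp_ne_zero _),
      log_exp (by linarith) (by linarith)]
    have hlogc : Real.log c = -(n : ℝ) * Real.log 2 := by
      rw [hc, Real.log_zpow]; push_cast; ring
    rw [hlogc]
    have h5 : (((Real.pi ^ 2 / Real.log 2 : ℝ) : ℂ) + (2 * Real.pi * I / (Real.log 2 : ℂ)) *
        (((-(n : ℝ) * Real.log 2 : ℝ) : ℂ) + ζ)) = log w + ((-n : ℤ) : ℂ) * (2 * Real.pi * I) := by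
      rw [mul_add, hζ1]
      push_cast
      field_simp
      ring
    rw [h5, exp_add, exp_int_mul_two_pi_mul_I, mul_one, exp_log hw0]

/-- every surface generated by `x ↦ 2x` has a hyperbolic end -/
theorem dbl_hyperbolic (X : Type) [TopologicalSpace X] [ChartedSpace ℂ X] (q : ℂ → X)
    (h : IsGenerated dbl 0 X q) : HasHyperbolicEnd 0 X q := by
  have hl := log2_pos
  have hpi := Real.pi_pos
  have hqs := h.qs dbl_sewing
  have hreg : ∀ x : ℝ, 0 < x → RegularAt dbl x := fun x _ => dbl_regular x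
  obtain ⟨Φ, hΦ1, hΦ2⟩ := hqs.descend Phi0
    (fun z hz => (Phi0_diff hz).continuousAt.continuousWithinAt)
    (fun z hz => (Phi0_diff (SInt_subset 0 hz)).differentiableWithinAt)
    (fun x hx => Phi0_glue hx)
  have hcont : Continuous Φ := continuousOn_univ.1 hΦ2.1
  have hinj : Function.Injective Φ := by
    intro p p' heq
    obtain ⟨z, hz, rfl⟩ := hqs.surj p
    obtain ⟨w, hw, rfl⟩ := hqs.surj p'
    rw [hΦ1 z hz, hΦ1 w hw] at heq
    exact (hqs.fibre z hz w hw).2 (Phi0_inj hz hw heq)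
  have hopen : IsOpenMap Φ := hqs.isOpenMap_of_holo hreg hΦ2 hinj
  set ρ0 := Real.exp (Real.pi ^ 2 / Real.log 2) with hρ0
  set r := Real.exp (Real.pi ^ 2 / (2 * Real.log 2)) with hr
  have hrpos : 0 < r := Real.exp_pos _
  have hr1 : 1 < r := by rw [hr]; exact Real.one_lt_exp_iff.2 (by positivity)
  have hrρ : r < ρ0 := by
    rw [hr, hρ0]
    apply Real.exp_lt_exp.2
    apply div_lt_div_of_pos_left (by positivity) hl (by linarith)
  have hnorm : ∀ z ∈ Strip 0, 0 < arg (z + I) ∧ arg (z + I) < Real.pi / 2 := by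
    intro z hz
    constructor
    · apply lt_of_le_of_ne
      · rw [arg_nonneg_iff]; simp; linarith [hz.2.1]
      · intro hcon
        have := arg_eq_zero_iff.1 hcon.symm
        have h2 := this.2
        simp at h2
        linarith [hz.2.1]
    · have h1 : |arg (z + I)| < Real.pi / 2 :=
        abs_arg_lt_pi_div_two_iff.2 (Or.inl (by simpa using hz.1))
      exact (abs_lt.1 h1).2
  have hrange : ∀ p, 1 < ‖Φ p‖ ∧ ‖Φ p‖ < ρ0 := by
    intro p
    obtain ⟨z, hz, rfl⟩ := hqs.surj p
    rw [hΦ1 z hz, Phi0_norm]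
    obtain ⟨h1, h2⟩ := hnorm z hz
    constructor
    · rw [Real.one_lt_exp_iff]
      have : 2 * Real.pi / Real.log 2 * arg (z + I) < 2 * Real.pi / Real.log 2 * (Real.pi / 2) :=
        mul_lt_mul_of_pos_left h2 (by positivity)
      have h3 : 2 * Real.pi / Real.log 2 * (Real.pi / 2) = Real.pi ^ 2 / Real.log 2 := by
        field_simp
      linarith
    · rw [hρ0]
      apply Real.exp_lt_exp.2
      have : 0 < 2 * Real.pi / Real.log 2 * arg (z + I) := by positivity
      linarith
  have hsurj : ∀ w : ℂ, 1 < ‖w‖ → ‖w‖ < ρ0 → ∃ p, Φ p = w := by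
    intro w h1 h2
    obtain ⟨z, hz, hzw⟩ := Phi0_surj h1 h2
    exact ⟨q z, by rw [hΦ1 z hz, hzw]⟩
  have hemb : IsOpenEmbedding Φ := .of_continuous_injective_isOpenMap hcont hinj hopen
  refine ⟨Φ ⁻¹' {w | r < ‖w‖}, (isOpen_lt continuous_const continuous_norm).preimage hcont,
    ?_, ?_, ρ0 / r, fun p => Φ p / r, ?_, ?_⟩
  · -- the end
    have ht : Tendsto (fun x : ℝ => Real.arctan (2 / x)) atTop (𝓝 0) := by
      have h1 : Tendsto (fun x : ℝ => 2 / x) atTop (𝓝 0) := tendsto_const_nhds.div_atTop tendsto_id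
      have h2 := (Real.continuous_arctan.tendsto 0).comp h1
      simpa [Function.comp_def] using h2
    obtain ⟨R, hR⟩ := (ht.eventually (gt_mem_nhds (show (0 : ℝ) < Real.pi / 4 by positivity))).exists_forall_of_atTop
    refine ⟨max R 0, fun z hz hRz => ?_⟩
    rw [mem_preimage, hΦ1 z hz, mem_ofPred_eq, Phi0_norm, hr]
    apply Real.exp_lt_exp.2
    have hzr : R ≤ z.re := le_trans (le_max_left _ _) hRz.le
    have harg : arg (z + I) ≤ Real.arctan (2 / z.re) := by
      have hre : 0 < (z + I).re := by simpa using hz.1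
      obtain ⟨g1, g2⟩ := hnorm z hz
      rw [← Real.arctan_tan (x := arg (z + I)) (by linarith) g2, tan_arg]
      apply Real.arctan_strictMono.monotone
      simp only [add_re, add_im, I_re, I_im, add_zero]
      apply div_le_div_of_nonneg_right _ hz.1.le
      linarith [hz.2.2.1]
    have h3 := hR z.re hzr
    have h4 : 2 * Real.pi / Real.log 2 * arg (z + I) < 2 * Real.pi / Real.log 2 * (Real.pi / 4) :=
      mul_lt_mul_of_pos_left (by linarith) (by positivity)
    have h5 : 2 * Real.pi / Real.log 2 * (Real.pi / 4) = Real.pi ^ 2 / (2 * Real.log 2) := by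
      field_simp
      ring
    have h6 : Real.pi ^ 2 / Real.log 2 = 2 * (Real.pi ^ 2 / (2 * Real.log 2)) := by
      field_simp
    linarith
  · -- the boundary curve
    have hfr : frontier (Φ ⁻¹' {w | r < ‖w‖}) = Φ ⁻¹' {w | ‖w‖ = r} := by
      have h1 : frontier {w : ℂ | r < ‖w‖} = {w | ‖w‖ = r} := by
        have h2 : {w : ℂ | r < ‖w‖} = (Metric.closedBall (0 : ℂ) r)ᶜ := by
          ext w; simp
        rw [h2, frontier_compl, frontier_closedBall _ hrpos.ne']
        ext w; simp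
      rw [← h1]
      exact (hopen.preimage_frontier_eq_frontier_preimage hcont _).symm
    have hex : ∀ ζ : Circle, ∃ p, Φ p = (r : ℂ) * ζ := by
      intro ζ
      have : ‖(r : ℂ) * ζ‖ = r := by simp [abs_of_pos hrpos, Circle.norm_coe]
      exact hsurj _ (by rw [this]; exact hr1) (by rw [this]; exact hrρ)
    choose γ hγ using hex
    refine ⟨γ, ?_, ?_, ?_⟩
    · rw [hemb.isInducing.continuous_iff]
      have : Φ ∘ γ = fun ζ : Circle => (r : ℂ) * ζ := funext hγ
      rw [this]
      fun_prop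
    · intro ζ ζ' heq
      have h1 : (r : ℂ) * ζ = (r : ℂ) * ζ' := by rw [← hγ, ← hγ, heq]
      have hrC : (r : ℂ) ≠ 0 := by exact_mod_cast hrpos.ne'
      exact Circle.coe_injective (mul_left_cancel₀ hrC h1)
    · rw [hfr]
      ext p
      constructor
      · rintro ⟨ζ, rfl⟩
        rw [mem_preimage, hγ, mem_ofPred_eq]
        simp [abs_of_pos hrpos, Circle.norm_coe]
      · intro hp
        rw [mem_preimage, mem_ofPred_eq] at hp
        have hrC : (r : ℂ) ≠ 0 := by exact_mod_cast hrpos.ne'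
        have hmem : Φ p / r ∈ Submonoid.unitSphere ℂ := by
          apply mem_sphere_zero_iff_norm.2
          rw [norm_div, hp, norm_real, Real.norm_of_nonneg hrpos.le]
          exact div_self hrpos.ne'
        refine ⟨(⟨Φ p / r, hmem⟩ : Circle), ?_⟩
        apply hinj
        refine (hγ _).trans ?_
        exact mul_div_cancel₀ _ hrC
  · apply h.mdiff_of_holo dbl_sewing (fun x0 _ => Eventually.of_forall fun x => dbl_regular x)
      ((isOpen_lt continuous_const continuous_norm).preimage hcont)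
    refine ⟨(hcont.div_const _).continuousOn, ?_⟩
    have h1 : DifferentiableOn ℂ (fun z => Φ (q z)) (SInt ∩ q ⁻¹' (Φ ⁻¹' {w | r < ‖w‖})) :=
      hΦ2.2.mono (fun z hz => ⟨hz.1, mem_univ _⟩)
    exact h1.div_const _
  · have hrC : (r : ℂ) ≠ 0 := by exact_mod_cast hrpos.ne'
    have hn : ∀ w : ℂ, ‖w / r‖ = ‖w‖ / r := by
      intro w; rw [norm_div, norm_real, Real.norm_of_nonneg hrpos.le]
    refine ⟨?_, ?_, ?_⟩
    · intro p hp
      rw [mem_preimage, mem_ofPred_eq] at hp
      rw [mem_ofPred_eq, hn]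
      exact ⟨(one_lt_div hrpos).2 hp, div_lt_div_of_pos_right (hrange p).2 hrpos⟩
    · intro p _ p' _ heq
      simp only at heq
      exact hinj ((div_left_inj' hrC).1 heq)
    · rintro w ⟨h1, h2⟩
      have h3 : ‖(r : ℂ) * w‖ = r * ‖w‖ := by
        rw [norm_mul, norm_real, Real.norm_of_nonneg hrpos.le]
      obtain ⟨p, hp⟩ := hsurj ((r : ℂ) * w) (by rw [h3]; nlinarith)
        (by rw [h3]; rw [lt_div_iff₀ hrpos] at h2; linarith)
      refine ⟨p, ?_, ?_⟩
      · rw [mem_preimage, mem_ofPred_eq, hp, h3]; nlinarith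
      · simp only
        rw [hp, mul_div_assoc, mul_comm, div_mul_cancel₀ _ hrC]

end Pool.Agent.Helper647.Sew
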