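import Mathlib

set_option autoImplicit false

open MeasureTheory Set Complex
open scoped ENNReal

namespace Pool.Agent.Helper647.Sew

theorem cs_aux {α : Type*} [MeasurableSpace α] (μ : Measure α) {f : α → ℝ≥0∞}
    (hf : Measurable f) :
    ∫⁻ a, f a ∂μ ≤ (∫⁻ a, f a ^ 2 ∂μ) ^ (1 / 2 : ℝ) * (μ univ) ^ (1 / 2 : ℝ) := by
  have h := ENNReal.lintegral_mul_le_Lp_mul_Lq μ (p := 2) (q := 2)
    (by constructor <;> norm_num) hf.aemeasurable (measurable_const (a := (1:ℝ≥0∞))).aemeasurable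
  simpa using h

theorem arcs_bound (h : ℂ → ℝ≥0∞) (hm : Measurable h) (c : ℂ) (σ R K : ℝ)
    (hσ : σ = 1 ∨ σ = -1) (hR : 0 < R) (hK : 0 < K) :
    ∫⁻ s in Ioo (0:ℝ) 1, ∫⁻ θ in Ioo (0:ℝ) Real.pi,
        h (c + ((R * (2 / Real.pi) * Real.arctan (Real.exp (-(K * s))) : ℝ) : ℂ)
            * Complex.exp (((σ * θ : ℝ) : ℂ) * I))
          * ENNReal.ofReal (R * (2 / Real.pi) * Real.arctan (Real.exp (-(K * s))))
      ≤ ENNReal.ofReal (Real.sqrt (2 * Real.pi / K))
        * (∫⁻ z in {z : ℂ | ‖z - c‖ < R ∧ 0 < σ * (z - c).im}, h z ^ 2) ^ (1 / 2 : ℝ) := by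
  have hpi := Real.pi_pos
  set τ : ℝ → ℝ := fun s => R * (2 / Real.pi) * Real.arctan (Real.exp (-(K * s))) with hτ
  set τ' : ℝ → ℝ := fun s => -(R * (2 / Real.pi) * (K * Real.exp (-(K * s)) /
    (1 + Real.exp (-(K * s)) ^ 2))) with hτ'
  have hder : ∀ s, HasDerivAt τ (τ' s) s := by
    intro s
    have h0 : HasDerivAt (fun s : ℝ => K * s) K s := by
      simpa using (hasDerivAt_id s).const_mul K
    have h1 : HasDerivAt (fun s : ℝ => -(K * s)) (-K) s := h0.neg
    have h2 := (h1.exp.arctan).const_mul (R * (2 / Real.pi))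
    refine h2.congr_deriv ?_
    simp only [hτ']
    field_simp
  have hτpos : ∀ s, 0 < τ s := fun s => by
    simp only [hτ]
    have : 0 < Real.arctan (Real.exp (-(K * s))) := by
      rw [← Real.arctan_zero]
      exact Real.arctan_strictMono (Real.exp_pos _)
    positivity
  have hτlt : ∀ s, τ s < R := fun s => by
    simp only [hτ]
    have h1 := Real.arctan_lt_pi_div_two (Real.exp (-(K * s)))
    have h2 : R * (2 / Real.pi) * Real.arctan (Real.exp (-(K * s)))
        < R * (2 / Real.pi) * (Real.pi / 2) := mul_lt_mul_of_pos_left h1 (by positivity)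
    have h3 : R * (2 / Real.pi) * (Real.pi / 2) = R := by field_simp
    linarith
  have hneg : ∀ s, τ' s < 0 := fun s => by
    simp only [hτ']
    have : 0 < R * (2 / Real.pi) * (K * Real.exp (-(K * s)) / (1 + Real.exp (-(K * s)) ^ 2)) := by
      positivity
    linarith
  have hlow : ∀ s, 0 ≤ s → K * τ s ≤ 2 * |τ' s| := by
    intro s hs
    rw [abs_of_neg (hneg s)]
    simp only [hτ, hτ', neg_neg]
    have he : Real.exp (-(K * s)) ≤ 1 := by
      rw [Real.exp_le_one_iff]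
      have := mul_nonneg hK.le hs
      linarith
    have he0 := Real.exp_pos (-(K * s))
    have ha : Real.arctan (Real.exp (-(K * s))) ≤ Real.exp (-(K * s)) := by
      have h7 : 0 ≤ Real.arctan (Real.exp (-(K * s))) := by
        rw [← Real.arctan_zero]
        exact Real.arctan_strictMono.monotone he0.le
      have := Real.le_tan h7 (Real.arctan_lt_pi_div_two _)
      rwa [Real.tan_arctan] at this
    generalize Real.exp (-(K * s)) = u at *
    have h1 : u / 2 ≤ u / (1 + u ^ 2) := by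
      apply div_le_div_of_nonneg_left he0.le (by positivity)
      nlinarith
    have h2 : K * (R * (2 / Real.pi) * Real.arctan u) ≤ K * (R * (2 / Real.pi) * u) := by
      gcongr
    have h3 : K * (R * (2 / Real.pi) * u) ≤ 2 * (R * (2 / Real.pi) * (K * u / (1 + u ^ 2))) := by
      have h4 : 2 * (R * (2 / Real.pi) * (K * u / (1 + u ^ 2)))
          = 2 * (K * (R * (2 / Real.pi)) * (u / (1 + u ^ 2))) := by ring
      have h5 : K * (R * (2 / Real.pi) * u) = 2 * (K * (R * (2 / Real.pi)) * (u / 2)) := by ring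
      rw [h4, h5]
      gcongr
    exact h2.trans h3
  -- the square mean on a circle
  have hmeas2 : Measurable (fun p : ℝ × ℝ => h (c + (p.1 : ℂ) *
      Complex.exp (((σ * p.2 : ℝ) : ℂ) * I)) ^ 2) := by
    have : Measurable (fun p : ℝ × ℝ => c + (p.1 : ℂ) * Complex.exp (((σ * p.2 : ℝ) : ℂ) * I)) := by
      fun_prop
    exact (hm.comp this).pow_const 2
  set J : ℝ → ℝ≥0∞ := fun r => ∫⁻ θ in Ioo (0:ℝ) Real.pi, h (c + (r : ℂ) *
      Complex.exp (((σ * θ : ℝ) : ℂ) * I)) ^ 2 with hJ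
  have hJm : Measurable J := by
    simp only [hJ]
    exact Measurable.lintegral_prod_right' (f := fun p : ℝ × ℝ => h (c + (p.1 : ℂ) *
      Complex.exp (((σ * p.2 : ℝ) : ℂ) * I)) ^ 2) hmeas2
  have hτm : Measurable τ := by
    have : Continuous τ := continuous_iff_continuousAt.mpr (fun s => (hder s).continuousAt)
    exact this.measurable
  have hτ'm : Measurable τ' := by
    simp only [hτ']
    fun_prop
  -- step 1: pointwise bound
  have hstep1 : ∀ s ∈ Ioo (0:ℝ) 1, (∫⁻ θ in Ioo (0:ℝ) Real.pi,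
        h (c + ((τ s : ℝ) : ℂ) * Complex.exp (((σ * θ : ℝ) : ℂ) * I)) * ENNReal.ofReal (τ s))
      ≤ ENNReal.ofReal (2 * Real.pi / K) ^ (1 / 2 : ℝ) *
        (ENNReal.ofReal |τ' s| * (ENNReal.ofReal (τ s) * J (τ s))) ^ (1 / 2 : ℝ) := by
    intro s hs
    have hmh : Measurable (fun θ : ℝ => h (c + ((τ s : ℝ) : ℂ) *
        Complex.exp (((σ * θ : ℝ) : ℂ) * I))) := by
      have : Measurable (fun θ : ℝ => c + ((τ s : ℝ) : ℂ) *
        Complex.exp (((σ * θ : ℝ) : ℂ) * I)) := by fun_prop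
      exact hm.comp this
    rw [lintegral_mul_const _ hmh]
    have h1 := cs_aux (volume.restrict (Ioo (0:ℝ) Real.pi)) hmh
    rw [Measure.restrict_apply_univ, Real.volume_Ioo, sub_zero] at h1
    have h2 : (∫⁻ θ in Ioo (0:ℝ) Real.pi, h (c + ((τ s : ℝ) : ℂ) *
        Complex.exp (((σ * θ : ℝ) : ℂ) * I)) ^ 2) = J (τ s) := rfl
    rw [h2] at h1
    calc (∫⁻ θ in Ioo (0:ℝ) Real.pi, h (c + ((τ s : ℝ) : ℂ) *
        Complex.exp (((σ * θ : ℝ) : ℂ) * I))) * ENNReal.ofReal (τ s)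
        ≤ (J (τ s) ^ (1 / 2 : ℝ) * ENNReal.ofReal Real.pi ^ (1 / 2 : ℝ)) *
          ENNReal.ofReal (τ s) := by gcongr
      _ = (J (τ s) * ENNReal.ofReal (Real.pi * τ s ^ 2)) ^ (1 / 2 : ℝ) := by
          have h3 : ENNReal.ofReal (τ s) = ENNReal.ofReal (τ s ^ 2) ^ (1 / 2 : ℝ) := by
            rw [ENNReal.ofReal_rpow_of_nonneg (sq_nonneg _) (by norm_num), ← Real.sqrt_eq_rpow,
              Real.sqrt_sq (hτpos s).le]
          rw [ENNReal.mul_rpow_of_nonneg _ _ (by norm_num), ENNReal.ofReal_mul hpi.le,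
            ENNReal.mul_rpow_of_nonneg _ _ (by norm_num), ← h3, mul_assoc]
      _ ≤ (J (τ s) * ENNReal.ofReal (2 * Real.pi / K * (|τ' s| * τ s))) ^ (1 / 2 : ℝ) := by
          have h4 := hlow s hs.1.le
          have h5 : Real.pi * τ s ^ 2 = Real.pi / K * τ s * (K * τ s) := by field_simp
          have h6 : 2 * Real.pi / K * (|τ' s| * τ s) = Real.pi / K * τ s * (2 * |τ' s|) := by ring
          have h7 := hτpos s
          have h8 : ENNReal.ofReal (Real.pi * τ s ^ 2) ≤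
              ENNReal.ofReal (2 * Real.pi / K * (|τ' s| * τ s)) := by
            apply ENNReal.ofReal_le_ofReal
            rw [h5, h6]
            exact mul_le_mul_of_nonneg_left h4 (by positivity)
          exact ENNReal.rpow_le_rpow (mul_le_mul_right h8 _) (by norm_num)
      _ = ENNReal.ofReal (2 * Real.pi / K) ^ (1 / 2 : ℝ) *
        (ENNReal.ofReal |τ' s| * (ENNReal.ofReal (τ s) * J (τ s))) ^ (1 / 2 : ℝ) := by
          rw [← ENNReal.mul_rpow_of_nonneg _ _ (by norm_num), ENNReal.ofReal_mul (by positivity),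
            ENNReal.ofReal_mul (abs_nonneg _)]
          congr 1
          ring
  -- step 2
  have hAm : Measurable (fun s => (ENNReal.ofReal |τ' s| * (ENNReal.ofReal (τ s) * J (τ s)))) := by
    exact (hτ'm.abs.ennreal_ofReal).mul ((hτm.ennreal_ofReal).mul (hJm.comp hτm))
  have hstep2 : ∫⁻ s in Ioo (0:ℝ) 1, (ENNReal.ofReal |τ' s| *
      (ENNReal.ofReal (τ s) * J (τ s))) ^ (1 / 2 : ℝ) ≤
      (∫⁻ s in Ioo (0:ℝ) 1, ENNReal.ofReal |τ' s| * (ENNReal.ofReal (τ s) * J (τ s))) ^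
        (1 / 2 : ℝ) := by
    have h1 := cs_aux (volume.restrict (Ioo (0:ℝ) 1)) (hAm.pow_const (1 / 2 : ℝ))
    rw [Measure.restrict_apply_univ, Real.volume_Ioo, sub_zero, ENNReal.ofReal_one,
      ENNReal.one_rpow, mul_one] at h1
    refine h1.trans (le_of_eq ?_)
    congr 1
    refine lintegral_congr (fun s => ?_)
    rw [← ENNReal.rpow_two, ← ENNReal.rpow_mul]
    norm_num
  -- step 3: change of variables
  have hanti : StrictAnti τ := by
    apply strictAnti_of_deriv_neg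
    intro s
    rw [(hder s).deriv]
    exact hneg s
  have hstep3 : ∫⁻ s in Ioo (0:ℝ) 1, ENNReal.ofReal |τ' s| * (ENNReal.ofReal (τ s) * J (τ s)) ≤
      ∫⁻ r in Ioo (0:ℝ) R, ENNReal.ofReal r * J r := by
    rw [← lintegral_image_eq_lintegral_abs_deriv_mul (s := Ioo (0:ℝ) 1) (f := τ) (f' := τ')
      measurableSet_Ioo (fun s _ => (hder s).hasDerivWithinAt) hanti.injective.injOn
      (fun r => ENNReal.ofReal r * J r)]
    apply lintegral_mono_set
    rintro r ⟨s, _, rfl⟩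
    exact ⟨hτpos s, hτlt s⟩
  -- step 4: polar coordinates
  obtain ⟨S, hS⟩ : ∃ S : Set ℝ, S = (fun θ => σ * θ) '' Ioo (0:ℝ) Real.pi := ⟨_, rfl⟩
  have hSm : MeasurableSet S ∧ ∀ θ ∈ S, θ ∈ Ioo (-Real.pi) Real.pi ∧ 0 < σ * Real.sin θ := by
    rcases hσ with rfl | rfl
    · have : S = Ioo (0:ℝ) Real.pi := by rw [hS]; simp
      rw [this]
      refine ⟨measurableSet_Ioo, fun θ hθ => ⟨⟨by linarith [hθ.1], hθ.2⟩, ?_⟩⟩
      rw [one_mul]
      exact Real.sin_pos_of_pos_of_lt_pi hθ.1 hθ.2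
    · have : S = Ioo (-Real.pi) (0:ℝ) := by
        rw [hS]
        ext θ
        simp only [mem_image, mem_Ioo, neg_mul, one_mul]
        constructor
        · rintro ⟨x, hx, rfl⟩; constructor <;> linarith [hx.1, hx.2]
        · intro hθ; exact ⟨-θ, ⟨by linarith [hθ.2], by linarith [hθ.1]⟩, by ring⟩
      rw [this]
      refine ⟨measurableSet_Ioo, fun θ hθ => ⟨⟨hθ.1, by linarith [hθ.2]⟩, ?_⟩⟩
      have := Real.sin_pos_of_pos_of_lt_pi (x := -θ) (by linarith [hθ.2]) (by linarith [hθ.1])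
      rw [Real.sin_neg] at this
      linarith
  have hJS : ∀ r, J r = ∫⁻ θ in S, h (c + (r : ℂ) * Complex.exp ((θ : ℂ) * I)) ^ 2 := by
    intro r
    have hinj : InjOn (fun θ => σ * θ) (Ioo (0:ℝ) Real.pi) := by
      intro x _ y _ hxy
      have : σ ≠ 0 := by rcases hσ with rfl | rfl <;> norm_num
      exact mul_left_cancel₀ this hxy
    have h1 := lintegral_image_eq_lintegral_abs_deriv_mul (s := Ioo (0:ℝ) Real.pi)
      (f := fun θ => σ * θ) (f' := fun _ => σ) measurableSet_Ioo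
      (fun s _ => by simpa using ((hasDerivAt_id s).const_mul σ).hasDerivWithinAt) hinj
      (fun θ => h (c + (r : ℂ) * Complex.exp ((θ : ℂ) * I)) ^ 2)
    rw [← hS] at h1
    rw [h1]
    have : |σ| = 1 := by rcases hσ with rfl | rfl <;> norm_num
    simp only [this, ENNReal.ofReal_one, one_mul]
    rfl
  set F : ℂ → ℝ≥0∞ := fun z => indicator {z : ℂ | ‖z - c‖ < R ∧ 0 < σ * (z - c).im}
    (fun z => h z ^ 2) z with hF
  have hset : MeasurableSet {z : ℂ | ‖z - c‖ < R ∧ 0 < σ * (z - c).im} := by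
    have hc1 : Continuous (fun z : ℂ => ‖z - c‖) := by fun_prop
    have hc2 : Continuous (fun z : ℂ => σ * (z - c).im) := by fun_prop
    exact (measurableSet_lt hc1.measurable measurable_const).inter
      (measurableSet_lt measurable_const hc2.measurable)
  have hstep4 : ∫⁻ r in Ioo (0:ℝ) R, ENNReal.ofReal r * J r ≤
      ∫⁻ z in {z : ℂ | ‖z - c‖ < R ∧ 0 < σ * (z - c).im}, h z ^ 2 := by
    have h1 : ∫⁻ z in {z : ℂ | ‖z - c‖ < R ∧ 0 < σ * (z - c).im}, h z ^ 2 = ∫⁻ z, F z :=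
      (lintegral_indicator hset _).symm
    have h2 : ∫⁻ z, F z = ∫⁻ z, F (c + z) := (lintegral_add_left_eq_self F c).symm
    rw [h1, h2, ← Complex.lintegral_comp_polarCoord_symm (fun z => F (c + z))]
    have hsub : Ioo (0:ℝ) R ×ˢ S ⊆ polarCoord.target := by
      rintro ⟨r, θ⟩ ⟨hr, hθ⟩
      rw [polarCoord_target]
      exact ⟨hr.1, (hSm.2 θ hθ).1⟩
    have h3 : ∫⁻ r in Ioo (0:ℝ) R, ENNReal.ofReal r * J r =
        ∫⁻ p in Ioo (0:ℝ) R ×ˢ S, ENNReal.ofReal p.1 • F (c + Complex.polarCoord.symm p) := by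
      have h4 : ∫⁻ p in Ioo (0:ℝ) R ×ˢ S, ENNReal.ofReal p.1 • F (c + Complex.polarCoord.symm p) =
          ∫⁻ p in Ioo (0:ℝ) R ×ˢ S, ENNReal.ofReal p.1 *
            h (c + (p.1 : ℂ) * Complex.exp ((p.2 : ℂ) * I)) ^ 2 := by
        apply setLIntegral_congr_fun (measurableSet_Ioo.prod hSm.1)
        rintro ⟨r, θ⟩ ⟨hr, hθ⟩
        have h5 : Complex.polarCoord.symm (r, θ) = (r : ℂ) * Complex.exp ((θ : ℂ) * I) := by
          rw [Complex.polarCoord_symm_apply, Complex.exp_mul_I, ← Complex.ofReal_cos,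
            ← Complex.ofReal_sin]
        simp only [h5, smul_eq_mul, hF]
        have h6 : c + (r : ℂ) * Complex.exp ((θ : ℂ) * I) ∈
            {z : ℂ | ‖z - c‖ < R ∧ 0 < σ * (z - c).im} := by
          have hr1 : 0 < r := hr.1
          have hr2 : r < R := hr.2
          constructor
          · rw [add_sub_cancel_left, norm_mul, Complex.norm_exp_ofReal_mul_I, mul_one,
              Complex.norm_real, Real.norm_eq_abs, abs_of_pos hr1]
            exact hr2
          · rw [add_sub_cancel_left, Complex.im_ofReal_mul, Complex.exp_ofReal_mul_I_im]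
            have := (hSm.2 θ hθ).2
            have h7 : σ * (r * Real.sin θ) = r * (σ * Real.sin θ) := by ring
            rw [h7]
            positivity
        rw [indicator_of_mem h6]
      rw [h4]
      have hmp : Measurable (fun p : ℝ × ℝ => ENNReal.ofReal p.1 *
            h (c + (p.1 : ℂ) * Complex.exp ((p.2 : ℂ) * I)) ^ 2) := by
        have h8 : Measurable (fun p : ℝ × ℝ => c + (p.1 : ℂ) * Complex.exp ((p.2 : ℂ) * I)) := by
          fun_prop
        exact (measurable_fst.ennreal_ofReal).mul ((hm.comp h8).pow_const 2)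
      rw [Measure.volume_eq_prod, ← Measure.prod_restrict, lintegral_prod _ hmp.aemeasurable]
      refine lintegral_congr (fun r => ?_)
      simp only
      rw [hJS, lintegral_const_mul]
      have h8 : Measurable (fun θ : ℝ => c + (r : ℂ) * Complex.exp ((θ : ℂ) * I)) := by
        fun_prop
      exact (hm.comp h8).pow_const 2
    rw [h3]
    exact lintegral_mono_set hsub
  calc ∫⁻ s in Ioo (0:ℝ) 1, ∫⁻ θ in Ioo (0:ℝ) Real.pi,
        h (c + ((τ s : ℝ) : ℂ) * Complex.exp (((σ * θ : ℝ) : ℂ) * I)) * ENNReal.ofReal (τ s)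
      ≤ ∫⁻ s in Ioo (0:ℝ) 1, ENNReal.ofReal (2 * Real.pi / K) ^ (1 / 2 : ℝ) *
        (ENNReal.ofReal |τ' s| * (ENNReal.ofReal (τ s) * J (τ s))) ^ (1 / 2 : ℝ) :=
        setLIntegral_mono' measurableSet_Ioo hstep1
    _ = ENNReal.ofReal (2 * Real.pi / K) ^ (1 / 2 : ℝ) * ∫⁻ s in Ioo (0:ℝ) 1,
        (ENNReal.ofReal |τ' s| * (ENNReal.ofReal (τ s) * J (τ s))) ^ (1 / 2 : ℝ) :=
        lintegral_const_mul _ (hAm.pow_const _)
    _ ≤ ENNReal.ofReal (2 * Real.pi / K) ^ (1 / 2 : ℝ) *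
        (∫⁻ z in {z : ℂ | ‖z - c‖ < R ∧ 0 < σ * (z - c).im}, h z ^ 2) ^ (1 / 2 : ℝ) := by
        gcongr
        exact hstep2.trans (by gcongr; exact hstep3.trans hstep4)
    _ = ENNReal.ofReal (Real.sqrt (2 * Real.pi / K))
        * (∫⁻ z in {z : ℂ | ‖z - c‖ < R ∧ 0 < σ * (z - c).im}, h z ^ 2) ^ (1 / 2 : ℝ) := by
        rw [ENNReal.ofReal_rpow_of_nonneg (by positivity) (by norm_num), ← Real.sqrt_eq_rpow]

end Pool.Agent.Helper647.Sew
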