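import Mathlib

set_option autoImplicit false

open MeasureTheory Set Complex
open scoped ENNReal

namespace Pool.Agent.Helper647.Sew

/-- area bound: an injective holomorphic `F` with values in a ring, `F = exp G` -/
theorem energy_log_deriv (U : Set ℂ) (hU : IsOpen U) (F G : ℂ → ℂ) (ρ : ℝ)
    (hF : DifferentiableOn ℂ F U) (hinj : InjOn F U)
    (hρ : ∀ z ∈ U, 1 < ‖F z‖ ∧ ‖F z‖ < ρ)
    (hG : ∀ z ∈ U, Complex.exp (G z) = F z) (hGd : DifferentiableOn ℂ G U) :
    ∫⁻ z in U, ‖deriv G z‖ₑ ^ 2 ≤ ENNReal.ofReal (Real.pi * ρ ^ 2) := by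
  rcases U.eq_empty_or_nonempty with hE | ⟨z₀, hz₀⟩
  · subst hE
    simp
  have hρ0 : 0 ≤ ρ := by
    have := hρ z₀ hz₀
    linarith [this.1, this.2]
  have hdet : ∀ c : ℂ, (c • (1 : ℂ →L[ℝ] ℂ)).det = Complex.normSq c := by
    intro c
    rw [← Algebra.norm_complex_apply, Algebra.norm_apply]
    show LinearMap.det _ = _
    congr 1
  have h1 := lintegral_abs_det_fderiv_eq_addHaar_image volume (s := U) (f := F)
    (f' := fun z => deriv F z • (1 : ℂ →L[ℝ] ℂ)) hU.measurableSet
    (fun z hz => ((hF.differentiableAt (hU.mem_nhds hz)).hasDerivAt.complexToReal_fderiv).hasFDerivWithinAt)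
    hinj
  calc ∫⁻ z in U, ‖deriv G z‖ₑ ^ 2
      ≤ ∫⁻ z in U, ENNReal.ofReal |(deriv F z • (1 : ℂ →L[ℝ] ℂ)).det| := by
        refine setLIntegral_mono' hU.measurableSet (fun z hz => ?_)
        rw [hdet, abs_of_nonneg (Complex.normSq_nonneg _), Complex.normSq_eq_norm_sq]
        have hd : deriv F z = F z * deriv G z := by
          have he : F =ᶠ[nhds z] fun w => Complex.exp (G w) := by
            filter_upwards [hU.mem_nhds hz] with w hw
            exact (hG w hw).symm
          rw [he.deriv_eq]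
          have hGz := (hGd.differentiableAt (hU.mem_nhds hz)).hasDerivAt
          rw [hGz.cexp.deriv, hG z hz]
        have h2 : ‖deriv G z‖ ≤ ‖deriv F z‖ := by
          rw [hd, norm_mul]
          have := (hρ z hz).1
          nlinarith [norm_nonneg (deriv G z)]
        rw [← ofReal_norm, ← ENNReal.ofReal_pow (norm_nonneg _)]
        exact ENNReal.ofReal_le_ofReal (pow_le_pow_left₀ (norm_nonneg _) h2 2)
    _ = volume (F '' U) := h1
    _ ≤ volume (Metric.ball (0 : ℂ) ρ) := by
        apply measure_mono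
        rintro _ ⟨z, hz, rfl⟩
        simpa using (hρ z hz).2
    _ = ENNReal.ofReal (Real.pi * ρ ^ 2) := by
        rw [Complex.volume_ball, mul_comm Real.pi, ENNReal.ofReal_mul (by positivity),
          ENNReal.ofReal_pow hρ0]
        congr 1
        rw [← NNReal.coe_real_pi, ENNReal.ofReal_coe_nnreal]

end Pool.Agent.Helper647.Sew
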