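import Mathlib

set_option autoImplicit false

open Set Filter Topology Complex MeasureTheory
open scoped ENNReal

namespace Pool.Agent.Helper647.Sew

/-- increments are bounded by the integral of the derivative -/
theorem incr {f f' : ℝ → ℂ} {a b : ℝ} (hab : a < b) (hc : ContinuousOn f (Icc a b))
    (hd : ∀ t ∈ Ioo a b, HasDerivAt f (f' t) t) (hf'c : ContinuousOn f' (Ioo a b)) :
    ‖f b - f a‖ₑ ≤ ∫⁻ t in Ioo a b, ‖f' t‖ₑ := by
  have key : ∀ u v : ℝ, u ∈ Ioo a b → v ∈ Ioo a b → u ≤ v →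
      ‖f v - f u‖ₑ ≤ ∫⁻ t in Ioo a b, ‖f' t‖ₑ := by
    intro u v hu hv huv
    have hsub : Icc u v ⊆ Ioo a b := fun t ht => ⟨lt_of_lt_of_le hu.1 ht.1, lt_of_le_of_lt ht.2 hv.2⟩
    have h1 : ∫ t in u..v, f' t = f v - f u := by
      apply intervalIntegral.integral_eq_sub_of_hasDerivAt
      · intro t ht
        rw [uIcc_of_le huv] at ht
        exact hd t (hsub ht)
      · apply ContinuousOn.intervalIntegrable
        rw [uIcc_of_le huv]
        exact hf'c.mono hsub
    rw [← h1, intervalIntegral.integral_of_le huv]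
    refine (enorm_integral_le_lintegral_enorm _).trans ?_
    apply lintegral_mono_set
    exact Ioc_subset_Icc_self.trans hsub
  -- pass to the limit
  have hT : Tendsto (fun δ : ℝ => ‖f (b - δ) - f (a + δ)‖ₑ) (𝓝[>] 0) (𝓝 ‖f b - f a‖ₑ) := by
    have h1 : Tendsto (fun δ : ℝ => b - δ) (𝓝[>] 0) (𝓝[Icc a b] b) := by
      rw [tendsto_nhdsWithin_iff]
      constructor
      · have : Tendsto (fun δ : ℝ => b - δ) (𝓝 0) (𝓝 (b - 0)) := (continuous_const.sub continuous_id).tendsto 0
        rw [sub_zero] at this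
        exact this.mono_left nhdsWithin_le_nhds
      · have h0 : ∀ᶠ δ : ℝ in 𝓝[>] 0, δ < b - a :=
          nhdsWithin_le_nhds (gt_mem_nhds (by linarith))
        filter_upwards [h0, self_mem_nhdsWithin] with δ h2 h3
        rw [mem_Ioi] at h3
        constructor <;> linarith
    have h2 : Tendsto (fun δ : ℝ => a + δ) (𝓝[>] 0) (𝓝[Icc a b] a) := by
      rw [tendsto_nhdsWithin_iff]
      constructor
      · have : Tendsto (fun δ : ℝ => a + δ) (𝓝 0) (𝓝 (a + 0)) := (continuous_const.add continuous_id).tendsto 0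
        rw [add_zero] at this
        exact this.mono_left nhdsWithin_le_nhds
      · have h0 : ∀ᶠ δ : ℝ in 𝓝[>] 0, δ < b - a :=
          nhdsWithin_le_nhds (gt_mem_nhds (by linarith))
        filter_upwards [h0, self_mem_nhdsWithin] with δ h2 h3
        rw [mem_Ioi] at h3
        constructor <;> linarith
    have h3 := (hc b ⟨hab.le, le_rfl⟩).tendsto.comp h1
    have h4 := (hc a ⟨le_rfl, hab.le⟩).tendsto.comp h2
    exact (h3.sub h4).enorm
  refine le_of_tendsto hT ?_
  have h0 : ∀ᶠ δ : ℝ in 𝓝[>] 0, δ < (b - a) / 2 :=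
    nhdsWithin_le_nhds (gt_mem_nhds (by linarith))
  filter_upwards [h0, self_mem_nhdsWithin] with δ h2 h3
  rw [mem_Ioi] at h3
  exact key _ _ ⟨by linarith, by linarith⟩ ⟨by linarith, by linarith⟩ (by linarith)

/-- open half strip to the right of `R` -/
def HS (R : ℝ) : Set ℂ := {z | R < z.re ∧ 0 < z.im ∧ z.im < 1}

/-- closed half strip to the right of `R` -/
def HSc (R : ℝ) : Set ℂ := {z | R ≤ z.re ∧ 0 ≤ z.im ∧ z.im ≤ 1}

lemma isOpen_HS (R : ℝ) : IsOpen (HS R) :=
  (isOpen_lt continuous_const continuous_re).inter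
    ((isOpen_lt continuous_const continuous_im).inter (isOpen_lt continuous_im continuous_const))

/-- the density -/
noncomputable def dens (G : ℂ → ℂ) (R : ℝ) : ℂ → ℝ≥0∞ := (HS R).indicator fun z => ‖deriv G z‖ₑ

lemma measurable_dens (G : ℂ → ℂ) (R : ℝ) : Measurable (dens G R) :=
  (measurable_deriv G).enorm.indicator (isOpen_HS R).measurableSet

lemma dens_of_mem {G : ℂ → ℂ} {R : ℝ} {z : ℂ} (hz : z ∈ HS R) : dens G R z = ‖deriv G z‖ₑ := by
  simp [dens, hz]

/-- increments along paths -/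
theorem path_incr {G : ℂ → ℂ} {R : ℝ} (hGc : ContinuousOn G (HSc R))
    (hGd : DifferentiableOn ℂ G (HS R)) {γ γ' : ℝ → ℂ} {a b : ℝ} (hab : a < b)
    (hγ : ∀ t, HasDerivAt γ (γ' t) t) (hγ' : Continuous γ')
    (hin : ∀ t ∈ Ioo a b, γ t ∈ HS R) (ha : γ a ∈ HSc R) (hb : γ b ∈ HSc R) :
    ‖G (γ b) - G (γ a)‖ₑ ≤ ∫⁻ t in Ioo a b, dens G R (γ t) * ‖γ' t‖ₑ := by
  have hγc : Continuous γ := continuous_iff_continuousAt.2 fun t => (hγ t).continuousAt
  have hsub : HS R ⊆ HSc R := fun z hz => ⟨hz.1.le, hz.2.1.le, hz.2.2.le⟩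
  have hin' : ∀ t ∈ Icc a b, γ t ∈ HSc R := by
    intro t ht
    rcases ht.1.eq_or_lt with h1 | h1
    · rw [← h1]; exact ha
    · rcases ht.2.eq_or_lt with h2 | h2
      · rw [h2]; exact hb
      · exact hsub (hin t ⟨h1, h2⟩)
  have h1 := incr (f := fun t => G (γ t)) (f' := fun t => deriv G (γ t) * γ' t) hab
    (hGc.comp hγc.continuousOn hin') (by
      intro t ht
      have hd : HasDerivAt G (deriv G (γ t)) (γ t) :=
        ((hGd _ (hin t ht)).differentiableAt ((isOpen_HS R).mem_nhds (hin t ht))).hasDerivAt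
      exact HasDerivAt.comp (h₂ := G) t hd (hγ t)) (by
      have : ContinuousOn (deriv G) (HS R) := (hGd.deriv (isOpen_HS R)).continuousOn
      exact (this.comp hγc.continuousOn hin).mul hγ'.continuousOn)
  refine h1.trans (le_of_eq ?_)
  apply setLIntegral_congr_fun measurableSet_Ioo
  intro t ht
  simp only
  rw [enorm_mul, dens_of_mem (hin t ht)]

end Pool.Agent.Helper647.Sew
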