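import Mathlib
import Pool.Agent.Helper647.SewPath

set_option autoImplicit false

open Set Filter Topology Complex MeasureTheory
open scoped ENNReal

namespace Pool.Agent.Helper647.Sew

lemma hasDerivAt_arc (c : ℂ) (σ τ : ℝ) (t : ℝ) :
    HasDerivAt (fun θ : ℝ => c + (τ : ℂ) * exp (((σ * θ : ℝ) : ℂ) * I))
      ((τ : ℂ) * (exp (((σ * t : ℝ) : ℂ) * I) * ((σ : ℂ) * I))) t := by
  have h1 : HasDerivAt (fun θ : ℝ => ((σ * θ : ℝ) : ℂ) * I) ((σ : ℂ) * I) t := by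
    have h2 : HasDerivAt (fun θ : ℝ => (σ * θ : ℝ)) σ t := by
      simpa using (hasDerivAt_id t).const_mul σ
    exact h2.ofReal_comp.mul_const I
  exact (h1.cexp.const_mul _).const_add c

lemma arc_enorm (σ τ t : ℝ) (hσ : σ = 1 ∨ σ = -1) (hτ : 0 < τ) :
    ‖((τ : ℂ) * (exp (((σ * t : ℝ) : ℂ) * I) * ((σ : ℂ) * I)))‖ₑ = ENNReal.ofReal τ := by
  rw [← ofReal_norm_eq_enorm]
  congr 1
  rw [norm_mul, norm_mul, norm_exp_ofReal_mul_I, norm_mul, norm_I, norm_real, norm_real,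
    Real.norm_of_nonneg hτ.le]
  rcases hσ with h | h <;> simp [h]

/-- increments along arcs -/
theorem arc_incr {G : ℂ → ℂ} {R : ℝ} (hGc : ContinuousOn G (HSc R))
    (hGd : DifferentiableOn ℂ G (HS R)) (c : ℂ) (σ τ : ℝ) (hσ : σ = 1 ∨ σ = -1) (hτ : 0 < τ)
    (hin : ∀ θ ∈ Ioo (0:ℝ) Real.pi, c + (τ : ℂ) * exp (((σ * θ : ℝ) : ℂ) * I) ∈ HS R)
    (h0 : c + (τ : ℂ) * exp (((σ * 0 : ℝ) : ℂ) * I) ∈ HSc R)
    (hpi : c + (τ : ℂ) * exp (((σ * Real.pi : ℝ) : ℂ) * I) ∈ HSc R)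
    {θ₁ θ₂ : ℝ} (h1 : 0 ≤ θ₁) (h12 : θ₁ < θ₂) (h2 : θ₂ ≤ Real.pi) :
    ‖G (c + (τ : ℂ) * exp (((σ * θ₂ : ℝ) : ℂ) * I)) - G (c + (τ : ℂ) * exp (((σ * θ₁ : ℝ) : ℂ) * I))‖ₑ
      ≤ ∫⁻ θ in Ioo (0:ℝ) Real.pi, dens G R (c + (τ : ℂ) * exp (((σ * θ : ℝ) : ℂ) * I))
          * ENNReal.ofReal τ := by
  have hsub : HS R ⊆ HSc R := fun z hz => ⟨hz.1.le, hz.2.1.le, hz.2.2.le⟩
  have hin' : ∀ θ ∈ Icc (0:ℝ) Real.pi, c + (τ : ℂ) * exp (((σ * θ : ℝ) : ℂ) * I) ∈ HSc R := by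
    intro θ hθ
    rcases hθ.1.eq_or_lt with h3 | h3
    · rw [← h3]; exact h0
    · rcases hθ.2.eq_or_lt with h4 | h4
      · rw [h4]; exact hpi
      · exact hsub (hin θ ⟨h3, h4⟩)
  have := path_incr (γ := fun θ : ℝ => c + (τ : ℂ) * exp (((σ * θ : ℝ) : ℂ) * I))
    (γ' := fun t => (τ : ℂ) * (exp (((σ * t : ℝ) : ℂ) * I) * ((σ : ℂ) * I)))
    hGc hGd h12 (fun t => hasDerivAt_arc c σ τ t) (by fun_prop)
    (fun t ht => hin t ⟨lt_of_le_of_lt h1 ht.1, lt_of_lt_of_le ht.2 h2⟩)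
    (hin' θ₁ ⟨h1, (h12.le).trans h2⟩) (hin' θ₂ ⟨h1.trans h12.le, h2⟩)
  refine this.trans ?_
  simp_rw [arc_enorm σ τ _ hσ hτ]
  apply lintegral_mono_set
  exact Ioo_subset_Ioo h1 h2

/-- increments along radial segments -/
theorem rad_incr {G : ℂ → ℂ} {R : ℝ} (hGc : ContinuousOn G (HSc R))
    (hGd : DifferentiableOn ℂ G (HS R)) (c : ℂ) (φ : ℝ) {r₀ τ ρ : ℝ} (h0 : r₀ ≤ τ) (hτ0 : 0 < τ)
    (hτ : τ < ρ)
    (hin : ∀ r : ℝ, 0 < r → r ≤ ρ → c + (r : ℂ) * exp ((φ : ℂ) * I) ∈ HS R) :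
    ‖G (c + (ρ : ℂ) * exp ((φ : ℂ) * I)) - G (c + (τ : ℂ) * exp ((φ : ℂ) * I))‖ₑ
      ≤ ∫⁻ r in Ioo r₀ ρ, dens G R (c + (r : ℂ) * exp ((φ : ℂ) * I)) := by
  have hsub : HS R ⊆ HSc R := fun z hz => ⟨hz.1.le, hz.2.1.le, hz.2.2.le⟩
  have := path_incr (γ := fun r : ℝ => c + (r : ℂ) * exp ((φ : ℂ) * I))
    (γ' := fun _ => exp ((φ : ℂ) * I))
    hGc hGd hτ (fun t => by
      have h2 : HasDerivAt (fun r : ℝ => (r : ℂ)) 1 t := by
        simpa using (hasDerivAt_id t).ofReal_comp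
      simpa using (h2.mul_const (exp ((φ : ℂ) * I))).const_add c) (by fun_prop)
    (fun t ht => hin t (lt_trans hτ0 ht.1) ht.2.le)
    (hsub (hin τ hτ0 hτ.le)) (hsub (hin ρ (hτ0.trans hτ) le_rfl))
  refine this.trans ?_
  have h1 : ‖exp ((φ : ℂ) * I)‖ₑ = 1 := by
    rw [← ofReal_norm_eq_enorm, norm_exp_ofReal_mul_I]; simp
  simp_rw [h1, mul_one]
  apply lintegral_mono_set
  exact Ioo_subset_Ioo_left h0

/-- increments along vertical segments -/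
theorem vert_incr {G : ℂ → ℂ} {R : ℝ} (hGc : ContinuousOn G (HSc R))
    (hGd : DifferentiableOn ℂ G (HS R)) {z w : ℂ} (hz : z ∈ HS R) (hw : w ∈ HS R)
    (hre : z.re = w.re) :
    ‖G z - G w‖ₑ ≤ ∫⁻ y in Ioo (0:ℝ) 1, dens G R ((w.re : ℂ) + (y : ℂ) * I) := by
  have hsub : HS R ⊆ HSc R := fun z hz => ⟨hz.1.le, hz.2.1.le, hz.2.2.le⟩
  have gen : ∀ y1 y2 : ℝ, 0 < y1 → y1 < y2 → y2 < 1 →
      ‖G ((w.re : ℂ) + (y2 : ℂ) * I) - G ((w.re : ℂ) + (y1 : ℂ) * I)‖ₑ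
        ≤ ∫⁻ y in Ioo (0:ℝ) 1, dens G R ((w.re : ℂ) + (y : ℂ) * I) := by
    intro y1 y2 h1 h2 h3
    have hmem : ∀ y : ℝ, 0 < y → y < 1 → (w.re : ℂ) + (y : ℂ) * I ∈ HS R := by
      intro y hy1 hy2
      refine ⟨?_, ?_, ?_⟩
      · simpa using hw.1
      · simpa using hy1
      · simpa using hy2
    have := path_incr (γ := fun y : ℝ => (w.re : ℂ) + (y : ℂ) * I) (γ' := fun _ => I)
      hGc hGd h2 (fun t => by
        have h4 : HasDerivAt (fun r : ℝ => (r : ℂ)) 1 t := by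
          simpa using (hasDerivAt_id t).ofReal_comp
        simpa using (h4.mul_const I).const_add (w.re : ℂ)) (by fun_prop)
      (fun t ht => hmem t (h1.trans ht.1) (ht.2.trans h3))
      (hsub (hmem y1 h1 (h2.trans h3))) (hsub (hmem y2 (h1.trans h2) h3))
    refine this.trans ?_
    have h5 : ‖I‖ₑ = 1 := by rw [← ofReal_norm_eq_enorm, norm_I]; simp
    simp_rw [h5, mul_one]
    apply lintegral_mono_set
    exact Ioo_subset_Ioo h1.le h3.le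
  have ez : z = (w.re : ℂ) + (z.im : ℂ) * I := by rw [← hre]; exact (re_add_im z).symm
  have ew : w = (w.re : ℂ) + (w.im : ℂ) * I := (re_add_im w).symm
  rcases lt_trichotomy z.im w.im with h1 | h1 | h1
  · have := gen z.im w.im hz.2.1 h1 hw.2.2
    rw [← ez, ← ew] at this
    rw [← enorm_neg, neg_sub]
    exact this
  · have : z = w := Complex.ext hre h1
    rw [this]; simp
  · have := gen w.im z.im hw.2.1 h1 hz.2.2
    rw [← ez, ← ew] at this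
    exact this

end Pool.Agent.Helper647.Sew
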