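import Mathlib
import Pool.Agent.Helper647.SewInc

set_option autoImplicit false

open Set Filter Topology Complex MeasureTheory
open scoped ENNReal

namespace Pool.Agent.Helper647.Sew

/-- radius of the level arcs, for half discs of radius `ρ` -/
noncomputable def rad (ρ K s : ℝ) : ℝ := ρ * (2 / Real.pi) * Real.arctan (Real.exp (-(K * s)))

lemma rad_pos {ρ K s : ℝ} (hρ : 0 < ρ) : 0 < rad ρ K s := by
  have := Real.pi_pos
  have h1 : 0 < Real.arctan (Real.exp (-(K * s))) := Real.arctan_pos.2 (Real.exp_pos _)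
  unfold rad; positivity

lemma rad_le {ρ K s : ℝ} (hρ : 0 < ρ) (hK : 0 ≤ K) (hs : 0 ≤ s) : rad ρ K s ≤ ρ / 2 := by
  have hpi := Real.pi_pos
  have h1 : Real.arctan (Real.exp (-(K * s))) ≤ Real.pi / 4 := by
    rw [← Real.arctan_one]
    apply Real.arctan_strictMono.monotone
    rw [Real.exp_le_one_iff]
    nlinarith [mul_nonneg hK hs]
  unfold rad
  calc ρ * (2 / Real.pi) * Real.arctan (Real.exp (-(K * s)))
      ≤ ρ * (2 / Real.pi) * (Real.pi / 4) := by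
        apply mul_le_mul_of_nonneg_left h1; positivity
    _ = ρ / 2 := by field_simp; ring

lemma rad_anti {ρ K s s' : ℝ} (hρ : 0 < ρ) (hK : 0 ≤ K) (hs : s ≤ s') : rad ρ K s' ≤ rad ρ K s := by
  have hpi := Real.pi_pos
  unfold rad
  apply mul_le_mul_of_nonneg_left _ (by positivity)
  apply Real.arctan_strictMono.monotone
  apply Real.exp_le_exp.2
  nlinarith

/-- centre of a bottom half disc -/
noncomputable def cP (M i : ℕ) : ℂ := (((i : ℝ) / M : ℝ) : ℂ)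

/-- centre of a top half disc -/
noncomputable def cQ (M i : ℕ) : ℂ := (((2 * (i : ℝ) + 1) / M : ℝ) : ℂ) + I

/-- length of the bottom arc -/
noncomputable def arcB (G : ℂ → ℂ) (R : ℝ) (M : ℕ) (K : ℝ) (i : ℕ) (s : ℝ) : ℝ≥0∞ :=
  ∫⁻ θ in Ioo (0:ℝ) Real.pi,
    dens G R (cP M i + ((rad (1 / (2 * M)) K s : ℝ) : ℂ) * exp (((1 * θ : ℝ) : ℂ) * I))
      * ENNReal.ofReal (rad (1 / (2 * M)) K s)

/-- length of the top arc -/
noncomputable def arcT (G : ℂ → ℂ) (R : ℝ) (M : ℕ) (K : ℝ) (i : ℕ) (s : ℝ) : ℝ≥0∞ :=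
  ∫⁻ θ in Ioo (0:ℝ) Real.pi,
    dens G R (cQ M i + ((rad (1 / M) K (1 - s) : ℝ) : ℂ) * exp ((((-1) * θ : ℝ) : ℂ) * I))
      * ENNReal.ofReal (rad (1 / M) K (1 - s))

/-- length of a radial segment -/
noncomputable def radL (G : ℂ → ℂ) (R : ℝ) (c : ℂ) (σ ρ K : ℝ) (x : ℝ) : ℝ≥0∞ :=
  ∫⁻ r in Ioo (rad ρ K 1) ρ,
    dens G R (c + (r : ℂ) * exp (((σ * Real.arccos ((x - c.re) / ρ) : ℝ) : ℂ) * I))

/-- length of a vertical segment -/
noncomputable def vertL (G : ℂ → ℂ) (R : ℝ) (x : ℝ) : ℝ≥0∞ :=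
  ∫⁻ y in Ioo (0:ℝ) 1, dens G R ((x : ℂ) + (y : ℂ) * I)

lemma exp_re_im (r φ : ℝ) : ((r : ℂ) * exp ((φ : ℂ) * I)).re = r * Real.cos φ ∧
    ((r : ℂ) * exp ((φ : ℂ) * I)).im = r * Real.sin φ := by
  constructor
  · rw [re_ofReal_mul, exp_ofReal_mul_I_re]
  · rw [im_ofReal_mul, exp_ofReal_mul_I_im]

lemma mem_bot {R : ℝ} {M i : ℕ} (hi : R + 1 ≤ (i : ℝ) / M) {r θ : ℝ} (hr : 0 < r)
    (hr1 : r ≤ 1 / 2) (h0 : 0 < θ) (hpi : θ < Real.pi) :
    cP M i + (r : ℂ) * exp (((1 * θ : ℝ) : ℂ) * I) ∈ HS R := by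
  obtain ⟨e1, e2⟩ := exp_re_im r (1 * θ)
  have hs := Real.sin_pos_of_pos_of_lt_pi h0 hpi
  have hs1 := Real.sin_le_one θ
  have hc1 := Real.neg_one_le_cos θ
  rw [one_mul] at e1 e2
  refine ⟨?_, ?_, ?_⟩
  · rw [add_re, one_mul, e1]; simp only [cP, ofReal_re]; nlinarith
  · rw [add_im, one_mul, e2]; simp only [cP, ofReal_im, zero_add]; positivity
  · rw [add_im, one_mul, e2]; simp only [cP, ofReal_im, zero_add]; nlinarith

lemma mem_bot_closed {R : ℝ} {M i : ℕ} (hi : R + 1 ≤ (i : ℝ) / M) {r : ℝ}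
    (hr1 : |r| ≤ 1 / 2) : cP M i + (r : ℂ) ∈ HSc R := by
  have := abs_le.1 hr1
  refine ⟨?_, ?_, ?_⟩
  · simp only [cP, add_re, ofReal_re]; linarith
  · simp [cP]
  · simp [cP]

lemma mem_top {R : ℝ} {M i : ℕ} (hi : R + 1 ≤ (2 * (i : ℝ) + 1) / M) {r θ : ℝ} (hr : 0 < r)
    (hr1 : r ≤ 1 / 2) (h0 : 0 < θ) (hpi : θ < Real.pi) :
    cQ M i + (r : ℂ) * exp ((((-1) * θ : ℝ) : ℂ) * I) ∈ HS R := by
  obtain ⟨e1, e2⟩ := exp_re_im r ((-1) * θ)
  have hs := Real.sin_pos_of_pos_of_lt_pi h0 hpi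
  have hs1 := Real.sin_le_one θ
  have hc1 := Real.neg_one_le_cos θ
  rw [show (-1) * θ = -θ by ring] at e1 e2 ⊢
  rw [Real.cos_neg] at e1
  rw [Real.sin_neg] at e2
  refine ⟨?_, ?_, ?_⟩
  · rw [add_re, e1]; simp only [cQ, add_re, ofReal_re, I_re]; nlinarith
  · rw [add_im, e2]; simp only [cQ, add_im, ofReal_im, zero_add, I_im]; nlinarith
  · rw [add_im, e2]; simp only [cQ, add_im, ofReal_im, zero_add, I_im]
    nlinarith [mul_pos hr hs]

lemma mem_top_closed {R : ℝ} {M i : ℕ} (hi : R + 1 ≤ (2 * (i : ℝ) + 1) / M) {r : ℝ}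
    (hr1 : |r| ≤ 1 / 2) : cQ M i + (r : ℂ) ∈ HSc R := by
  have := abs_le.1 hr1
  refine ⟨?_, ?_, ?_⟩
  · simp only [cQ, add_re, ofReal_re, I_re]; linarith
  · simp [cQ]
  · simp [cQ]

/-- the hypotheses on the zone -/
structure Zone (G : ℂ → ℂ) (R : ℝ) (d : ℤ) (β : ℝ → ℝ) (A M : ℕ) (K : ℝ) : Prop where
  hR : 0 < R
  hGc : ContinuousOn G (HSc R)
  hGd : DifferentiableOn ℂ G (HS R)
  hd : d ≠ 0
  hglue : ∀ x : ℝ, R ≤ x → R ≤ β x → G ((β x : ℂ) + I) = G x + d * (2 * Real.pi * I)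
  hM : 2 ≤ M
  hA : R + 2 ≤ A
  hK : 0 < K
  hβ1 : ∀ k : ℕ, A * M < k → k ≤ 4 * A * M → ∀ s ∈ Ioo (0:ℝ) 1,
    β ((k : ℝ) / M - rad (1 / (2 * M)) K s) = (2 * (k : ℝ) - 1) / M + rad (1 / M) K (1 - s)
  hβ2 : ∀ k : ℕ, A * M < k → k < 4 * A * M → ∀ s ∈ Ioo (0:ℝ) 1,
    β ((k : ℝ) / M + rad (1 / (2 * M)) K s) = (2 * (k : ℝ) + 1) / M - rad (1 / M) K (1 - s)

section

variable {G : ℂ → ℂ} {R : ℝ} {d : ℤ} {β : ℝ → ℝ} {A M : ℕ} {K : ℝ}

lemma Zone.Mpos (h : Zone G R d β A M K) : (0:ℝ) < M := by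
  have := h.hM
  have : (2:ℝ) ≤ M := by exact_mod_cast this
  linarith

lemma Zone.rb (h : Zone G R d β A M K) : (0:ℝ) < 1 / (2 * M) ∧ (1:ℝ) / (2 * M) ≤ 1 / 2 := by
  have h1 : (2:ℝ) ≤ M := by exact_mod_cast h.hM
  constructor
  · positivity
  · rw [div_le_div_iff₀ (by positivity) (by norm_num)]; linarith

lemma Zone.rt (h : Zone G R d β A M K) : (0:ℝ) < 1 / M ∧ (1:ℝ) / M ≤ 1 / 2 := by
  have h1 : (2:ℝ) ≤ M := by exact_mod_cast h.hM
  constructor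
  · positivity
  · rw [div_le_div_iff₀ (by positivity) (by norm_num)]; linarith

lemma Zone.idx (h : Zone G R d β A M K) {i : ℕ} (hi : A * M ≤ i) :
    R + 1 ≤ (i : ℝ) / M ∧ R + 1 ≤ (2 * (i : ℝ) + 1) / M := by
  have hM := h.Mpos
  have hA := h.hA
  have h1 : (A : ℝ) * M ≤ i := by exact_mod_cast hi
  have h2 : (A : ℝ) ≤ (i : ℝ) / M := by rw [le_div_iff₀ hM]; exact h1
  refine ⟨by linarith, ?_⟩
  have h3 : (i : ℝ) / M ≤ (2 * (i : ℝ) + 1) / M := by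
    apply div_le_div_of_nonneg_right _ hM.le
    have : (0:ℝ) ≤ i := Nat.cast_nonneg _
    linarith
  linarith

/-- the bottom arc -/
lemma Zone.arcB_incr (h : Zone G R d β A M K) {i : ℕ} (hi : A * M ≤ i) {s : ℝ}
    (hs : s ∈ Ioo (0:ℝ) 1) {θ₁ θ₂ : ℝ} (h1 : 0 ≤ θ₁) (h12 : θ₁ < θ₂) (h2 : θ₂ ≤ Real.pi) :
    ‖G (cP M i + ((rad (1 / (2 * M)) K s : ℝ) : ℂ) * exp (((1 * θ₂ : ℝ) : ℂ) * I))
      - G (cP M i + ((rad (1 / (2 * M)) K s : ℝ) : ℂ) * exp (((1 * θ₁ : ℝ) : ℂ) * I))‖ₑ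
      ≤ arcB G R M K i s := by
  have hr0 : 0 < rad (1 / (2 * M)) K s := rad_pos h.rb.1
  have hr1 : rad (1 / (2 * M)) K s ≤ 1 / 2 := by
    have := rad_le (K := K) h.rb.1 h.hK.le hs.1.le
    have := h.rb.2
    linarith
  have habs : |rad (1 / (2 * M)) K s| ≤ 1 / 2 := by rw [abs_of_pos hr0]; exact hr1
  apply arc_incr h.hGc h.hGd _ _ _ (Or.inl rfl) hr0
    (fun θ hθ => mem_bot (h.idx hi).1 hr0 hr1 hθ.1 hθ.2) _ _ h1 h12 h2
  · simpa using mem_bot_closed (h.idx hi).1 habs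
  · have := mem_bot_closed (R := R) (M := M) (i := i) (r := -rad (1 / (2 * M)) K s) (h.idx hi).1
      (by rw [abs_neg]; exact habs)
    simpa [exp_pi_mul_I] using this

lemma Zone.arcT_incr (h : Zone G R d β A M K) {i : ℕ} (hi : A * M ≤ i) {s : ℝ}
    (hs : s ∈ Ioo (0:ℝ) 1) {θ₁ θ₂ : ℝ} (h1 : 0 ≤ θ₁) (h12 : θ₁ < θ₂) (h2 : θ₂ ≤ Real.pi) :
    ‖G (cQ M i + ((rad (1 / M) K (1 - s) : ℝ) : ℂ) * exp ((((-1) * θ₂ : ℝ) : ℂ) * I))
      - G (cQ M i + ((rad (1 / M) K (1 - s) : ℝ) : ℂ) * exp ((((-1) * θ₁ : ℝ) : ℂ) * I))‖ₑ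
      ≤ arcT G R M K i s := by
  have hr0 : 0 < rad (1 / M) K (1 - s) := rad_pos h.rt.1
  have hr1 : rad (1 / M) K (1 - s) ≤ 1 / 2 := by
    have := rad_le (K := K) h.rt.1 h.hK.le (s := 1 - s) (by linarith [hs.2])
    have := h.rt.2
    linarith
  have habs : |rad (1 / M) K (1 - s)| ≤ 1 / 2 := by rw [abs_of_pos hr0]; exact hr1
  apply arc_incr h.hGc h.hGd _ _ _ (Or.inr rfl) hr0
    (fun θ hθ => mem_top (h.idx hi).2 hr0 hr1 hθ.1 hθ.2) _ _ h1 h12 h2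
  · simpa using mem_top_closed (h.idx hi).2 habs
  · have := mem_top_closed (R := R) (M := M) (i := i) (r := -rad (1 / M) K (1 - s)) (h.idx hi).2
      (by rw [abs_neg]; exact habs)
    have h3 : exp ((((-1) * Real.pi : ℝ) : ℂ) * I) = -1 := by
      push_cast
      rw [neg_one_mul, neg_mul, exp_neg, exp_pi_mul_I]; norm_num
    rw [h3]
    simpa using this

/-- full bottom arc -/
lemma Zone.fullB (h : Zone G R d β A M K) {i : ℕ} (hi : A * M ≤ i) {s : ℝ}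
    (hs : s ∈ Ioo (0:ℝ) 1) :
    ‖G (((((i : ℝ) / M + rad (1 / (2 * M)) K s : ℝ)) : ℂ))
      - G (((((i : ℝ) / M - rad (1 / (2 * M)) K s : ℝ)) : ℂ))‖ₑ ≤ arcB G R M K i s := by
  have := h.arcB_incr hi hs le_rfl Real.pi_pos le_rfl
  rw [← enorm_neg, neg_sub] at this
  have eA : cP M i + ((rad (1 / (2 * M)) K s : ℝ) : ℂ) * exp (((1 * 0 : ℝ) : ℂ) * I)
      = (((i : ℝ) / M + rad (1 / (2 * M)) K s : ℝ) : ℂ) := by
    simp [cP]
  have eB : cP M i + ((rad (1 / (2 * M)) K s : ℝ) : ℂ) * exp (((1 * Real.pi : ℝ) : ℂ) * I)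
      = (((i : ℝ) / M - rad (1 / (2 * M)) K s : ℝ) : ℂ) := by
    simp [cP, exp_pi_mul_I, sub_eq_add_neg]
  rw [eA, eB] at this
  exact this

lemma Zone.fullT (h : Zone G R d β A M K) {i : ℕ} (hi : A * M ≤ i) {s : ℝ}
    (hs : s ∈ Ioo (0:ℝ) 1) :
    ‖G (((((2 * (i : ℝ) + 1) / M + rad (1 / M) K (1 - s) : ℝ)) : ℂ) + I)
      - G (((((2 * (i : ℝ) + 1) / M - rad (1 / M) K (1 - s) : ℝ)) : ℂ) + I)‖ₑ
      ≤ arcT G R M K i s := by
  have := h.arcT_incr hi hs le_rfl Real.pi_pos le_rfl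
  rw [← enorm_neg, neg_sub] at this
  have h3 : exp ((((-1) * Real.pi : ℝ) : ℂ) * I) = -1 := by
    push_cast
    rw [neg_one_mul, neg_mul, exp_neg, exp_pi_mul_I]; norm_num
  rw [h3] at this
  have eA : cQ M i + ((rad (1 / M) K (1 - s) : ℝ) : ℂ) * exp ((((-1) * 0 : ℝ) : ℂ) * I)
      = (((2 * (i : ℝ) + 1) / M + rad (1 / M) K (1 - s) : ℝ) : ℂ) + I := by
    simp only [cQ, mul_zero, ofReal_zero, zero_mul, exp_zero, mul_one]
    push_cast
    ring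
  have eB : cQ M i + ((rad (1 / M) K (1 - s) : ℝ) : ℂ) * (-1)
      = (((2 * (i : ℝ) + 1) / M - rad (1 / M) K (1 - s) : ℝ) : ℂ) + I := by
    simp only [cQ]
    push_cast
    ring
  rw [eA, eB] at this
  exact this

/-- gluing on the left of a bottom centre -/
lemma Zone.glueL (h : Zone G R d β A M K) {k : ℕ} (h1 : A * M < k) (h2 : k ≤ 4 * A * M) {s : ℝ}
    (hs : s ∈ Ioo (0:ℝ) 1) :
    G ((((2 * (k : ℝ) - 1) / M + rad (1 / M) K (1 - s) : ℝ) : ℂ) + I)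
      = G (((k : ℝ) / M - rad (1 / (2 * M)) K s : ℝ) : ℂ) + d * (2 * Real.pi * I) := by
  have e := h.hβ1 k h1 h2 s hs
  have hr1 : rad (1 / (2 * M)) K s ≤ 1 / 2 := by
    have := rad_le (K := K) h.rb.1 h.hK.le hs.1.le
    have := h.rb.2
    linarith
  have hM := h.Mpos
  have hx := (h.idx h1.le).1
  have hr3 : 0 < rad (1 / M) K (1 - s) := rad_pos h.rt.1
  have hky : R ≤ (2 * (k : ℝ) - 1) / M := by
    have h5 : (k : ℝ) / M ≤ (2 * (k : ℝ) - 1) / M := by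
      apply div_le_div_of_nonneg_right _ hM.le
      have : (1:ℝ) ≤ k := by
        have : 1 ≤ k := by omega
        exact_mod_cast this
      linarith
    linarith
  have := h.hglue ((k : ℝ) / M - rad (1 / (2 * M)) K s) (by linarith) (by rw [e]; linarith)
  rw [e] at this
  exact this

lemma Zone.glueR (h : Zone G R d β A M K) {k : ℕ} (h1 : A * M < k) (h2 : k < 4 * A * M) {s : ℝ}
    (hs : s ∈ Ioo (0:ℝ) 1) :
    G ((((2 * (k : ℝ) + 1) / M - rad (1 / M) K (1 - s) : ℝ) : ℂ) + I)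
      = G (((k : ℝ) / M + rad (1 / (2 * M)) K s : ℝ) : ℂ) + d * (2 * Real.pi * I) := by
  have e := h.hβ2 k h1 h2 s hs
  have hr1 : 0 < rad (1 / (2 * M)) K s := rad_pos h.rb.1
  have hr3 : rad (1 / M) K (1 - s) ≤ 1 / 2 := by
    have := rad_le (K := K) h.rt.1 h.hK.le (s := 1 - s) (by linarith [hs.2])
    have := h.rt.2
    linarith
  have hx := h.idx h1.le
  have := h.hglue ((k : ℝ) / M + rad (1 / (2 * M)) K s) (by linarith [hx.1])
    (by rw [e]; linarith [hx.2])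
  rw [e] at this
  exact this

/-- the chain of arcs -/
lemma Zone.chain (h : Zone G R d β A M K) {s : ℝ} (hs : s ∈ Ioo (0:ℝ) 1) {m : ℕ}
    (hm : A * M < m) (k : ℕ) (hmk : m ≤ k) (hk : k ≤ 4 * A * M) :
    ‖G (((k : ℝ) / M - rad (1 / (2 * M)) K s : ℝ) : ℂ)
      - G (((m : ℝ) / M - rad (1 / (2 * M)) K s : ℝ) : ℂ)‖ₑ
      ≤ ∑ i ∈ Finset.Ico m k, (arcB G R M K i s + arcT G R M K i s) := by
  induction k, hmk using Nat.le_induction with
  | base => simp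
  | succ k hmk ih =>
    have ih' := ih (by omega)
    rw [Finset.sum_Ico_succ_top hmk]
    have hAk : A * M ≤ k := by omega
    have b1 := h.fullB hAk hs
    have b2 := h.fullT hAk hs
    have g1 := h.glueR (k := k) (by omega) (by omega) hs
    have g2 := h.glueL (k := k + 1) (by omega) hk hs
    have e3 : (2 * (((k + 1 : ℕ) : ℝ)) - 1) = 2 * (k : ℝ) + 1 := by push_cast; ring
    rw [e3] at g2
    have key : G (((((k + 1 : ℕ) : ℝ)) / M - rad (1 / (2 * M)) K s : ℝ) : ℂ)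
        - G (((m : ℝ) / M - rad (1 / (2 * M)) K s : ℝ) : ℂ)
        = (G (((k : ℝ) / M - rad (1 / (2 * M)) K s : ℝ) : ℂ)
            - G (((m : ℝ) / M - rad (1 / (2 * M)) K s : ℝ) : ℂ))
          + ((G (((((k : ℝ) / M + rad (1 / (2 * M)) K s : ℝ)) : ℂ))
            - G (((((k : ℝ) / M - rad (1 / (2 * M)) K s : ℝ)) : ℂ)))
          + (G (((((2 * (k : ℝ) + 1) / M + rad (1 / M) K (1 - s) : ℝ)) : ℂ) + I)
            - G (((((2 * (k : ℝ) + 1) / M - rad (1 / M) K (1 - s) : ℝ)) : ℂ) + I))) := by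
      rw [g1, g2]; ring
    rw [key]
    refine (enorm_add_le _ _).trans ?_
    refine add_le_add ih' ?_
    exact (enorm_add_le _ _).trans (add_le_add b1 b2)

/-- the basic length inequality -/
theorem Zone.length (h : Zone G R d β A M K) {x : ℝ} (hx : x ∈ Ioo (2 * (A:ℝ)) (4 * A))
    (hgen : ∀ n : ℤ, 2 * (M : ℝ) * x ≠ n) {s : ℝ} (hs : s ∈ Ioo (0:ℝ) 1) :
    ∃ j k : ℕ, A * M ≤ j ∧ j < k ∧ k ≤ 4 * A * M ∧ |x - (cP M k).re| < 1 / (2 * M) ∧
      |x - (cQ M j).re| < 1 / M ∧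
      ENNReal.ofReal (2 * Real.pi) ≤ vertL G R x + radL G R (cP M k) 1 (1 / (2 * M)) K x
        + radL G R (cQ M j) (-1) (1 / M) K x
        + ∑ i ∈ Finset.Icc j k, (arcB G R M K i s + arcT G R M K i s) := by
  have hM := h.Mpos
  have hM2 : (2:ℝ) ≤ M := by exact_mod_cast h.hM
  have hpi := Real.pi_pos
  have hApos : (2:ℝ) < A := by linarith [h.hR, h.hA]
  have hxpos : 0 < x := by linarith [hx.1]
  set j := ⌊(M : ℝ) * x / 2⌋₊ with hj
  set k := ⌊(M : ℝ) * x + 1 / 2⌋₊ with hk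
  have hj1 : (j : ℝ) ≤ (M : ℝ) * x / 2 := Nat.floor_le (by positivity)
  have hj2 : (M : ℝ) * x / 2 < j + 1 := Nat.lt_floor_add_one _
  have hk1 : (k : ℝ) ≤ (M : ℝ) * x + 1 / 2 := Nat.floor_le (by positivity)
  have hk2 : (M : ℝ) * x + 1 / 2 < k + 1 := Nat.lt_floor_add_one _
  have hj1' : (j : ℝ) < (M : ℝ) * x / 2 := by
    apply lt_of_le_of_ne hj1
    intro hcon
    apply hgen (4 * j)
    push_cast
    linarith
  have hk1' : (k : ℝ) < (M : ℝ) * x + 1 / 2 := by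
    apply lt_of_le_of_ne hk1
    intro hcon
    apply hgen (2 * k - 1)
    push_cast
    linarith
  have hjA : A * M ≤ j := by
    apply Nat.le_floor
    push_cast
    nlinarith [hx.1]
  have hkA : k ≤ 4 * A * M := by
    have h1 : (k : ℝ) < 4 * A * M + 1 / 2 + 1 / 2 := by nlinarith [hx.2]
    have h2 : (k : ℝ) < ((4 * A * M + 1 : ℕ) : ℝ) := by push_cast; linarith
    have h3 : k < 4 * A * M + 1 := by exact_mod_cast h2
    omega
  have hjk : j < k := by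
    have h1 : (j : ℝ) < k := by
      have : (4:ℝ) < M * x := by nlinarith [hx.1]
      linarith
    exact_mod_cast h1
  have hxk : |x - (cP M k).re| < 1 / (2 * M) := by
    simp only [cP, ofReal_re]
    have h1 : x - (k : ℝ) / M = (M * x - k) / M := by field_simp
    rw [h1, abs_div, abs_of_pos hM, div_lt_div_iff₀ hM (by positivity)]
    have : |M * x - (k:ℝ)| < 1 / 2 := by rw [abs_lt]; constructor <;> linarith
    nlinarith
  have hxj : |x - (cQ M j).re| < 1 / M := by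
    simp only [cQ, add_re, ofReal_re, I_re, add_zero]
    have h1 : x - (2 * (j : ℝ) + 1) / M = (M * x - (2 * j + 1)) / M := by field_simp
    rw [h1, abs_div, abs_of_pos hM, div_lt_div_iff_of_pos_right hM]
    rw [abs_lt]; constructor <;> linarith
  refine ⟨j, k, hjA, hjk, hkA, hxk, hxj, ?_⟩
  -- angles
  set θ := Real.arccos ((x - (cP M k).re) / (1 / (2 * M))) with hθ
  set θ' := Real.arccos ((x - (cQ M j).re) / (1 / M)) with hθ'
  have hq1 : |(x - (cP M k).re) / (1 / (2 * M))| < 1 := by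
    rw [abs_div, abs_of_pos h.rb.1, div_lt_one h.rb.1]; exact hxk
  have hq2 : |(x - (cQ M j).re) / (1 / M)| < 1 := by
    rw [abs_div, abs_of_pos h.rt.1, div_lt_one h.rt.1]; exact hxj
  have hθ0 : 0 < θ := Real.arccos_pos.2 (abs_lt.1 hq1).2
  have hθpi : θ < Real.pi := by
    apply lt_of_le_of_ne (Real.arccos_le_pi _)
    intro hcon
    have := Real.arccos_eq_pi.1 hcon
    linarith [(abs_lt.1 hq1).1]
  have hθ'0 : 0 < θ' := Real.arccos_pos.2 (abs_lt.1 hq2).2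
  have hθ'pi : θ' < Real.pi := by
    apply lt_of_le_of_ne (Real.arccos_le_pi _)
    intro hcon
    have := Real.arccos_eq_pi.1 hcon
    linarith [(abs_lt.1 hq2).1]
  have hcos : Real.cos θ = (x - (cP M k).re) / (1 / (2 * M)) :=
    Real.cos_arccos (abs_lt.1 hq1).1.le (abs_lt.1 hq1).2.le
  have hcos' : Real.cos θ' = (x - (cQ M j).re) / (1 / M) :=
    Real.cos_arccos (abs_lt.1 hq2).1.le (abs_lt.1 hq2).2.le
  -- points
  set rb := rad (1 / (2 * M)) K s with hrb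
  set rt := rad (1 / M) K (1 - s) with hrt
  have hrb0 : 0 < rb := rad_pos h.rb.1
  have hrt0 : 0 < rt := rad_pos h.rt.1
  have hrbl : rb ≤ 1 / (2 * M) / 2 := rad_le h.rb.1 h.hK.le hs.1.le
  have hrtl : rt ≤ 1 / M / 2 := rad_le h.rt.1 h.hK.le (by linarith [hs.2])
  have hAk : A * M ≤ k := by omega
  set zb : ℂ := cP M k + ((1 / (2 * M) : ℝ) : ℂ) * exp (((1 * θ : ℝ) : ℂ) * I) with hzb
  set zt : ℂ := cQ M j + ((1 / M : ℝ) : ℂ) * exp ((((-1) * θ' : ℝ) : ℂ) * I) with hzt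
  have hzbm : zb ∈ HS R := mem_bot (h.idx hAk).1 h.rb.1 h.rb.2 hθ0 hθpi
  have hztm : zt ∈ HS R := mem_top (h.idx hjA).2 h.rt.1 h.rt.2 hθ'0 hθ'pi
  have hzbre : zb.re = x := by
    rw [hzb, add_re, (exp_re_im _ _).1, one_mul, hcos]
    field_simp
    ring
  have hztre : zt.re = x := by
    rw [hzt, add_re, (exp_re_im _ _).1, show (-1) * θ' = -θ' by ring, Real.cos_neg, hcos']
    field_simp
    ring
  -- the pieces
  have p1 : ‖G zt - G zb‖ₑ ≤ vertL G R x := by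
    have := vert_incr h.hGc h.hGd hztm hzbm (by rw [hzbre, hztre])
    rw [hzbre] at this
    exact this
  have p2 : ‖G zb - G (cP M k + (rb : ℂ) * exp (((1 * θ : ℝ) : ℂ) * I))‖ₑ
      ≤ radL G R (cP M k) 1 (1 / (2 * M)) K x := by
    apply rad_incr h.hGc h.hGd (cP M k) (1 * θ) (rad_anti h.rb.1 h.hK.le hs.2.le) hrb0
      (by linarith [h.rb.1])
    intro r hr0 hr1
    exact mem_bot (h.idx hAk).1 hr0 (hr1.trans h.rb.2) hθ0 hθpi
  have p3 : ‖G zt - G (cQ M j + (rt : ℂ) * exp ((((-1) * θ' : ℝ) : ℂ) * I))‖ₑ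
      ≤ radL G R (cQ M j) (-1) (1 / M) K x := by
    apply rad_incr h.hGc h.hGd (cQ M j) ((-1) * θ') (rad_anti h.rt.1 h.hK.le (by linarith [hs.1]))
      hrt0 (by linarith [h.rt.1])
    intro r hr0 hr1
    exact mem_top (h.idx hjA).2 hr0 (hr1.trans h.rt.2) hθ'0 hθ'pi
  have p4 : ‖G (((k : ℝ) / M - rb : ℝ) : ℂ)
      - G (cP M k + (rb : ℂ) * exp (((1 * θ : ℝ) : ℂ) * I))‖ₑ ≤ arcB G R M K k s := by
    have := h.arcB_incr hAk hs hθ0.le hθpi le_rfl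
    convert this using 3
    congr 1
    simp [cP, exp_pi_mul_I, sub_eq_add_neg, hrb]
  have p5 : ‖G (cQ M j + (rt : ℂ) * exp ((((-1) * θ' : ℝ) : ℂ) * I))
      - G ((((2 * (j : ℝ) + 1) / M + rt : ℝ) : ℂ) + I)‖ₑ ≤ arcT G R M K j s := by
    have := h.arcT_incr hjA hs le_rfl hθ'0 hθ'pi.le
    convert this using 3
    congr 1
    simp [cQ, hrt]
    ring
  have p6 := h.chain hs (m := j + 1) (by omega) k hjk hkA
  have g := h.glueL (k := j + 1) (by omega) (by omega) hs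
  have e3 : (2 * (((j + 1 : ℕ) : ℝ)) - 1) = 2 * (j : ℝ) + 1 := by push_cast; ring
  rw [e3] at g
  have key : (d : ℂ) * (2 * Real.pi * I)
      = (G zt - G zb) + ((G zb - G (cP M k + (rb : ℂ) * exp (((1 * θ : ℝ) : ℂ) * I)))
        - (G zt - G (cQ M j + (rt : ℂ) * exp ((((-1) * θ' : ℝ) : ℂ) * I))))
        - (G (((k : ℝ) / M - rb : ℝ) : ℂ)
            - G (cP M k + (rb : ℂ) * exp (((1 * θ : ℝ) : ℂ) * I)))
        - (G (cQ M j + (rt : ℂ) * exp ((((-1) * θ' : ℝ) : ℂ) * I))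
            - G ((((2 * (j : ℝ) + 1) / M + rt : ℝ) : ℂ) + I))
        + (G (((k : ℝ) / M - rb : ℝ) : ℂ)
            - G (((((j + 1 : ℕ) : ℝ)) / M - rb : ℝ) : ℂ)) := by
    have g' : (d : ℂ) * (2 * Real.pi * I) = G ((((2 * (j : ℝ) + 1) / M + rt : ℝ) : ℂ) + I)
        - G (((((j + 1 : ℕ) : ℝ)) / M - rb : ℝ) : ℂ) := by
      rw [g]; ring
    rw [g']
    ring
  have hd1 : ENNReal.ofReal (2 * Real.pi) ≤ ‖(d : ℂ) * (2 * Real.pi * I)‖ₑ := by
    rw [← ofReal_norm]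
    apply ENNReal.ofReal_le_ofReal
    have h1 : (1:ℝ) ≤ ‖(d : ℂ)‖ := by
      rw [norm_intCast]
      exact_mod_cast Int.one_le_abs h.hd
    rw [norm_mul, norm_mul, norm_mul, norm_I, norm_real, Real.norm_of_nonneg hpi.le]
    simp only [norm_ofNat, mul_one]
    nlinarith
  refine hd1.trans ?_
  rw [key]
  have hsum : ∑ i ∈ Finset.Icc j k, (arcB G R M K i s + arcT G R M K i s)
      = (arcB G R M K j s + arcT G R M K j s)
        + ∑ i ∈ Finset.Ico (j + 1) k, (arcB G R M K i s + arcT G R M K i s)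
        + (arcB G R M K k s + arcT G R M K k s) := by
    rw [← Finset.Ico_succ_right_eq_Icc, Order.succ_eq_add_one, Finset.sum_Ico_succ_top (by omega),
      Finset.sum_eq_sum_Ico_succ_bot hjk]
  rw [hsum]
  calc ‖(G zt - G zb) + ((G zb - G (cP M k + (rb : ℂ) * exp (((1 * θ : ℝ) : ℂ) * I)))
        - (G zt - G (cQ M j + (rt : ℂ) * exp ((((-1) * θ' : ℝ) : ℂ) * I))))
        - (G (((k : ℝ) / M - rb : ℝ) : ℂ)
            - G (cP M k + (rb : ℂ) * exp (((1 * θ : ℝ) : ℂ) * I)))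
        - (G (cQ M j + (rt : ℂ) * exp ((((-1) * θ' : ℝ) : ℂ) * I))
            - G ((((2 * (j : ℝ) + 1) / M + rt : ℝ) : ℂ) + I))
        + (G (((k : ℝ) / M - rb : ℝ) : ℂ)
            - G (((((j + 1 : ℕ) : ℝ)) / M - rb : ℝ) : ℂ))‖ₑ
      ≤ ((((vertL G R x + (radL G R (cP M k) 1 (1 / (2 * M)) K x
          + radL G R (cQ M j) (-1) (1 / M) K x)) + arcB G R M K k s) + arcT G R M K j s)
          + ∑ i ∈ Finset.Ico (j + 1) k, (arcB G R M K i s + arcT G R M K i s)) := by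
        refine (enorm_add_le _ _).trans (add_le_add ?_ p6)
        refine (enorm_sub_le).trans (add_le_add ?_ p5)
        refine (enorm_sub_le).trans (add_le_add ?_ p4)
        refine (enorm_add_le _ _).trans (add_le_add p1 ?_)
        exact (enorm_sub_le).trans (add_le_add p2 p3)
    _ ≤ _ := by
        have e4 : ∀ a b c e f g h i : ℝ≥0∞, ((((a + (b + c)) + e) + f) + g)
            ≤ a + b + c + ((h + f) + g + (e + i)) := by
          intro a b c e f g h i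
          calc ((((a + (b + c)) + e) + f) + g) = a + b + c + (f + g + e) := by ring
            _ ≤ a + b + c + ((h + f) + g + (e + i)) := by
                gcongr
                · exact le_add_self
                · exact le_self_add
        exact e4 _ _ _ _ _ _ _ _

end

end Pool.Agent.Helper647.Sew
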