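import Mathlib
import Pool.Agent.Helper647.SewMan
import Pool.Agent.Helper647.SewZone

set_option autoImplicit false

open Set Filter Topology Complex
open scoped ComplexConjugate

namespace Pool.Agent.Helper647.Sew

/-- the oscillating sewing on a zone -/
noncomputable def BB (M : ℕ) (a x : ℝ) : ℝ :=
  2 * x - 2 / (Real.pi * M) * arg (1 - (a : ℂ) * exp (2 * Real.pi * M * x * I))

/-- its holomorphic extension -/
noncomputable def fB (M : ℕ) (a : ℝ) (z : ℂ) : ℂ :=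
  2 * z + (log (1 - (a : ℂ) * exp (-(2 * Real.pi * M * z * I)))
    - log (1 - (a : ℂ) * exp (2 * Real.pi * M * z * I))) / (Real.pi * M * I)

section

variable {M : ℕ} {a : ℝ}

lemma wre_pos (ha0 : 0 ≤ a) (ha1 : a < 1) (t : ℝ) : 0 < (1 - (a : ℂ) * exp ((t : ℂ) * I)).re := by
  rw [sub_re, one_re, (exp_re_im a t).1]
  have := Real.cos_le_one t
  nlinarith

lemma fB_real (hM : 1 ≤ M) (ha0 : 0 ≤ a) (ha1 : a < 1) (x : ℝ) :
    fB M a (x : ℂ) = ((BB M a x : ℝ) : ℂ) := by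
  have hMR : (M : ℂ) ≠ 0 := by exact_mod_cast (by omega : M ≠ 0)
  have hpi : (Real.pi : ℂ) ≠ 0 := by exact_mod_cast Real.pi_ne_zero
  set w : ℂ := 1 - (a : ℂ) * exp (2 * Real.pi * M * x * I) with hw
  have e1 : (2 * Real.pi * M * x * I : ℂ) = ((2 * Real.pi * M * x : ℝ) : ℂ) * I := by
    push_cast; ring
  have e2 : 1 - (a : ℂ) * exp (-(2 * Real.pi * M * x * I)) = conj w := by
    rw [hw, map_sub, map_one, map_mul, conj_ofReal, ← exp_conj, e1, map_mul, conj_ofReal, conj_I]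
    ring_nf
  have hre : 0 < w.re := by rw [hw, e1]; exact wre_pos ha0 ha1 _
  have harg : w.arg ≠ Real.pi := by
    intro h
    rw [arg_eq_pi_iff] at h
    linarith [h.1]
  unfold fB BB
  rw [e2, ← hw, log_conj _ harg]
  have e3 : conj (log w) - log w = -(2 * (arg w : ℂ) * I) := by
    apply Complex.ext
    · simp
    · simp [log_im]; ring
  rw [e3]
  push_cast
  field_simp
  ring

lemma fB_hasDeriv (hM : 1 ≤ M) (ha0 : 0 ≤ a) (ha1 : a < 1) (x : ℝ) :
    AnalyticAt ℂ (fB M a) (x : ℂ) ∧ deriv (fB M a) (x : ℂ) =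
      ((2 * (1 - a ^ 2) / normSq (1 - (a : ℂ) * exp (2 * Real.pi * M * x * I)) : ℝ) : ℂ) := by
  have hMR : (M : ℂ) ≠ 0 := by exact_mod_cast (by omega : M ≠ 0)
  have hpi : (Real.pi : ℂ) ≠ 0 := by exact_mod_cast Real.pi_ne_zero
  set w : ℂ := 1 - (a : ℂ) * exp (2 * Real.pi * M * x * I) with hw
  set w' : ℂ := 1 - (a : ℂ) * exp (-(2 * Real.pi * M * x * I)) with hw'
  have e1 : (2 * Real.pi * M * x * I : ℂ) = ((2 * Real.pi * M * x : ℝ) : ℂ) * I := by
    push_cast; ring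
  have e1' : (-(2 * Real.pi * M * x * I) : ℂ) = ((-(2 * Real.pi * M * x) : ℝ) : ℂ) * I := by
    push_cast; ring
  have hre : 0 < w.re := by rw [hw, e1]; exact wre_pos ha0 ha1 _
  have hre' : 0 < w'.re := by rw [hw', e1']; exact wre_pos ha0 ha1 _
  have hs : w ∈ slitPlane := by rw [mem_slitPlane_iff]; exact Or.inl hre
  have hs' : w' ∈ slitPlane := by rw [mem_slitPlane_iff]; exact Or.inl hre'
  have hw0 : w ≠ 0 := slitPlane_ne_zero hs
  have hw0' : w' ≠ 0 := slitPlane_ne_zero hs'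
  constructor
  · unfold fB
    have g1 : AnalyticAt ℂ (fun z : ℂ => 1 - (a : ℂ) * exp (-(2 * Real.pi * M * z * I))) (x : ℂ) := by
      fun_prop
    have g2 : AnalyticAt ℂ (fun z : ℂ => 1 - (a : ℂ) * exp (2 * Real.pi * M * z * I)) (x : ℂ) := by
      fun_prop
    have h1 := g1.clog hs'
    have h2 := g2.clog hs
    exact (analyticAt_const.mul analyticAt_id).add ((h1.sub h2).div_const)
  · have d1 : HasDerivAt (fun z : ℂ => 1 - (a : ℂ) * exp (2 * Real.pi * M * z * I))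
        (-((a : ℂ) * (exp (2 * Real.pi * M * x * I) * (2 * Real.pi * M * I)))) (x : ℂ) := by
      have h3 : HasDerivAt (fun z : ℂ => 2 * (Real.pi : ℂ) * M * z * I) (2 * Real.pi * M * I) (x : ℂ) := by
        have := ((hasDerivAt_id (x : ℂ)).const_mul (2 * (Real.pi : ℂ) * M)).mul_const I
        simpa using this
      exact (h3.cexp.const_mul _).const_sub 1
    have d1' : HasDerivAt (fun z : ℂ => 1 - (a : ℂ) * exp (-(2 * Real.pi * M * z * I)))
        (-((a : ℂ) * (exp (-(2 * Real.pi * M * x * I)) * (-(2 * Real.pi * M * I))))) (x : ℂ) := by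
      have h4 : HasDerivAt (fun z : ℂ => 2 * (Real.pi : ℂ) * M * z * I) (2 * Real.pi * M * I) (x : ℂ) := by
        have := ((hasDerivAt_id (x : ℂ)).const_mul (2 * (Real.pi : ℂ) * M)).mul_const I
        simpa using this
      have h3 : HasDerivAt (fun z : ℂ => -(2 * (Real.pi : ℂ) * M * z * I)) (-(2 * Real.pi * M * I)) (x : ℂ) :=
        h4.neg
      exact (h3.cexp.const_mul _).const_sub 1
    have d2 := d1.clog hs
    have d2' := d1'.clog hs'
    have d3 : HasDerivAt (fB M a) (2 + (-((a : ℂ) * (exp (-(2 * Real.pi * M * x * I)) *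
        (-(2 * Real.pi * M * I)))) / w' - -((a : ℂ) * (exp (2 * Real.pi * M * x * I) *
        (2 * Real.pi * M * I))) / w) / (Real.pi * M * I)) (x : ℂ) := by
      have h5 : HasDerivAt (fun z : ℂ => 2 * z) 2 (x : ℂ) := by
        simpa using (hasDerivAt_id (x : ℂ)).const_mul (2 : ℂ)
      exact h5.add ((d2'.sub d2).div_const _)
    rw [d3.deriv]
    set e := exp (2 * Real.pi * M * x * I) with he
    have hee : exp (-(2 * Real.pi * M * x * I)) = e⁻¹ := exp_neg _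
    have he0 : e ≠ 0 := exp_ne_zero _
    have hconj : conj e = e⁻¹ := by
      rw [he, ← exp_conj, e1, map_mul, conj_ofReal, conj_I, ← exp_neg]
      ring_nf
    have hconjw : conj w = w' := by
      rw [hw, hw', map_sub, map_one, map_mul, conj_ofReal, hconj, hee]
    have hns : ((normSq w : ℝ) : ℂ) = w * w' := by rw [← hconjw, mul_conj]
    have h6 : ((2 * (1 - a ^ 2) / normSq w : ℝ) : ℂ) = 2 * (1 - (a:ℂ) ^ 2) / (w * w') := by
      push_cast
      rw [hns]
    rw [h6, hee]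
    have hI := I_ne_zero
    have hwe : w = 1 - a * e := hw
    have hwe' : w' = 1 - a * e⁻¹ := by rw [hw', hee]
    have k1 : -((a : ℂ) * (e⁻¹ * (-(2 * Real.pi * M * I)))) / w' / (Real.pi * M * I)
        = 2 * a * e⁻¹ / w' := by
      field_simp
    have k2 : -((a : ℂ) * (e * (2 * Real.pi * M * I))) / w / (Real.pi * M * I)
        = -(2 * a * e / w) := by
      field_simp
    rw [sub_div, k1, k2]
    rw [eq_div_iff (mul_ne_zero hw0 hw0')]
    have k3 : (2 + (2 * a * e⁻¹ / w' - -(2 * a * e / w))) * (w * w')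
        = 2 * (w * w') + 2 * a * e⁻¹ * w + 2 * a * e * w' := by
      field_simp
      ring
    rw [k3, hwe, hwe']
    have k4 : e * e⁻¹ = 1 := mul_inv_cancel₀ he0
    linear_combination (-2 * (a:ℂ) ^ 2) * k4

lemma deriv_pos' (ha0 : 0 ≤ a) (ha1 : a < 1) (x : ℝ) :
    0 < 2 * (1 - a ^ 2) / normSq (1 - (a : ℂ) * exp (2 * Real.pi * M * x * I)) := by
  have e1 : (2 * Real.pi * M * x * I : ℂ) = ((2 * Real.pi * M * x : ℝ) : ℂ) * I := by
    push_cast; ring
  have hre := wre_pos ha0 ha1 (2 * Real.pi * M * x)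
  rw [← e1] at hre
  apply div_pos
  · nlinarith
  · apply normSq_pos.2
    intro h
    rw [h] at hre
    simp at hre

lemma BB_regular (hM : 1 ≤ M) (ha0 : 0 ≤ a) (ha1 : a < 1) {β : ℝ → ℝ} {x : ℝ}
    (h : ∀ᶠ y in 𝓝 x, β y = BB M a y) : RegularAt β x := by
  obtain ⟨h1, h2⟩ := fB_hasDeriv hM ha0 ha1 x
  refine ⟨fB M a, _, h1, deriv_pos' (M := M) ha0 ha1 x, h2, ?_⟩
  filter_upwards [h] with y hy
  rw [fB_real hM ha0 ha1, hy]

lemma BB_hasDerivAt (hM : 1 ≤ M) (ha0 : 0 ≤ a) (ha1 : a < 1) (x : ℝ) :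
    HasDerivAt (BB M a)
      (2 * (1 - a ^ 2) / normSq (1 - (a : ℂ) * exp (2 * Real.pi * M * x * I))) x := by
  obtain ⟨h1, h2⟩ := fB_hasDeriv hM ha0 ha1 x
  have h3 : HasDerivAt (fB M a) _ (x : ℂ) := h1.differentiableAt.hasDerivAt
  rw [h2] at h3
  have h4 := h3.real_of_complex
  simp only [ofReal_re] at h4
  have h5 : (fun x : ℝ => (fB M a (x : ℂ)).re) = BB M a := by
    funext y; rw [fB_real hM ha0 ha1]; simp
  rw [h5] at h4
  exact h4

lemma BB_strictMono (hM : 1 ≤ M) (ha0 : 0 ≤ a) (ha1 : a < 1) : StrictMono (BB M a) :=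
  strictMono_of_hasDerivAt_pos (fun x => BB_hasDerivAt hM ha0 ha1 x) fun x => deriv_pos' ha0 ha1 x

lemma BB_continuous (hM : 1 ≤ M) (ha0 : 0 ≤ a) (ha1 : a < 1) : Continuous (BB M a) :=
  continuous_iff_continuousAt.2 fun x => (BB_hasDerivAt hM ha0 ha1 x).continuousAt

lemma BB_zero (M : ℕ) (x : ℝ) : BB M 0 x = 2 * x := by simp [BB]

/-- the tangent formula -/
lemma BB_tan (hM : 1 ≤ M) (ha0 : 0 ≤ a) (ha1 : a < 1) (k : ℤ) {t : ℝ}
    (ht : |Real.pi * M * t| < Real.pi / 2) :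
    BB M a ((k : ℝ) / M + t) = 2 * k / M
      + 2 / (Real.pi * M) * Real.arctan ((1 + a) / (1 - a) * Real.tan (Real.pi * M * t)) := by
  have hMR : (0:ℝ) < M := by exact_mod_cast (by omega : 0 < M)
  have hMC : (M : ℂ) ≠ 0 := by exact_mod_cast (by omega : M ≠ 0)
  have hpi := Real.pi_pos
  set φ := Real.pi * M * t with hφ
  set lam := (1 + a) / (1 - a) with hlam
  have h1a : 0 < 1 - a := by linarith
  set ψ := Real.arctan (lam * Real.tan φ) with hψ
  have hcφ : 0 < Real.cos φ := Real.cos_pos_of_mem_Ioo ⟨by linarith [(abs_lt.1 ht).1], (abs_lt.1 ht).2⟩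
  have hcψ : 0 < Real.cos ψ := Real.cos_arctan_pos _
  have htanψ : Real.tan ψ = lam * Real.tan φ := Real.tan_arctan _
  -- the exponent
  have e1 : exp (2 * Real.pi * M * (((k : ℝ) / M + t : ℝ) : ℂ) * I) = exp (((2 * φ : ℝ) : ℂ) * I) := by
    have : (2 * Real.pi * M * (((k : ℝ) / M + t : ℝ) : ℂ) * I : ℂ)
        = ((2 * φ : ℝ) : ℂ) * I + k * (2 * Real.pi * I) := by
      rw [hφ]; push_cast; field_simp; ring
    rw [this, exp_add, exp_int_mul_two_pi_mul_I, mul_one]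
  set r := (1 - a) * (Real.cos φ / Real.cos ψ) with hr
  have hr0 : 0 < r := by positivity
  have key : 1 - (a : ℂ) * exp (((2 * φ : ℝ) : ℂ) * I)
      = (r : ℂ) * exp (((φ - ψ : ℝ) : ℂ) * I) := by
    have hsψ : Real.sin ψ = lam * Real.tan φ * Real.cos ψ := by
      rw [← htanψ, Real.tan_mul_cos hcψ.ne']
    have htφ : Real.tan φ * Real.cos φ = Real.sin φ := Real.tan_mul_cos hcφ.ne'
    have hlam' : (1 - a) * lam = 1 + a := by rw [hlam]; field_simp
    have q1 : Real.cos φ / Real.cos ψ * Real.cos ψ = Real.cos φ := div_mul_cancel₀ _ hcψ.ne'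
    have q2 : Real.cos φ / Real.cos ψ * Real.sin ψ = lam * Real.sin φ := by
      rw [hsψ]
      calc Real.cos φ / Real.cos ψ * (lam * Real.tan φ * Real.cos ψ)
          = lam * (Real.tan φ * Real.cos φ) * (Real.cos ψ / Real.cos ψ) := by ring
        _ = lam * Real.sin φ := by rw [htφ, div_self hcψ.ne', mul_one]
    have hsc := Real.sin_sq_add_cos_sq φ
    apply Complex.ext
    · rw [sub_re, one_re, (exp_re_im a (2 * φ)).1, (exp_re_im r (φ - ψ)).1, Real.cos_sub,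
        Real.cos_two_mul, hr]
      have : (1 - a) * (Real.cos φ / Real.cos ψ) *
          (Real.cos φ * Real.cos ψ + Real.sin φ * Real.sin ψ)
          = (1 - a) * (Real.cos φ * (Real.cos φ / Real.cos ψ * Real.cos ψ)
            + Real.sin φ * (Real.cos φ / Real.cos ψ * Real.sin ψ)) := by ring
      rw [this, q1, q2]
      have h2 : Real.sin φ ^ 2 = 1 - Real.cos φ ^ 2 := by linarith
      linear_combination (-(Real.sin φ ^ 2)) * hlam' - (1 + a) * h2
    · rw [sub_im, one_im, (exp_re_im a (2 * φ)).2, (exp_re_im r (φ - ψ)).2, Real.sin_sub,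
        Real.sin_two_mul, hr]
      have : (1 - a) * (Real.cos φ / Real.cos ψ) *
          (Real.sin φ * Real.cos ψ - Real.cos φ * Real.sin ψ)
          = (1 - a) * (Real.sin φ * (Real.cos φ / Real.cos ψ * Real.cos ψ)
            - Real.cos φ * (Real.cos φ / Real.cos ψ * Real.sin ψ)) := by ring
      rw [this, q1, q2]
      linear_combination (Real.sin φ * Real.cos φ) * hlam'
  have hψ1 := Real.neg_pi_div_two_lt_arctan (lam * Real.tan φ)
  have hψ2 := Real.arctan_lt_pi_div_two (lam * Real.tan φ)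
  have harg : arg (1 - (a : ℂ) * exp (((2 * φ : ℝ) : ℂ) * I)) = φ - ψ := by
    rw [key, exp_mul_I, arg_mul_cos_add_sin_mul_I hr0]
    have := abs_lt.1 ht
    constructor <;> linarith [this.1, this.2]
  unfold BB
  rw [e1, harg, hφ]
  field_simp
  ring

lemma BB_int (hM : 1 ≤ M) (ha0 : 0 ≤ a) (ha1 : a < 1) (n : ℤ) : BB M a n = 2 * n := by
  have hMR : (0:ℝ) < M := by exact_mod_cast (by omega : 0 < M)
  have h := BB_tan hM ha0 ha1 (n * M) (t := 0) (by simp [Real.pi_pos])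
  simp only [mul_zero, Real.tan_zero, Real.arctan_zero, add_zero] at h
  have e : (((n * M : ℤ) : ℝ)) / M = n := by push_cast; field_simp
  rw [e] at h
  rw [h]
  push_cast
  field_simp

lemma BB_close (hM : 1 ≤ M) (ha0 : 0 ≤ a) (ha1 : a < 1) (x : ℝ) : |BB M a x - 2 * x| ≤ 1 / M := by
  have hMR : (0:ℝ) < M := by exact_mod_cast (by omega : 0 < M)
  have hpi := Real.pi_pos
  have e1 : (2 * Real.pi * M * x * I : ℂ) = ((2 * Real.pi * M * x : ℝ) : ℂ) * I := by
    push_cast; ring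
  have hre := wre_pos ha0 ha1 (2 * Real.pi * M * x)
  rw [← e1] at hre
  have h1 : |arg (1 - (a : ℂ) * exp (2 * Real.pi * M * x * I))| ≤ Real.pi / 2 :=
    abs_arg_le_pi_div_two_iff.2 hre.le
  unfold BB
  rw [show 2 * x - 2 / (Real.pi * M) * arg (1 - (a : ℂ) * exp (2 * Real.pi * M * x * I)) - 2 * x
    = -(2 / (Real.pi * M) * arg (1 - (a : ℂ) * exp (2 * Real.pi * M * x * I))) by ring, abs_neg,
    abs_mul, abs_of_pos (by positivity : 0 < 2 / (Real.pi * (M:ℝ)))]
  calc 2 / (Real.pi * (M:ℝ)) * |arg (1 - (a : ℂ) * exp (2 * Real.pi * M * x * I))|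
      ≤ 2 / (Real.pi * M) * (Real.pi / 2) := by
        apply mul_le_mul_of_nonneg_left h1 (by positivity)
    _ = 1 / M := by field_simp

end

/-- parameters, constant on unit intervals -/
structure Par (Mf : ℕ → ℕ) (af : ℕ → ℝ) : Prop where
  hM : ∀ n, 1 ≤ Mf n
  h0 : ∀ n, 0 ≤ af n
  h1 : ∀ n, af n < 1
  hP : ∀ n, Mf (n + 1) = Mf n ∨ af n = 0 ∨ af (n + 1) = 0

/-- the sewing -/
noncomputable def bet (Mf : ℕ → ℕ) (af : ℕ → ℝ) (x : ℝ) : ℝ := BB (Mf ⌊x⌋₊) (af ⌊x⌋₊) x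

section

variable {Mf : ℕ → ℕ} {af : ℕ → ℝ}

lemma Par.int (h : Par Mf af) (m n : ℕ) : BB (Mf m) (af m) n = 2 * n := by
  have := BB_int (h.hM m) (h.h0 m) (h.h1 m) (n : ℤ)
  simpa using this

lemma Par.cell (h : Par Mf af) {x : ℝ} (hx : 0 ≤ x) :
    2 * (⌊x⌋₊ : ℝ) ≤ bet Mf af x ∧ bet Mf af x < 2 * ((⌊x⌋₊ : ℝ) + 1) := by
  have h1 := Nat.floor_le hx
  have h2 := Nat.lt_floor_add_one x
  have hm := BB_strictMono (h.hM ⌊x⌋₊) (h.h0 ⌊x⌋₊) (h.h1 ⌊x⌋₊)
  constructor
  · have := hm.monotone h1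
    rw [h.int] at this
    exact this
  · have := hm h2
    have e : ((⌊x⌋₊ : ℝ) + 1) = ((⌊x⌋₊ + 1 : ℕ) : ℝ) := by push_cast; ring
    rw [e, h.int] at this
    rw [e]
    exact this

lemma Par.sewing (h : Par Mf af) : IsSewing (bet Mf af) 0 := by
  have hmono : StrictMonoOn (bet Mf af) (Ioi 0) := by
    intro x hx y hy hxy
    rw [mem_Ioi] at hx hy
    rcases (Nat.floor_mono hxy.le).lt_or_eq with h1 | h1
    · have h2 := (h.cell hx.le).2
      have h3 := (h.cell hy.le).1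
      have h4 : ((⌊x⌋₊ : ℝ) + 1) ≤ ⌊y⌋₊ := by exact_mod_cast h1
      linarith
    · unfold bet
      rw [h1]
      exact BB_strictMono (h.hM _) (h.h0 _) (h.h1 _) hxy
  have himg : bet Mf af '' Ioi 0 = Ioi 0 := by
    apply Subset.antisymm
    · rintro _ ⟨x, hx, rfl⟩
      rw [mem_Ioi] at hx ⊢
      have h1 := BB_strictMono (h.hM ⌊x⌋₊) (h.h0 ⌊x⌋₊) (h.h1 ⌊x⌋₊) hx
      have h2 := h.int ⌊x⌋₊ 0
      simp only [Nat.cast_zero, mul_zero] at h2
      rw [h2] at h1
      exact h1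
    · intro y hy
      rw [mem_Ioi] at hy
      set N := ⌊y / 2⌋₊ with hN
      have h1 : (N : ℝ) ≤ y / 2 := Nat.floor_le (by linarith)
      have h2 : y / 2 < N + 1 := Nat.lt_floor_add_one _
      have hc := (BB_continuous (h.hM N) (h.h0 N) (h.h1 N)).continuousOn (s := Icc (N:ℝ) (N + 1))
      have hiv := intermediate_value_Icc (by linarith : (N:ℝ) ≤ N + 1) hc
      have e : ((N : ℝ) + 1) = ((N + 1 : ℕ) : ℝ) := by push_cast; ring
      have hmem : y ∈ Icc (BB (Mf N) (af N) N) (BB (Mf N) (af N) (N + 1)) := by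
        rw [e, h.int, h.int]
        push_cast
        constructor <;> linarith
      obtain ⟨x, hx, hxy⟩ := hiv hmem
      have hx1 : x < N + 1 := by
        apply lt_of_le_of_ne hx.2
        intro hcon
        rw [hcon, e, h.int] at hxy
        push_cast at hxy
        linarith
      have hx0 : 0 < x := by
        have hNn : (0:ℝ) ≤ N := Nat.cast_nonneg _
        apply lt_of_le_of_ne (hNn.trans hx.1)
        intro hcon
        have h5 := h.int N 0
        simp only [Nat.cast_zero, mul_zero] at h5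
        rw [← hcon, h5] at hxy
        linarith
      have hfl : ⌊x⌋₊ = N := by
        rw [Nat.floor_eq_iff hx0.le]
        exact ⟨hx.1, hx1⟩
      exact ⟨x, hx0, by unfold bet; rw [hfl]; exact hxy⟩
  refine ⟨le_rfl, hmono, ?_, himg⟩
  intro x hx
  apply ContinuousAt.continuousWithinAt
  refine hmono.continuousAt_of_image_mem_nhds (Ioi_mem_nhds hx) ?_
  rw [himg]
  apply Ioi_mem_nhds
  have : bet Mf af x ∈ bet Mf af '' Ioi 0 := ⟨x, hx, rfl⟩
  rw [himg] at this
  exact this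

lemma Par.reg (h : Par Mf af) {x : ℝ} (hx : 0 < x) (hn : (⌊x⌋₊ : ℝ) ≠ x) :
    RegularAt (bet Mf af) x := by
  have h1 := Nat.floor_le hx.le
  have h2 := Nat.lt_floor_add_one x
  have h3 : (⌊x⌋₊ : ℝ) < x := lt_of_le_of_ne h1 hn
  apply BB_regular (h.hM ⌊x⌋₊) (h.h0 ⌊x⌋₊) (h.h1 ⌊x⌋₊)
  filter_upwards [Ioo_mem_nhds h3 h2] with y hy
  have : ⌊y⌋₊ = ⌊x⌋₊ := by
    rw [Nat.floor_eq_iff (by linarith [hy.1, (Nat.cast_nonneg ⌊x⌋₊ : (0:ℝ) ≤ _)])]
    exact ⟨hy.1.le, hy.2⟩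
  unfold bet
  rw [this]

lemma Par.hreg (h : Par Mf af) (x0 : ℝ) (hx0 : 0 < x0) :
    ∀ᶠ x in 𝓝[≠] x0, RegularAt (bet Mf af) x := by
  rw [eventually_nhdsWithin_iff]
  have hfin : ∀ᶠ x in 𝓝 x0, x ∈ Ioo (max 0 (⌈x0⌉₊ - 1 : ℝ)) ((⌊x0⌋₊ : ℝ) + 1) := by
    apply Ioo_mem_nhds
    · apply max_lt hx0
      have := Nat.ceil_lt_add_one hx0.le
      linarith
    · exact Nat.lt_floor_add_one _
  filter_upwards [hfin] with x hx hne
  have hx1 : 0 < x := lt_of_le_of_lt (le_max_left _ _) hx.1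
  apply h.reg hx1
  intro hcon
  apply hne
  rw [mem_singleton_iff]
  set n := ⌊x⌋₊ with hn
  have h1 : ((⌈x0⌉₊ : ℝ) - 1) < n := by rw [hcon]; exact lt_of_le_of_lt (le_max_right _ _) hx.1
  have h2 : (n : ℝ) < (⌊x0⌋₊ : ℝ) + 1 := by rw [hcon]; exact hx.2
  have h3 : ⌈x0⌉₊ < n + 1 := by
    have : (⌈x0⌉₊ : ℝ) < n + 1 := by linarith
    exact_mod_cast this
  have h4 : n < ⌊x0⌋₊ + 1 := by exact_mod_cast h2
  have h5 : (⌊x0⌋₊ : ℝ) ≤ x0 := Nat.floor_le hx0.le
  have h6 : x0 ≤ (⌈x0⌉₊ : ℝ) := Nat.le_ceil _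
  have h7 : (⌈x0⌉₊ : ℝ) ≤ n := by exact_mod_cast (by omega : ⌈x0⌉₊ ≤ n)
  have h8 : (n : ℝ) ≤ ⌊x0⌋₊ := by exact_mod_cast (by omega : n ≤ ⌊x0⌋₊)
  rw [← hcon]
  linarith

/-- one-sided tangent relation -/
lemma tan_rel {M : ℕ} {a : ℝ} (hM : 1 ≤ M) (ha0 : 0 ≤ a) (ha1 : a < 1) (c : ℕ) {x : ℝ}
    (hx : |Real.pi * M * (x - c)| < Real.pi / 2) :
    Real.tan (Real.pi * M * (BB M a x - 2 * c) / 2)
      = (1 + a) / (1 - a) * Real.tan (Real.pi * M * (x - c)) := by
  have hMR : (0:ℝ) < M := by exact_mod_cast (by omega : 0 < M)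
  have hpi := Real.pi_pos
  have h := BB_tan hM ha0 ha1 ((c : ℤ) * M) (t := x - c) hx
  have e : ((((c : ℤ) * M : ℤ) : ℝ)) / M + (x - c) = x := by push_cast; field_simp; ring
  rw [e] at h
  have e2 : Real.pi * M * (BB M a x - 2 * c) / 2
      = Real.arctan ((1 + a) / (1 - a) * Real.tan (Real.pi * M * (x - c))) := by
    rw [h]; push_cast; field_simp; ring
  rw [e2, Real.tan_arctan]

lemma Par.brk (h : Par Mf af) {n : ℕ} (hn : 1 ≤ n) : BreakAt (bet Mf af) (n : ℝ) := by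
  obtain ⟨m, rfl⟩ : ∃ m, n = m + 1 := ⟨n - 1, by omega⟩
  set c : ℝ := ((m + 1 : ℕ) : ℝ) with hc
  have hcpos : 0 < c := by rw [hc]; positivity
  have hpi := Real.pi_pos
  -- common M
  obtain ⟨M, hM1, hML, hMR⟩ : ∃ M : ℕ, 1 ≤ M ∧
      (∀ x, BB (Mf m) (af m) x = BB M (af m) x) ∧
      (∀ x, BB (Mf (m + 1)) (af (m + 1)) x = BB M (af (m + 1)) x) := by
    rcases h.hP m with h1 | h1 | h1
    · exact ⟨Mf m, h.hM m, fun _ => rfl, fun _ => by rw [h1]⟩
    · exact ⟨Mf (m + 1), h.hM _, fun x => by rw [h1, BB_zero, BB_zero], fun _ => rfl⟩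
    · exact ⟨Mf m, h.hM m, fun _ => rfl, fun x => by rw [h1, BB_zero, BB_zero]⟩
  have hMpos : (0:ℝ) < M := by exact_mod_cast (by omega : 0 < M)
  have hfl : ⌊c⌋₊ = m + 1 := by rw [hc]; exact Nat.floor_natCast _
  have hbc : bet Mf af c = 2 * c := by
    unfold bet
    rw [hfl, hc, h.int]
  have hMC : (M : ℂ) ≠ 0 := by exact_mod_cast (by omega : M ≠ 0)
  have hsmall : ∀ᶠ x : ℝ in 𝓝 c, |Real.pi * M * (x - c)| < Real.pi / 2 := by
    have : ContinuousAt (fun x : ℝ => |Real.pi * M * (x - c)|) c := by fun_prop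
    apply this.eventually_lt continuousAt_const
    simp [hpi]
  refine ⟨fun z => Complex.tan (Real.pi * M * (z - c)), fun z => Complex.tan (Real.pi * M * (z - 2 * c) / 2),
    Real.pi * M, Real.pi * M / 2, (1 + af (m + 1)) / (1 - af (m + 1)), (1 + af m) / (1 - af m),
    ?_, by positivity, ?_, by simp, ?_, ?_, by positivity, ?_, ?_, ?_, ?_, ?_, ?_⟩
  · have h1 : Complex.cos (Real.pi * M * ((c : ℂ) - c)) ≠ 0 := by simp
    have h2 : (fun z : ℂ => Complex.tan (Real.pi * M * (z - c)))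
        = fun z : ℂ => Complex.sin (Real.pi * M * (z - c)) / Complex.cos (Real.pi * M * (z - c)) := rfl
    rw [h2]
    exact AnalyticAt.div (by fun_prop) (by fun_prop) h1
  · have h1 : HasDerivAt (fun z : ℂ => (Real.pi : ℂ) * M * (z - c)) (Real.pi * M) (c : ℂ) := by
      simpa using ((hasDerivAt_id (c : ℂ)).sub_const (c : ℂ)).const_mul ((Real.pi : ℂ) * M)
    have h2 : HasDerivAt Complex.tan (1 / Complex.cos (Real.pi * M * ((c : ℂ) - c)) ^ 2)
        ((Real.pi : ℂ) * M * ((c : ℂ) - c)) := Complex.hasDerivAt_tan (by simp)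
    have h3 := HasDerivAt.comp (c : ℂ) h2 h1
    have h4 : (fun z : ℂ => Complex.tan (Real.pi * M * (z - c)))
        = Complex.tan ∘ fun z : ℂ => (Real.pi : ℂ) * M * (z - c) := rfl
    rw [h4, h3.deriv]
    simp
  · filter_upwards with x
    have : ((Real.pi : ℂ) * M * ((x : ℂ) - c)) = ((Real.pi * M * (x - c) : ℝ) : ℂ) := by
      push_cast; ring
    rw [this, ← ofReal_tan, ofReal_im]
  · rw [hbc]
    have h1 : Complex.cos (Real.pi * M * (((2 * c : ℝ) : ℂ) - 2 * c) / 2) ≠ 0 := by simp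
    have h2 : (fun z : ℂ => Complex.tan (Real.pi * M * (z - 2 * c) / 2))
        = fun z : ℂ => Complex.sin (Real.pi * M * (z - 2 * c) / 2)
          / Complex.cos (Real.pi * M * (z - 2 * c) / 2) := rfl
    rw [h2]
    exact AnalyticAt.div (by fun_prop) (by fun_prop) h1
  · rw [hbc]
    have h1 : HasDerivAt (fun z : ℂ => (Real.pi : ℂ) * M * (z - 2 * c) / 2) (Real.pi * M / 2)
        ((2 * c : ℝ) : ℂ) := by
      simpa using (((hasDerivAt_id ((2 * c : ℝ) : ℂ)).sub_const (2 * (c : ℂ))).const_mul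
        ((Real.pi : ℂ) * M)).div_const 2
    have h2 : HasDerivAt Complex.tan (1 / Complex.cos (Real.pi * M * (((2 * c : ℝ) : ℂ) - 2 * c) / 2) ^ 2)
        ((Real.pi : ℂ) * M * (((2 * c : ℝ) : ℂ) - 2 * c) / 2) := Complex.hasDerivAt_tan (by simp)
    have h3 := HasDerivAt.comp ((2 * c : ℝ) : ℂ) h2 h1
    have h4 : (fun z : ℂ => Complex.tan (Real.pi * M * (z - 2 * c) / 2))
        = Complex.tan ∘ fun z : ℂ => (Real.pi : ℂ) * M * (z - 2 * c) / 2 := rfl
    rw [h4, h3.deriv]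
    simp
  · rw [hbc]; simp
  · filter_upwards with y
    have : ((Real.pi : ℂ) * M * ((y : ℂ) - 2 * c) / 2) = ((Real.pi * M * (y - 2 * c) / 2 : ℝ) : ℂ) := by
      push_cast; ring
    rw [this, ← ofReal_tan, ofReal_im]
  · have h1 := h.h0 (m + 1)
    have h2 := h.h1 (m + 1)
    exact div_pos (by linarith) (by linarith)
  · have h1 := h.h0 m
    have h2 := h.h1 m
    exact div_pos (by linarith) (by linarith)
  · have hnear : ∀ᶠ x : ℝ in 𝓝 c, x ∈ Ioo (m : ℝ) (m + 2) := by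
      apply Ioo_mem_nhds
      · rw [hc]; push_cast; linarith
      · rw [hc]; push_cast; linarith
    filter_upwards [hsmall, hnear] with x hx hx2
    have e1 : ((Real.pi : ℂ) * M * ((bet Mf af x : ℝ) - 2 * c) / 2)
        = ((Real.pi * M * (bet Mf af x - 2 * c) / 2 : ℝ) : ℂ) := by push_cast; ring
    have e2 : ((Real.pi : ℂ) * M * ((x : ℂ) - c)) = ((Real.pi * M * (x - c) : ℝ) : ℂ) := by
      push_cast; ring
    rw [e1, e2, ← ofReal_tan, ← ofReal_tan, ← ofReal_mul, ← ofReal_mul]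
    have hm0 : (0:ℝ) ≤ m := Nat.cast_nonneg _
    constructor
    · intro hcx
      have hf : ⌊x⌋₊ = m + 1 := by
        rw [Nat.floor_eq_iff (by linarith)]
        rw [hc] at hcx
        push_cast at hcx ⊢
        exact ⟨hcx, by linarith [hx2.2]⟩
      have hb : bet Mf af x = BB M (af (m + 1)) x := by unfold bet; rw [hf, hMR]
      rw [hb]
      congr 1
      have := tan_rel (a := af (m + 1)) hM1 (h.h0 _) (h.h1 _) (m + 1) (x := x) hx
      exact this
    · intro hcx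
      rcases hcx.lt_or_eq with h1 | h1
      · have hf : ⌊x⌋₊ = m := by
          rw [Nat.floor_eq_iff (by linarith [hx2.1])]
          rw [hc] at h1
          push_cast at h1
          exact ⟨hx2.1.le, h1⟩
        have hb : bet Mf af x = BB M (af m) x := by unfold bet; rw [hf, hML]
        rw [hb]
        congr 1
        have := tan_rel (a := af m) hM1 (h.h0 _) (h.h1 _) (m + 1) (x := x) hx
        exact this
      · rw [h1, hbc]; simp

theorem Par.conformal (h : Par Mf af) : IsConformalSewing (bet Mf af) 0 := by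
  apply exists_generated h.sewing h.hreg
  intro x hx
  by_cases hn : (⌊x⌋₊ : ℝ) = x
  · right
    have h1 : 1 ≤ ⌊x⌋₊ := by
      by_contra hcon
      have : ⌊x⌋₊ = 0 := by omega
      rw [this] at hn
      simp at hn
      linarith
    rw [← hn]
    exact h.brk h1
  · left
    exact h.reg hx hn

end

end Pool.Agent.Helper647.Sew
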