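import Mathlib
import Pool.Agent.Helper647.SewMan
import Pool.Agent.Helper647.SewArea

set_option autoImplicit false

open Set Filter Topology Complex MeasureTheory
open scoped Manifold ContDiff ENNReal

namespace Pool.Agent.Helper647.Sew

/-- there is no continuous logarithm on a circle -/
theorem no_log_circle {c : ℝ} (hc : 0 < c) (l : ℂ → ℂ)
    (hl : ContinuousOn l (Metric.sphere 0 c)) (h : ∀ w ∈ Metric.sphere (0 : ℂ) c, exp (l w) = w) :
    False := by
  have hmem : ∀ θ : ℝ, (c : ℂ) * exp (θ * I) ∈ Metric.sphere (0 : ℂ) c := by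
    intro θ
    rw [mem_sphere_zero_iff_norm, norm_mul, norm_exp_ofReal_mul_I, norm_real,
      Real.norm_of_nonneg hc.le, mul_one]
  have hcC : (c : ℂ) ≠ 0 := by exact_mod_cast hc.ne'
  set f : ℝ → ℂ := fun θ => l ((c : ℂ) * exp (θ * I)) - θ * I - log c with hf
  have hfc : Continuous f := by
    have h1 : Continuous fun θ : ℝ => (c : ℂ) * exp (θ * I) := by fun_prop
    have h2 : Continuous fun θ : ℝ => l ((c : ℂ) * exp (θ * I)) :=
      hl.comp_continuous h1 hmem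
    exact (h2.sub (by fun_prop)).sub continuous_const
  have hfe : ∀ θ, ∃ n : ℤ, f θ = n * (2 * Real.pi * I) := by
    intro θ
    apply exp_eq_one_iff.1
    simp only [hf]
    rw [exp_sub, exp_sub, h _ (hmem θ), exp_log hcC, mul_div_assoc, div_self (exp_ne_zero _),
      mul_one, div_self hcC]
  set g : ℝ → ℝ := fun θ => (f θ).im / (2 * Real.pi) with hg
  have hgc : Continuous g := (continuous_im.comp hfc).div_const _
  have hpi := Real.pi_pos
  have hgint : ∀ θ, ∃ n : ℤ, g θ = n := by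
    intro θ
    obtain ⟨n, hn⟩ := hfe θ
    refine ⟨n, ?_⟩
    simp only [hg]
    rw [hn]
    simp
  have hg2 : g (2 * Real.pi) = g 0 - 1 := by
    simp only [hg, hf]
    have h1 : exp (((2 * Real.pi : ℝ) : ℂ) * I) = 1 := by
      push_cast; exact exp_two_pi_mul_I
    rw [h1]
    simp
    field_simp
    ring
  obtain ⟨n, hn⟩ := hgint 0
  have hiv := intermediate_value_uIcc (a := (0 : ℝ)) (b := 2 * Real.pi) hgc.continuousOn
  have hmem2 : (n : ℝ) - 1 / 2 ∈ uIcc (g 0) (g (2 * Real.pi)) := by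
    rw [hg2, hn, uIcc_of_ge (by linarith)]
    constructor <;> linarith
  obtain ⟨θ, _, hθ⟩ := hiv hmem2
  obtain ⟨m, hm⟩ := hgint θ
  rw [hm] at hθ
  have h3 : (2 * m : ℝ) = 2 * n - 1 := by linarith
  have h4 : (2 * m : ℤ) = 2 * n - 1 := by exact_mod_cast h3
  omega

/-- collars of a ring are preconnected -/
lemma collar_preconnected (c1 c2 : ℝ) : IsPreconnected {w : ℂ | c1 < ‖w‖ ∧ ‖w‖ < c2} ∨ c1 < 0 := by
  by_cases h0 : c1 < 0
  · right; exact h0
  left
  push Not at h0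
  have h1 : {w : ℂ | c1 < ‖w‖ ∧ ‖w‖ < c2}
      = (fun p : ℝ × ℝ => (p.1 : ℂ) * exp (p.2 * I)) '' (Ioo c1 c2 ×ˢ univ) := by
    ext w
    constructor
    · rintro ⟨h1, h2⟩
      refine ⟨(‖w‖, arg w), ⟨⟨h1, h2⟩, mem_univ _⟩, ?_⟩
      simp only
      exact norm_mul_exp_arg_mul_I w
    · rintro ⟨⟨r, θ⟩, ⟨⟨h1, h2⟩, _⟩, rfl⟩
      have hr : 0 ≤ r := h0.trans h1.le
      have : ‖(r : ℂ) * exp (θ * I)‖ = r := by
        rw [norm_mul, norm_exp_ofReal_mul_I, norm_real, Real.norm_of_nonneg hr, mul_one]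
      simp only [mem_ofPred_eq]
      rw [this]
      exact ⟨h1, h2⟩
  rw [h1]
  apply IsPreconnected.image
  · exact isPreconnected_Ioo.prod isPreconnected_univ
  · fun_prop

section

variable {α : ℝ → ℝ} {a : ℝ} {X : Type} [TopologicalSpace X] {q : ℂ → X}

lemma QS.compact_bounded (h : QS α a q) {K : Set X} (hK : IsCompact K) :
    ∃ R : ℝ, ∀ z ∈ Strip a, q z ∈ K → z.re < R := by
  set N : ℕ → Set X := fun n => {p | ∀ z ∈ Strip a, q z = p → z ∈ {z : ℂ | z.re < n}} with hN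
  have hNo : ∀ n, IsOpen (N n) := fun n => h.nbhd _ (isOpen_lt continuous_re continuous_const)
  have hcov : K ⊆ ⋃ n, N n := by
    intro p _
    obtain ⟨w, hw, rfl⟩ := h.surj p
    obtain ⟨n, hn⟩ := exists_nat_gt (max w.re (max (α w.re) (inv α w.re)))
    rw [mem_iUnion]
    refine ⟨n, ?_⟩
    intro z hz hq
    simp only [mem_ofPred_eq]
    refine lt_of_le_of_lt ?_ hn
    rcases h.fibre_cases hz hw hq with h1 | ⟨x, hx, h1, h2⟩ | ⟨x, hx, h1, h2⟩
    · rw [h1]; exact le_max_left _ _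
    · have : inv α w.re = x := by rw [h2]; simp [h.sew.inv_apply hx]
      rw [this, h1]
      simp
    · have : w.re = x := by rw [h1]; simp
      rw [this, h2]
      simp
  have hdir : Directed (· ⊆ ·) N := by
    apply directed_of_isDirected_le
    intro m n hmn p hp z hz hq
    have := hp z hz hq
    simp only [mem_ofPred_eq] at this ⊢
    exact lt_of_lt_of_le this (by exact_mod_cast hmn)
  obtain ⟨n, hn⟩ := hK.elim_directed_cover N hNo hcov hdir
  exact ⟨n, fun z hz hq => hn hq z hz rfl⟩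

end

section

variable {α : ℝ → ℝ} {a : ℝ} {X : Type} [TopologicalSpace X] [ChartedSpace ℂ X] {q : ℂ → X}

/-- injective holomorphic functions on open sets of a generated surface are open -/
lemma IsGenerated.open_of_mdiff (h : IsGenerated α a X q) {U : Set X} (hU : IsOpen U)
    {φ : X → ℂ} (hφ : MDifferentiableOn 𝓘(ℂ) 𝓘(ℂ) φ U) (hinj : InjOn φ U) {p : X} (hp : p ∈ U)
    {S : Set X} (hS : S ∈ 𝓝 p) (hSU : S ⊆ U) : φ '' S ∈ 𝓝 (φ p) := by
  have := h.manifold
  have hm1 : IsManifold 𝓘(ℂ) 1 X := IsManifold.of_le (m := 1) (n := ω) le_top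
  set E := (chartAt ℂ p).symm with hE
  have hpE : p ∈ E.target := mem_chart_source ℂ p
  have hVo : IsOpen (E.source ∩ E ⁻¹' U) := E.isOpen_inter_preimage hU
  have hd : DifferentiableOn ℂ (fun z => φ (E z)) (E.source ∩ E ⁻¹' U) := by
    rintro w ⟨hw, hwU⟩
    have h1 : MDifferentiableAt 𝓘(ℂ) 𝓘(ℂ) φ (E w) := (hφ _ hwU).mdifferentiableAt (hU.mem_nhds hwU)
    have h2 : MDifferentiableAt 𝓘(ℂ) 𝓘(ℂ) E w :=
      mdifferentiableAt_atlas_symm (chart_mem_atlas ℂ _) hw
    have h3 : MDifferentiableAt 𝓘(ℂ) 𝓘(ℂ) (φ ∘ E) w := h1.comp w h2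
    exact h3.differentiableAt.differentiableWithinAt
  set z0 := E.symm p with hz0
  have hz0s : z0 ∈ E.source := E.map_target hpE
  have hEz0 : E z0 = p := E.right_inv hpE
  have hz0V : z0 ∈ E.source ∩ E ⁻¹' U := ⟨hz0s, by rw [mem_preimage, hEz0]; exact hp⟩
  have han : AnalyticAt ℂ (fun z => φ (E z)) z0 := hd.analyticAt (hVo.mem_nhds hz0V)
  have hSpre : E.source ∩ E ⁻¹' S ∈ 𝓝 z0 := by
    refine inter_mem (E.open_source.mem_nhds hz0s) ?_
    apply E.continuousAt hz0s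
    rw [hEz0]; exact hS
  have := analytic_open han hSpre (by
    intro z hz w hw heq
    exact E.injOn hz.1 hw.1 (hinj (hSU hz.2) (hSU hw.2) heq))
  rw [hEz0] at this
  refine mem_of_superset this ?_
  rintro _ ⟨z, hz, rfl⟩
  exact ⟨E z, hz.2, rfl⟩

/-- some essential circle lies in the image of a given neighbourhood of the end -/
lemma IsGenerated.circle (h : IsGenerated α a X q) (hs : IsSewing α a) {U : Set X}
    (hU : IsOpen U) {φ : X → ℂ} (hφ : MDifferentiableOn 𝓘(ℂ) 𝓘(ℂ) φ U) {ρ : ℝ}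
    (hbij : BijOn φ U {w : ℂ | 1 < ‖w‖ ∧ ‖w‖ < ρ}) {R : ℝ} (hRa : a < R)
    (hRU : ∀ z ∈ Strip a, R ≤ z.re → q z ∈ U) :
    ∃ c, 1 < c ∧ c < ρ ∧ ∃ ψ : ℂ → X, ContinuousOn ψ (Metric.sphere 0 c) ∧
      ∀ w ∈ Metric.sphere (0 : ℂ) c,
        ψ w ∈ {p : X | ∀ z ∈ Strip a, q z = p → z ∈ {z : ℂ | R < z.re}} ∧ φ (ψ w) = w := by
  have hne : Nonempty X := ⟨q 1⟩
  have hqs := h.qs hs
  have hR0 : 0 < R := lt_of_le_of_lt hs.nonneg hRa
  set V : Set X := {p : X | ∀ z ∈ Strip a, q z = p → z ∈ {z : ℂ | R < z.re}} with hV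
  set W : Set X := {p : X | ∀ z ∈ Strip a, q z = p → z ∈ {z : ℂ | z.re < R}} with hW
  have hVo : IsOpen V := hqs.nbhd _ (isOpen_lt continuous_const continuous_re)
  have hWo : IsOpen W := hqs.nbhd _ (isOpen_lt continuous_re continuous_const)
  have hVW : Disjoint V W := by
    rw [Set.disjoint_left]
    intro p hp1 hp2
    obtain ⟨z, hz, rfl⟩ := hqs.surj p
    have h1 := hp1 z hz rfl
    have h2 := hp2 z hz rfl
    simp only [mem_ofPred_eq] at h1 h2
    linarith
  have hVU : V ⊆ U := by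
    intro p hp
    obtain ⟨z, hz, rfl⟩ := hqs.surj p
    exact hRU z hz (le_of_lt (hp z hz rfl))
  set Rb := max R (max (α R) (inv α R)) with hRb
  set K : Set X := q '' (Icc R Rb ×ℂ Icc 0 1) with hK
  have hrect : (Icc R Rb ×ℂ Icc 0 1) ⊆ Strip a := by
    intro z hz
    rw [mem_reProdIm] at hz
    exact ⟨lt_of_lt_of_le hR0 hz.1.1, hz.2.1, hz.2.2, fun _ => lt_of_lt_of_le hRa hz.1.1⟩
  have hKc : IsCompact K :=
    (isCompact_Icc.reProdIm isCompact_Icc).image_of_continuousOn (hqs.cont.mono hrect)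
  have hKU : K ⊆ U := by
    rintro _ ⟨z, hz, rfl⟩
    exact hRU z (hrect hz) (mem_reProdIm.1 hz).1.1
  have hcover : ∀ p : X, p ∈ V ∨ p ∈ W ∨ p ∈ K := by
    intro p
    by_contra hcon
    push Not at hcon
    obtain ⟨h1, h2, h3⟩ := hcon
    simp only [hV, hW, mem_ofPred_eq, not_forall, not_lt] at h1 h2
    obtain ⟨z, hz, hqz, hzR⟩ := h1
    obtain ⟨w, hw, hqw, hwR⟩ := h2
    apply h3
    rcases hqs.fibre_cases hz hw (hqz.trans hqw.symm) with h4 | ⟨x, hx, h4, h5⟩ | ⟨x, hx, h4, h5⟩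
    · refine ⟨z, ?_, hqz⟩
      rw [mem_reProdIm]
      rw [← h4] at hwR
      exact ⟨⟨hwR, hzR.trans (le_max_left _ _)⟩, hz.2.1, hz.2.2.1⟩
    · refine ⟨w, ?_, hqw⟩
      rw [mem_reProdIm]
      refine ⟨⟨hwR, ?_⟩, hw.2.1, hw.2.2.1⟩
      have hxR : x ≤ R := by rw [h4] at hzR; simpa using hzR
      have : w.re = α x := by rw [h5]; simp
      rw [this]
      exact (hs.strictMono.monotoneOn hx hR0 hxR).trans ((le_max_left _ _).trans (le_max_right _ _))
    · refine ⟨w, ?_, hqw⟩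
      rw [mem_reProdIm]
      refine ⟨⟨hwR, ?_⟩, hw.2.1, hw.2.2.1⟩
      have hxR : α x ≤ R := by rw [h5] at hzR; simpa using hzR
      have : w.re = x := by rw [h4]; simp
      rw [this]
      have h6 : x ≤ inv α R := by
        by_contra hcon
        push Not at hcon
        have := hs.strictMono (hs.inv_pos hRa) hx hcon
        rw [hs.apply_inv hRa] at this
        linarith
      exact h6.trans ((le_max_right _ _).trans (le_max_right _ _))
  -- inverse of φ
  have hcontφ : ContinuousOn φ U := hφ.continuousOn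
  set ψ : ℂ → X := Function.invFunOn φ U with hψ
  have hring : ∀ w : ℂ, 1 < ‖w‖ ∧ ‖w‖ < ρ → ψ w ∈ U ∧ φ (ψ w) = w := by
    intro w hw
    have : w ∈ φ '' U := hbij.surjOn hw
    exact ⟨Function.invFunOn_mem this, Function.invFunOn_eq this⟩
  have hψcont : ContinuousOn ψ {w : ℂ | 1 < ‖w‖ ∧ ‖w‖ < ρ} := by
    intro w hw
    obtain ⟨h1, h2⟩ := hring w hw
    apply ContinuousAt.continuousWithinAt
    intro S hS
    have h3 := h.open_of_mdiff hU hφ hbij.injOn h1 (inter_mem hS (hU.mem_nhds h1))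
      inter_subset_right
    rw [h2] at h3
    rw [mem_map]
    have hringo : IsOpen {w : ℂ | 1 < ‖w‖ ∧ ‖w‖ < ρ} :=
      (isOpen_lt continuous_const continuous_norm).inter (isOpen_lt continuous_norm continuous_const)
    filter_upwards [h3, hringo.mem_nhds hw] with w' hw' hw''
    obtain ⟨p, hp, rfl⟩ := hw'
    have h4 := hring _ hw''
    have : ψ (φ p) = p := hbij.injOn h4.1 hp.2 h4.2
    rw [mem_preimage, this]
    exact hp.1
  -- the compact image of K
  have hφK : IsCompact (φ '' K) := hKc.image_of_continuousOn (hcontφ.mono hKU)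
  obtain ⟨c1, c2, hc1, hc12, hc2, hKc12⟩ : ∃ c1 c2 : ℝ, 1 < c1 ∧ c1 ≤ c2 ∧ c2 < ρ ∧
      ∀ w ∈ φ '' K, c1 ≤ ‖w‖ ∧ ‖w‖ ≤ c2 := by
    have hne : (φ '' K).Nonempty := by
      refine ⟨φ (q (R : ℂ)), _, ⟨(R : ℂ), ?_, rfl⟩, rfl⟩
      rw [mem_reProdIm]
      simp only [ofReal_re, ofReal_im]
      exact ⟨⟨le_refl _, le_max_left _ _⟩, le_refl _, zero_le_one⟩
    obtain ⟨w1, hw1, hmin⟩ := hφK.exists_isMinOn hne continuous_norm.continuousOn
    obtain ⟨w2, hw2, hmax⟩ := hφK.exists_isMaxOn hne continuous_norm.continuousOn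
    obtain ⟨p1, hp1, rfl⟩ := hw1
    obtain ⟨p2, hp2, rfl⟩ := hw2
    refine ⟨‖φ p1‖, ‖φ p2‖, (hbij.mapsTo (hKU hp1)).1, hmin ⟨p2, hp2, rfl⟩,
      (hbij.mapsTo (hKU hp2)).2, fun w hw => ⟨hmin hw, hmax hw⟩⟩
  -- compact subsets of the ring come from bounded parts of the strip
  set c1' := (1 + c1) / 2 with hc1'
  set c2' := (c2 + ρ) / 2 with hc2'
  have hQ : IsCompact {w : ℂ | c1' ≤ ‖w‖ ∧ ‖w‖ ≤ c2'} := by
    have : {w : ℂ | c1' ≤ ‖w‖ ∧ ‖w‖ ≤ c2'} = Metric.closedBall 0 c2' ∩ {w | c1' ≤ ‖w‖} := by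
      ext w; simp [and_comm]
    rw [this]
    exact (isCompact_closedBall _ _).inter_right (isClosed_le continuous_const continuous_norm)
  have hQsub : {w : ℂ | c1' ≤ ‖w‖ ∧ ‖w‖ ≤ c2'} ⊆ {w : ℂ | 1 < ‖w‖ ∧ ‖w‖ < ρ} := by
    rintro w ⟨h1, h2⟩
    constructor <;> [linarith; linarith]
  obtain ⟨R', hR'⟩ := hqs.compact_bounded (hQ.image_of_continuousOn (hψcont.mono hQsub))
  -- a far away point of V
  set R'' := max (max R' R) (α (max R' R + 1)) + 1 with hR''
  have hfar : ∃ p ∈ V, p ∈ U ∧ ¬ (c1' ≤ ‖φ p‖ ∧ ‖φ p‖ ≤ c2') := by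
    set z : ℂ := ((max R' R + 1 : ℝ) : ℂ) + ((1 / 2 : ℝ) : ℂ) * I with hz
    have hzre : z.re = max R' R + 1 := by simp [hz]
    have hzim : z.im = 1 / 2 := by simp [hz]
    have hm1 : R ≤ max R' R := le_max_right _ _
    have hm2 : R' ≤ max R' R := le_max_left _ _
    have hzS : z ∈ SInt := ⟨by rw [hzre]; linarith, by rw [hzim]; norm_num, by rw [hzim]; norm_num⟩
    have hzV : q z ∈ V := by
      intro w hw hq
      have := hqs.eq_of_SInt hzS hw hq.symm
      rw [← this, mem_ofPred_eq, hzre]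
      linarith
    refine ⟨q z, hzV, hVU hzV, ?_⟩
    intro hcon
    have h5 : ψ (φ (q z)) = q z :=
      hbij.injOn (hring _ (hQsub hcon)).1 (hVU hzV) (hring _ (hQsub hcon)).2
    have := hR' z (SInt_subset a hzS) ⟨φ (q z), hcon, h5⟩
    rw [hzre] at this
    linarith
  obtain ⟨p0, hp0V, hp0U, hp0⟩ := hfar
  have hp0r := hbij.mapsTo hp0U
  -- clopen argument on a collar
  have collar : ∀ s t : ℝ, 1 ≤ s → t ≤ ρ → (∀ w : ℂ, s < ‖w‖ → ‖w‖ < t → w ∉ φ '' K) →
      s < ‖φ p0‖ → ‖φ p0‖ < t → ∀ w : ℂ, s < ‖w‖ → ‖w‖ < t → ψ w ∈ V := by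
    intro s t hs1 ht hno h1 h2
    have hpre : IsPreconnected {w : ℂ | s < ‖w‖ ∧ ‖w‖ < t} := by
      rcases collar_preconnected s t with h3 | h3
      · exact h3
      · linarith
    have hsub : {w : ℂ | s < ‖w‖ ∧ ‖w‖ < t} ⊆ {w : ℂ | 1 < ‖w‖ ∧ ‖w‖ < ρ} := by
      rintro w ⟨h3, h4⟩; exact ⟨lt_of_le_of_lt hs1 h3, lt_of_lt_of_le h4 ht⟩
    have himg : IsPreconnected (ψ '' {w : ℂ | s < ‖w‖ ∧ ‖w‖ < t}) :=
      hpre.image ψ (hψcont.mono hsub)
    have hcov : ψ '' {w : ℂ | s < ‖w‖ ∧ ‖w‖ < t} ⊆ V ∪ W := by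
      rintro _ ⟨w, hw, rfl⟩
      rcases hcover (ψ w) with h3 | h3 | h3
      · exact Or.inl h3
      · exact Or.inr h3
      · exfalso
        exact hno w hw.1 hw.2 ⟨ψ w, h3, (hring w (hsub hw)).2⟩
    have h0 : p0 ∈ ψ '' {w : ℂ | s < ‖w‖ ∧ ‖w‖ < t} := by
      refine ⟨φ p0, ⟨h1, h2⟩, ?_⟩
      exact hbij.injOn (hring _ hp0r).1 hp0U (hring _ hp0r).2
    have := himg.subset_left_of_subset_union hVo hWo hVW hcov ⟨p0, h0, hp0V⟩
    intro w hw1 hw2
    exact this ⟨w, ⟨hw1, hw2⟩, rfl⟩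
  rw [not_and_or] at hp0
  push Not at hp0
  rcases hp0 with hlow | hhigh
  · -- inner collar
    have hcol := collar 1 c1 le_rfl (by linarith) (by
      intro w hw1 hw2 hw3
      have := (hKc12 w hw3).1
      linarith) hp0r.1 (by linarith)
    have hsph : Metric.sphere (0 : ℂ) c1' ⊆ {w : ℂ | 1 < ‖w‖ ∧ ‖w‖ < ρ} := by
      intro w hw
      rw [mem_sphere_zero_iff_norm] at hw
      rw [mem_ofPred_eq, hw]; constructor <;> linarith
    refine ⟨c1', by linarith, by linarith, ψ, hψcont.mono hsph, ?_⟩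
    intro w hw
    have h1 := hsph hw
    rw [mem_sphere_zero_iff_norm] at hw
    exact ⟨hcol w h1.1 (by rw [hw]; linarith), (hring w h1).2⟩
  · have hcol := collar c2 ρ (by linarith) le_rfl (by
      intro w hw1 hw2 hw3
      have := (hKc12 w hw3).2
      linarith) (by linarith) hp0r.2
    have hsph : Metric.sphere (0 : ℂ) c2' ⊆ {w : ℂ | 1 < ‖w‖ ∧ ‖w‖ < ρ} := by
      intro w hw
      rw [mem_sphere_zero_iff_norm] at hw
      rw [mem_ofPred_eq, hw]; constructor <;> linarith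
    refine ⟨c2', by linarith, by linarith, ψ, hψcont.mono hsph, ?_⟩
    intro w hw
    have h1 := hsph hw
    rw [mem_sphere_zero_iff_norm] at hw
    exact ⟨hcol w (by rw [hw]; linarith) h1.2, (hring w h1).2⟩

/-- a continuous solution of `exp G = F` is differentiable where `F` is -/
lemma diff_of_exp {G F : ℂ → ℂ} {z : ℂ} (hG : ContinuousAt G z) (hF : DifferentiableAt ℂ F z)
    (h : ∀ᶠ w in 𝓝 z, exp (G w) = F w) : DifferentiableAt ℂ G z := by
  have hs : HasStrictDerivAt exp (exp (G z)) (G z) := hasStrictDerivAt_exp _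
  set L := hs.localInverse exp (exp (G z)) (G z) (exp_ne_zero _) with hL
  have hLd : HasStrictDerivAt L (exp (G z))⁻¹ (exp (G z)) := hs.to_localInverse (exp_ne_zero _)
  have hFz : F z = exp (G z) := h.self_of_nhds.symm
  have h1 : DifferentiableAt ℂ (fun w => L (F w)) z := by
    apply DifferentiableAt.comp (g := L) (f := F) z _ hF
    rw [hFz]; exact hLd.hasDerivAt.differentiableAt
  refine h1.congr_of_eventuallyEq ?_
  have h2 : ∀ᶠ u in 𝓝 (G z), L (exp u) = u := hs.hasStrictFDerivAt_equiv (exp_ne_zero _)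
    |>.eventually_left_inverse
  filter_upwards [h, hG.eventually h2] with w hw1 hw2
  rw [← hw1, hw2]

/-- the analytic package extracted from a hyperbolic end -/
theorem IsGenerated.package (h : IsGenerated α a X q) (hs : IsSewing α a)
    (hyp : HasHyperbolicEnd a X q) :
    ∃ (G : ℂ → ℂ) (R ρ : ℝ) (d : ℤ), 0 < R ∧ d ≠ 0 ∧
      ContinuousOn G {z | R ≤ z.re ∧ 0 ≤ z.im ∧ z.im ≤ 1} ∧
      DifferentiableOn ℂ G {z | R < z.re ∧ 0 < z.im ∧ z.im < 1} ∧
      (∀ x : ℝ, R ≤ x → R ≤ α x → G ((α x : ℂ) + I) = G x + d * (2 * Real.pi * I)) ∧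
      ∫⁻ z in {z : ℂ | R < z.re ∧ 0 < z.im ∧ z.im < 1}, ‖deriv G z‖ₑ ^ 2
        ≤ ENNReal.ofReal (Real.pi * ρ ^ 2) := by
  obtain ⟨U, hU, ⟨R0, hR0⟩, -, ρ, φ, hφ, hbij⟩ := hyp
  have hqs := h.qs hs
  have ha := hs.nonneg
  have hφU := h.holo_of_mdiff hU hφ
  set R1 := max R0 a + 1 with hR1
  have hR1a : a < R1 := by have := le_max_right R0 a; linarith
  have hR1pos : 0 < R1 := lt_of_le_of_lt ha hR1a
  have hR1U : ∀ z ∈ Strip a, R1 ≤ z.re → q z ∈ U := by
    intro z hz hzR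
    apply hR0 z hz
    have := le_max_left R0 a
    linarith
  -- clamping
  set cl : ℂ → ℂ := fun z => ((max R1 z.re : ℝ) : ℂ) + ((max 0 (min 1 z.im) : ℝ) : ℂ) * I with hcl
  have hclc : Continuous cl := by fun_prop
  have hclre : ∀ z, (cl z).re = max R1 z.re := by intro z; simp [hcl]
  have hclim : ∀ z, (cl z).im = max 0 (min 1 z.im) := by intro z; simp [hcl]
  have hclS : ∀ z, cl z ∈ Strip a := by
    intro z
    refine ⟨?_, ?_, ?_, ?_⟩
    · rw [hclre]; exact lt_of_lt_of_le hR1pos (le_max_left _ _)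
    · rw [hclim]; exact le_max_left _ _
    · rw [hclim]; exact max_le zero_le_one (min_le_left _ _)
    · intro _; rw [hclre]; exact lt_of_lt_of_le hR1a (le_max_left _ _)
  have hclU : ∀ z, q (cl z) ∈ U := fun z => hR1U _ (hclS z) (by rw [hclre]; exact le_max_left _ _)
  have hclid : ∀ z ∈ {z : ℂ | R1 ≤ z.re ∧ 0 ≤ z.im ∧ z.im ≤ 1}, cl z = z := by
    rintro z ⟨h1, h2, h3⟩
    apply Complex.ext
    · rw [hclre, max_eq_right h1]
    · rw [hclim, min_eq_right h3, max_eq_right h2]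
  have hFc : Continuous fun z => φ (q (cl z)) := by
    have h1 : Continuous fun z => q (cl z) := hqs.cont.comp_continuous hclc hclS
    exact hφU.1.comp_continuous h1 hclU
  have hF0 : ∀ z, φ (q (cl z)) ≠ 0 := by
    intro z hz
    have := (hbij.mapsTo (hclU z)).1
    rw [hz] at this
    simp at this
    linarith
  have hsc : IsSimplyConnected (univ : Set ℂ) := by
    have := (convex_univ (𝕜 := ℝ) (E := ℂ)).contractibleSpace univ_nonempty
    exact SimplyConnectedSpace.ofContractible _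
  obtain ⟨G, hGc, hGe⟩ := exists_continuousOn_eqOn_exp_comp hsc isOpen_univ hFc.continuousOn
    (by rintro ⟨z, _, hz⟩; exact hF0 z hz)
  have hGc' : Continuous G := continuousOn_univ.1 hGc
  have hGe' : ∀ z ∈ {z : ℂ | R1 ≤ z.re ∧ 0 ≤ z.im ∧ z.im ≤ 1}, exp (G z) = φ (q z) := by
    intro z hz
    have := hGe (mem_univ z)
    simp only [Function.comp_apply] at this
    rw [this, hclid z hz]
  -- the interior
  have hint : IsOpen {z : ℂ | R1 < z.re ∧ 0 < z.im ∧ z.im < 1} :=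
    (isOpen_lt continuous_const continuous_re).inter
      ((isOpen_lt continuous_const continuous_im).inter (isOpen_lt continuous_im continuous_const))
  have hsub1 : ∀ z ∈ {z : ℂ | R1 < z.re ∧ 0 < z.im ∧ z.im < 1}, z ∈ SInt ∩ q ⁻¹' U := by
    rintro z ⟨h1, h2, h3⟩
    have hzS : z ∈ SInt := ⟨lt_trans hR1pos h1, h2, h3⟩
    exact ⟨hzS, hR1U z (SInt_subset a hzS) h1.le⟩
  have hFd : DifferentiableOn ℂ (fun z => φ (q z)) {z : ℂ | R1 < z.re ∧ 0 < z.im ∧ z.im < 1} :=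
    hφU.2.mono hsub1
  have hGd : DifferentiableOn ℂ G {z : ℂ | R1 < z.re ∧ 0 < z.im ∧ z.im < 1} := by
    intro z hz
    apply DifferentiableAt.differentiableWithinAt
    apply diff_of_exp hGc'.continuousAt ((hFd z hz).differentiableAt (hint.mem_nhds hz))
    filter_upwards [hint.mem_nhds hz] with w hw
    exact hGe' w ⟨hw.1.le, hw.2.1.le, hw.2.2.le⟩
  -- the jump
  set x1 := max R1 (inv α R1) with hx1
  have hx1pos : 0 < x1 := lt_of_lt_of_le hR1pos (le_max_left _ _)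
  have hαx1 : ∀ x, x1 ≤ x → R1 ≤ α x := by
    intro x hx
    have h1 : inv α R1 ≤ x := (le_max_right _ _).trans hx
    have h2 := hs.strictMono.monotoneOn (hs.inv_pos hR1a) (lt_of_lt_of_le hx1pos hx) h1
    rwa [hs.apply_inv hR1a] at h2
  set D : ℝ → ℂ := fun x => G ((α x : ℂ) + I) - G x with hD
  have hDmem : MapsTo D (Ici x1) ((AddSubgroup.zmultiples (2 * Real.pi * I : ℂ) : Set ℂ)) := by
    intro x hx
    have hxpos : 0 < x := lt_of_lt_of_le hx1pos hx
    have e1 : exp (G x) = φ (q x) := hGe' x ⟨by simpa using (le_max_left _ _).trans hx,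
      by simp, by simp⟩
    have e2 : exp (G ((α x : ℂ) + I)) = φ (q ((α x : ℂ) + I)) := by
      apply hGe'
      exact ⟨by simpa using hαx1 x hx, by simp, by simp⟩
    rw [hqs.glue hxpos] at e2
    have e3 : exp (D x) = 1 := by
      simp only [hD]
      rw [exp_sub, e2, e1]
      apply div_self
      rw [← e1]; exact exp_ne_zero _
    obtain ⟨n, hn⟩ := exp_eq_one_iff.1 e3
    rw [SetLike.mem_coe, AddSubgroup.mem_zmultiples_iff]
    exact ⟨n, by rw [hn, zsmul_eq_mul]⟩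
  have hDc : ContinuousOn D (Ici x1) := by
    have h1 : ContinuousOn (fun x : ℝ => ((α x : ℝ) : ℂ) + I) (Ici x1) := by
      have : ContinuousOn α (Ici x1) := hs.cont.mono fun x hx => lt_of_lt_of_le hx1pos hx
      exact (continuous_ofReal.comp_continuousOn this).add continuousOn_const
    exact (hGc'.comp_continuousOn h1).sub (hGc'.comp continuous_ofReal).continuousOn
  have hdisc : DiscreteTopology (AddSubgroup.zmultiples (2 * Real.pi * I : ℂ)) :=
    NormedSpace.discreteTopology_zmultiples _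
  have hconst : ∀ x ∈ Ici x1, D x = D x1 := by
    intro x hx
    exact (isPreconnected_Ici (a := x1)).constant_of_mapsTo
      (isDiscrete_iff_discreteTopology.mpr hdisc) hDc hDmem hx self_mem_Ici
  obtain ⟨d, hd⟩ := AddSubgroup.mem_zmultiples_iff.1 (SetLike.mem_coe.1 (hDmem (self_mem_Ici (a := x1))))
  have hDd : ∀ x, x1 ≤ x → G ((α x : ℂ) + I) = G x + d * (2 * Real.pi * I) := by
    intro x hx
    have h1 := hconst x hx
    rw [← hd, zsmul_eq_mul] at h1
    simp only [hD] at h1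
    rw [← h1]; ring
  have hd0 : d ≠ 0 := by
    intro hd0
    have hglue0 : ∀ x, x1 ≤ x → G ((α x : ℂ) + I) = G x := by
      intro x hx; rw [hDd x hx, hd0]; simp
    have hx1a : a < x1 := lt_of_lt_of_le hR1a (le_max_left _ _)
    obtain ⟨c, hc1, hc2, ψ, hψc, hψ⟩ := h.circle hs hU hφ hbij hx1a
      (fun z hz hzR => hR1U z hz ((le_max_left _ _).trans hzR))
    choose rep hrep1 hrep2 using hqs.surj
    set V : Set X := {p : X | ∀ z ∈ Strip a, q z = p → z ∈ {z : ℂ | x1 < z.re}} with hV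
    have key : ∀ z ∈ Strip a, q z ∈ V → G (rep (q z)) = G z := by
      intro z hz hzV
      have v1 := hzV z hz rfl
      have v2 := hzV (rep (q z)) (hrep1 _) (hrep2 _)
      rw [mem_ofPred_eq] at v1 v2
      rcases hqs.fibre_cases (hrep1 (q z)) hz (hrep2 (q z)) with
        h3 | ⟨x, hx, h3, h4⟩ | ⟨x, hx, h3, h4⟩
      · rw [h3]
      · rw [h3] at v2
        rw [h3, h4]; exact (hglue0 x (by simpa using v2.le)).symm
      · rw [h3] at v1
        rw [h4, h3]; exact hglue0 x (by simpa using v1.le)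
    have hVo : IsOpen V := hqs.nbhd _ (isOpen_lt continuous_const continuous_re)
    have hgc : ContinuousOn (fun p => G (rep p)) V := by
      intro p hp
      apply ContinuousAt.continuousWithinAt
      rw [ContinuousAt, hqs.tendsto_iff]
      intro z hz hqz
      have hqV : q z ∈ V := by rw [hqz]; exact hp
      have e1 : ∀ᶠ w in 𝓝[Strip a] z, q w ∈ V := hqs.cont z hz (by
        rw [hqz]; exact hVo.mem_nhds hp)
      have e2 : (fun w => G (rep (q w))) =ᶠ[𝓝[Strip a] z] G := by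
        filter_upwards [e1, self_mem_nhdsWithin] with w hw1 hw2
        exact key w hw2 hw1
      rw [← hqz, key z hz hqV]
      exact (hGc'.continuousWithinAt (x := z)).congr' e2.symm
    have hlc : ContinuousOn (fun w => G (rep (ψ w))) (Metric.sphere 0 c) :=
      hgc.comp hψc (fun w hw => (hψ w hw).1)
    refine no_log_circle (by linarith) _ hlc ?_
    intro w hw
    obtain ⟨h1, h2⟩ := hψ w hw
    have h3 := h1 (rep (ψ w)) (hrep1 _) (hrep2 _)
    rw [mem_ofPred_eq] at h3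
    rw [hGe' (rep (ψ w)) ⟨(le_max_left _ _).trans h3.le, (hrep1 _).2.1, (hrep1 _).2.2.1⟩, hrep2, h2]
  refine ⟨G, x1, ρ, d, hx1pos, hd0, hGc'.continuousOn, hGd.mono ?_, fun x hx _ => hDd x hx, ?_⟩
  · rintro z ⟨h1, h2⟩
    exact ⟨lt_of_le_of_lt (le_max_left _ _) h1, h2⟩
  · have hint2 : IsOpen {z : ℂ | x1 < z.re ∧ 0 < z.im ∧ z.im < 1} :=
      (isOpen_lt continuous_const continuous_re).inter
        ((isOpen_lt continuous_const continuous_im).inter
          (isOpen_lt continuous_im continuous_const))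
    have hsub2 : ∀ z ∈ {z : ℂ | x1 < z.re ∧ 0 < z.im ∧ z.im < 1},
        z ∈ {z : ℂ | R1 < z.re ∧ 0 < z.im ∧ z.im < 1} := by
      rintro z ⟨h1, h2⟩
      exact ⟨lt_of_le_of_lt (le_max_left _ _) h1, h2⟩
    apply energy_log_deriv _ hint2 (fun z => φ (q z)) G ρ (hFd.mono hsub2)
    · intro z hz w hw heq
      have h1 := hsub1 z (hsub2 z hz)
      have h2 := hsub1 w (hsub2 w hw)
      exact hqs.eq_of_SInt h1.1 (SInt_subset a h2.1) (hbij.injOn h1.2 h2.2 heq)
    · intro z hz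
      exact hbij.mapsTo (hsub1 z (hsub2 z hz)).2
    · intro z hz
      have h1 := hsub2 z hz
      exact hGe' z ⟨h1.1.le, h1.2.1.le, h1.2.2.le⟩
    · exact hGd.mono hsub2

end

end Pool.Agent.Helper647.Sew
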