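import Mathlib

set_option autoImplicit false

open MeasureTheory Set Complex
open scoped ENNReal

namespace Pool.Agent.Helper647.Sew

theorem polar_part (g : ℂ → ℝ≥0∞) (hg : Measurable g) (σ R r₀ : ℝ) (hr : 0 < r₀) {Θ : Set ℝ}
    (hΘ : MeasurableSet Θ) (hΘ1 : Θ ⊆ Ioo (-Real.pi) Real.pi) (hΘ2 : ∀ θ ∈ Θ, 0 < σ * Real.sin θ) :
    ∫⁻ θ in Θ, ∫⁻ r in Ioo r₀ R, ENNReal.ofReal r * g ((r : ℂ) * Complex.exp ((θ : ℂ) * I))
      ≤ ∫⁻ z, ({z : ℂ | ‖z‖ < R ∧ 0 < σ * z.im}).indicator g z := by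
  rw [← Complex.lintegral_comp_polarCoord_symm]
  have hsub : Ioo r₀ R ×ˢ Θ ⊆ polarCoord.target := by
    rintro ⟨r, θ⟩ ⟨h1, h2⟩
    rw [polarCoord_target]
    exact ⟨lt_trans hr h1.1, hΘ1 h2⟩
  refine le_trans ?_ (lintegral_mono_set hsub)
  have h1 : ∫⁻ p in Ioo r₀ R ×ˢ Θ, ENNReal.ofReal p.1 •
      ({z : ℂ | ‖z‖ < R ∧ 0 < σ * z.im}).indicator g (Complex.polarCoord.symm p)
      = ∫⁻ p in Ioo r₀ R ×ˢ Θ, ENNReal.ofReal p.1 * g ((p.1 : ℂ) * Complex.exp ((p.2 : ℂ) * I)) := by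
    refine setLIntegral_congr_fun (measurableSet_Ioo.prod hΘ) ?_
    rintro ⟨r, θ⟩ ⟨h1, h2⟩
    have h1' : r₀ < r ∧ r < R := h1
    have hr0 : 0 < r := lt_trans hr h1'.1
    have e1 : Complex.polarCoord.symm (r, θ) = (r : ℂ) * Complex.exp ((θ : ℂ) * I) := by
      rw [Complex.polarCoord_symm_apply, Complex.exp_mul_I]
      simp
    simp only [smul_eq_mul]
    rw [e1, indicator_of_mem]
    refine ⟨?_, ?_⟩
    · rw [norm_mul, Complex.norm_exp_ofReal_mul_I, mul_one, Complex.norm_real,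
        Real.norm_of_nonneg hr0.le]
      exact h1'.2
    · have e2 : ((r : ℂ) * Complex.exp ((θ : ℂ) * I)).im = r * Real.sin θ := by
        rw [Complex.im_ofReal_mul, Complex.exp_ofReal_mul_I_im]
      rw [e2]
      have := hΘ2 θ h2
      nlinarith [mul_pos hr0 this]
  rw [h1, Measure.volume_eq_prod, ← Measure.prod_restrict, lintegral_prod_symm]
  refine Measurable.aemeasurable ?_
  fun_prop

theorem cs_part (F : ℝ → ℝ → ℝ≥0∞) (hF : Measurable (Function.uncurry F)) {R r₀ : ℝ}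
    (hr : 0 < r₀) (hR : r₀ < R) {Θ : Set ℝ}
    (hΘ1 : volume Θ = ENNReal.ofReal Real.pi) :
    ∫⁻ θ in Θ, ∫⁻ r in Ioo r₀ R, F θ r ≤
      (∫⁻ θ in Θ, ∫⁻ r in Ioo r₀ R, ENNReal.ofReal r * F θ r ^ 2) ^ (1 / 2 : ℝ)
        * ENNReal.ofReal (Real.sqrt (Real.pi * Real.log (R / r₀))) := by
  let μ : Measure (ℝ × ℝ) := (volume.restrict Θ).prod (volume.restrict (Ioo r₀ R))
  let f : ℝ × ℝ → ℝ≥0∞ := fun p => ENNReal.ofReal (Real.sqrt p.2) * F p.1 p.2
  let g : ℝ × ℝ → ℝ≥0∞ := fun p => ENNReal.ofReal (1 / Real.sqrt p.2)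
  have hF' : Measurable (fun p : ℝ × ℝ => F p.1 p.2) := hF
  have hf : Measurable f := by fun_prop
  have hg : Measurable g := by fun_prop
  have h0 := ENNReal.lintegral_mul_le_Lp_mul_Lq μ Real.HolderConjugate.two_two
    hf.aemeasurable hg.aemeasurable
  have e1 : ∫⁻ p, (f * g) p ∂μ = ∫⁻ θ in Θ, ∫⁻ r in Ioo r₀ R, F θ r := by
    rw [lintegral_prod _ (hf.mul hg).aemeasurable]
    refine lintegral_congr fun θ => ?_
    refine setLIntegral_congr_fun measurableSet_Ioo fun r hr' => ?_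
    have hr0 : 0 < r := lt_trans hr hr'.1
    simp only [Pi.mul_apply, f, g]
    rw [mul_right_comm, ← ENNReal.ofReal_mul (by positivity), mul_one_div,
      div_self (Real.sqrt_pos.2 hr0).ne', ENNReal.ofReal_one, one_mul]
  have e2 : ∫⁻ p, f p ^ (2 : ℝ) ∂μ
      = ∫⁻ θ in Θ, ∫⁻ r in Ioo r₀ R, ENNReal.ofReal r * F θ r ^ 2 := by
    rw [lintegral_prod _ (by fun_prop)]
    refine lintegral_congr fun θ => ?_
    refine setLIntegral_congr_fun measurableSet_Ioo fun r hr' => ?_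
    have hr0 : 0 < r := lt_trans hr hr'.1
    simp only [f]
    rw [ENNReal.mul_rpow_of_nonneg _ _ (by norm_num), ENNReal.rpow_two, ENNReal.rpow_two,
      ← ENNReal.ofReal_pow (Real.sqrt_nonneg _), Real.sq_sqrt hr0.le]
  have e3 : ∫⁻ p, g p ^ (2 : ℝ) ∂μ = ENNReal.ofReal (Real.pi * Real.log (R / r₀)) := by
    rw [lintegral_prod _ (by fun_prop)]
    have e4 : ∀ θ : ℝ, ∫⁻ r in Ioo r₀ R, g (θ, r) ^ (2 : ℝ) = ENNReal.ofReal (Real.log (R / r₀)) := by
      intro θ
      have e5 : ∫⁻ r in Ioo r₀ R, g (θ, r) ^ (2 : ℝ) = ∫⁻ r in Ioo r₀ R, ENNReal.ofReal (1 / r) := by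
        refine setLIntegral_congr_fun measurableSet_Ioo fun r hr' => ?_
        have hr0 : 0 < r := lt_trans hr hr'.1
        simp only [g]
        rw [ENNReal.rpow_two, ← ENNReal.ofReal_pow (by positivity), div_pow, one_pow,
          Real.sq_sqrt hr0.le]
      rw [e5]
      have hci : IntervalIntegrable (fun r : ℝ => 1 / r) volume r₀ R := by
        apply ContinuousOn.intervalIntegrable
        rw [uIcc_of_le hR.le]
        apply ContinuousOn.div continuousOn_const continuousOn_id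
        intro r hr'
        exact (lt_of_lt_of_le hr hr'.1).ne'
      have hint : IntegrableOn (fun r : ℝ => 1 / r) (Ioo r₀ R) := by
        rw [intervalIntegrable_iff_integrableOn_Ioo_of_le hR.le] at hci
        exact hci
      rw [← ofReal_integral_eq_lintegral_ofReal hint]
      · congr 1
        rw [← integral_Ioc_eq_integral_Ioo, ← intervalIntegral.integral_of_le hR.le,
          integral_one_div_of_pos hr (hr.trans hR)]
      · refine (ae_restrict_iff' measurableSet_Ioo).2 (Filter.Eventually.of_forall fun r hr' => ?_)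
        have hr0 : 0 < r := lt_trans hr hr'.1
        change 0 ≤ 1 / r
        positivity
    simp only [e4]
    rw [lintegral_const, Measure.restrict_apply_univ, hΘ1, mul_comm,
      ← ENNReal.ofReal_mul Real.pi_pos.le]
  rw [e1, e2, e3] at h0
  refine h0.trans (le_of_eq ?_)
  congr 1
  rw [Real.sqrt_eq_rpow, ENNReal.ofReal_rpow_of_nonneg _ (by norm_num)]
  have : 0 < Real.log (R / r₀) := Real.log_pos (by rwa [one_lt_div hr])
  positivity

/-- length-area estimate for radial segments of a half disc, parametrised by the foot of the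
vertical line through their outer end point -/
theorem radial_bound (h : ℂ → ℝ≥0∞) (hm : Measurable h) (c : ℂ) (σ R r₀ : ℝ)
    (hσ : σ = 1 ∨ σ = -1) (hr : 0 < r₀) (hR : r₀ < R) :
    ∫⁻ x in Ioo (c.re - R) (c.re + R), ∫⁻ r in Ioo r₀ R,
        h (c + (r : ℂ) * Complex.exp (((σ * Real.arccos ((x - c.re) / R) : ℝ) : ℂ) * I))
      ≤ ENNReal.ofReal (R * Real.sqrt (Real.pi * Real.log (R / r₀)))
        * (∫⁻ z in {z : ℂ | ‖z - c‖ < R ∧ 0 < σ * (z - c).im}, h z ^ 2) ^ (1 / 2 : ℝ) := by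
  have hR0 : 0 < R := hr.trans hR
  let G : ℝ → ℝ≥0∞ := fun θ => ∫⁻ r in Ioo r₀ R, h (c + (r : ℂ) * Complex.exp ((θ : ℂ) * I))
  have himg : (fun θ : ℝ => c.re + R * Real.cos θ) '' Ioo 0 Real.pi
      = Ioo (c.re - R) (c.re + R) := by
    ext x
    constructor
    · rintro ⟨θ, hθ, rfl⟩
      have h1 : Real.cos θ < 1 := by
        have := Real.cos_lt_cos_of_nonneg_of_le_pi (le_refl 0) hθ.2.le hθ.1
        rwa [Real.cos_zero] at this
      have h2 : -1 < Real.cos θ := by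
        have := Real.cos_lt_cos_of_nonneg_of_le_pi hθ.1.le (le_refl Real.pi) hθ.2
        rwa [Real.cos_pi] at this
      constructor
      · simp only; nlinarith
      · simp only; nlinarith
    · intro hx
      have h1 : (x - c.re) / R < 1 := by
        rw [div_lt_one hR0]; linarith [hx.2]
      have h2 : -1 < (x - c.re) / R := by
        rw [lt_div_iff₀ hR0]; linarith [hx.1]
      refine ⟨Real.arccos ((x - c.re) / R), ⟨Real.arccos_pos.2 h1, ?_⟩, ?_⟩
      · rw [← Real.arccos_neg_one]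
        exact Real.strictAntiOn_arccos ⟨by norm_num, by norm_num⟩ ⟨h2.le, h1.le⟩ h2
      · simp only
        rw [Real.cos_arccos h2.le h1.le]
        field_simp
        ring
  have hinj : InjOn (fun θ : ℝ => c.re + R * Real.cos θ) (Ioo 0 Real.pi) := by
    intro a ha b hb hab
    simp only [add_right_inj] at hab
    have h1 := mul_left_cancel₀ hR0.ne' hab
    exact Real.injOn_cos ⟨ha.1.le, ha.2.le⟩ ⟨hb.1.le, hb.2.le⟩ h1
  have hder : ∀ θ ∈ Ioo 0 Real.pi, HasDerivWithinAt (fun θ : ℝ => c.re + R * Real.cos θ)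
      (R * (-Real.sin θ)) (Ioo 0 Real.pi) θ := fun θ _ =>
    (((Real.hasDerivAt_cos θ).const_mul R).const_add c.re).hasDerivWithinAt
  have step1 : ∫⁻ x in Ioo (c.re - R) (c.re + R), ∫⁻ r in Ioo r₀ R,
        h (c + (r : ℂ) * Complex.exp (((σ * Real.arccos ((x - c.re) / R) : ℝ) : ℂ) * I))
      ≤ ENNReal.ofReal R * ∫⁻ θ in Ioo 0 Real.pi, G (σ * θ) := by
    rw [← himg, lintegral_image_eq_lintegral_abs_deriv_mul measurableSet_Ioo hder hinj,
      ← lintegral_const_mul' _ _ ENNReal.ofReal_ne_top]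
    refine setLIntegral_mono' measurableSet_Ioo fun θ hθ => ?_
    have h1 : (c.re + R * Real.cos θ - c.re) / R = Real.cos θ := by
      field_simp
      ring
    simp only [h1, Real.arccos_cos hθ.1.le hθ.2.le]
    have h2 : |R * -Real.sin θ| ≤ R := by
      rw [abs_mul, abs_neg, abs_of_pos hR0]
      have := Real.abs_sin_le_one θ
      nlinarith
    gcongr
  have hmG : Measurable (Function.uncurry
      (fun θ r : ℝ => h (c + (r : ℂ) * Complex.exp ((θ : ℂ) * I)))) := by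
    simp only [Function.uncurry_def]
    fun_prop
  -- the set of angles
  obtain ⟨Θ, hΘm, hΘv, hΘ1, hΘ2, hΘ3⟩ : ∃ Θ : Set ℝ, MeasurableSet Θ ∧
      volume Θ = ENNReal.ofReal Real.pi ∧ Θ ⊆ Ioo (-Real.pi) Real.pi ∧
      (∀ θ ∈ Θ, 0 < σ * Real.sin θ) ∧
      ∫⁻ θ in Ioo 0 Real.pi, G (σ * θ) = ∫⁻ θ in Θ, G θ := by
    rcases hσ with rfl | rfl
    · refine ⟨Ioo 0 Real.pi, measurableSet_Ioo, ?_, ?_, ?_, ?_⟩
      · rw [Real.volume_Ioo, sub_zero]
      · intro θ hθ
        exact ⟨by linarith [hθ.1, Real.pi_pos], hθ.2⟩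
      · intro θ hθ
        rw [one_mul]
        exact Real.sin_pos_of_mem_Ioo hθ
      · simp only [one_mul]
    · refine ⟨Ioo (-Real.pi) 0, measurableSet_Ioo, ?_, ?_, ?_, ?_⟩
      · rw [Real.volume_Ioo, sub_neg_eq_add, zero_add]
      · intro θ hθ
        exact ⟨hθ.1, by linarith [hθ.2, Real.pi_pos]⟩
      · intro θ hθ
        have := Real.sin_neg_of_neg_of_neg_pi_lt hθ.2 hθ.1
        linarith
      · have h1 := (Measure.measurePreserving_neg (volume : Measure ℝ)).setLIntegral_comp_preimage_emb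
          (Homeomorph.neg ℝ).measurableEmbedding G (Ioo (-Real.pi) 0)
        rw [← h1]
        have h2 : (fun x : ℝ => -x) ⁻¹' Ioo (-Real.pi) 0 = Ioo 0 Real.pi := by
          ext x
          simp only [mem_preimage, mem_Ioo]
          constructor
          · rintro ⟨h1, h2⟩; exact ⟨by linarith, by linarith⟩
          · rintro ⟨h1, h2⟩; exact ⟨by linarith, by linarith⟩
        change _ = ∫⁻ a in (fun x : ℝ => -x) ⁻¹' Ioo (-Real.pi) 0, G (-a)
        rw [h2]
        simp only [neg_mul, one_mul]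
  have step2 := cs_part (fun θ r : ℝ => h (c + (r : ℂ) * Complex.exp ((θ : ℂ) * I))) hmG hr hR
    hΘv
  have step3 := polar_part (fun z => h (c + z) ^ 2) (by fun_prop) σ R r₀ hr hΘm hΘ1 hΘ2
  have step4 : ∫⁻ z, ({z : ℂ | ‖z‖ < R ∧ 0 < σ * z.im}).indicator (fun z => h (c + z) ^ 2) z
      = ∫⁻ z in {z : ℂ | ‖z - c‖ < R ∧ 0 < σ * (z - c).im}, h z ^ 2 := by
    have hS : MeasurableSet {z : ℂ | ‖z - c‖ < R ∧ 0 < σ * (z - c).im} := by
      apply MeasurableSet.inter
      · exact measurableSet_lt (f := fun z : ℂ => ‖z - c‖) (g := fun _ => R) (by fun_prop)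
          measurable_const
      · exact measurableSet_lt (f := fun _ : ℂ => (0 : ℝ)) (g := fun z : ℂ => σ * (z - c).im)
          measurable_const (by fun_prop)
    rw [← lintegral_indicator hS, ← lintegral_add_left_eq_self
      (({z : ℂ | ‖z - c‖ < R ∧ 0 < σ * (z - c).im}).indicator (fun z => h z ^ 2)) c]
    refine lintegral_congr fun z => ?_
    by_cases hz : ‖z‖ < R ∧ 0 < σ * z.im
    · rw [indicator_of_mem (show z ∈ {z : ℂ | ‖z‖ < R ∧ 0 < σ * z.im} from hz),
        indicator_of_mem]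
      simpa using hz
    · rw [indicator_of_notMem (show z ∉ {z : ℂ | ‖z‖ < R ∧ 0 < σ * z.im} from hz),
        indicator_of_notMem]
      simpa using hz
  rw [step4] at step3
  refine step1.trans ?_
  rw [hΘ3]
  calc ENNReal.ofReal R * ∫⁻ θ in Θ, G θ
      ≤ ENNReal.ofReal R * ((∫⁻ z in {z : ℂ | ‖z - c‖ < R ∧ 0 < σ * (z - c).im}, h z ^ 2)
          ^ (1 / 2 : ℝ) * ENNReal.ofReal (Real.sqrt (Real.pi * Real.log (R / r₀)))) := by
        gcongr
        refine step2.trans ?_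
        gcongr
    _ = _ := by
        rw [ENNReal.ofReal_mul hR0.le]
        ring

end Pool.Agent.Helper647.Sew
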