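import Mathlib
import Pool.Agent.Helper647.SewZone
import Pool.Agent.Helper647.SewArcs
import Pool.Agent.Helper647.SewRadial

set_option autoImplicit false

open Set Filter Topology Complex MeasureTheory
open scoped ENNReal

namespace Pool.Agent.Helper647.Sew

lemma sum_sqrt_le (I : Finset ℕ) (e : ℕ → ℝ≥0∞) (E : ℝ≥0∞) (h : ∑ i ∈ I, e i ≤ E) :
    ∑ i ∈ I, (e i) ^ (1 / 2 : ℝ) ≤ (I.card : ℝ≥0∞) ^ (1 / 2 : ℝ) * E ^ (1 / 2 : ℝ) := by
  have h1 := ENNReal.inner_le_Lp_mul_Lq I (fun _ => (1 : ℝ≥0∞)) (fun i => (e i) ^ (1 / 2 : ℝ))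
    Real.HolderConjugate.two_two
  simp only [one_mul, ENNReal.one_rpow, Finset.sum_const, nsmul_eq_mul, mul_one] at h1
  refine h1.trans ?_
  gcongr
  refine le_trans (le_of_eq ?_) h
  apply Finset.sum_congr rfl
  intro i _
  rw [← ENNReal.rpow_mul]
  norm_num

section

variable {G : ℂ → ℂ} {R : ℝ} {d : ℤ} {β : ℝ → ℝ} {A M : ℕ} {K : ℝ}

/-- half disc -/
def HD (c : ℂ) (σ ρ : ℝ) : Set ℂ := {z : ℂ | ‖z - c‖ < ρ ∧ 0 < σ * (z - c).im}

lemma isOpen_HD (c : ℂ) (σ ρ : ℝ) : IsOpen (HD c σ ρ) := by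
  have h1 : IsOpen {z : ℂ | ‖z - c‖ < ρ} :=
    isOpen_lt (by fun_prop : Continuous fun z : ℂ => ‖z - c‖) continuous_const
  have h2 : IsOpen {z : ℂ | 0 < σ * (z - c).im} :=
    isOpen_lt continuous_const (by fun_prop : Continuous fun z : ℂ => σ * (z - c).im)
  exact h1.inter h2

lemma HD_re {c : ℂ} {σ ρ : ℝ} {z : ℂ} (hz : z ∈ HD c σ ρ) : |z.re - c.re| < ρ := by
  have := abs_re_le_norm (z - c)
  rw [sub_re] at this
  exact lt_of_le_of_lt this hz.1

lemma sum_HD_le (I : Finset ℕ) (c : ℕ → ℂ) (σ ρ : ℝ) (Z : Set ℂ) (f : ℂ → ℝ≥0∞)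
    (hsep : ∀ i ∈ I, ∀ j ∈ I, i ≠ j → 2 * ρ ≤ |(c i).re - (c j).re|)
    (hsub : ∀ i ∈ I, HD (c i) σ ρ ⊆ Z) :
    ∑ i ∈ I, ∫⁻ z in HD (c i) σ ρ, f z ≤ ∫⁻ z in Z, f z := by
  rw [← lintegral_biUnion_finset]
  · apply lintegral_mono_set
    intro z hz
    simp only [mem_iUnion] at hz
    obtain ⟨i, hi, hz⟩ := hz
    exact hsub i hi hz
  · intro i hi j hj hij
    rw [Function.onFun, Set.disjoint_left]
    intro z h1 h2
    have h3 := HD_re h1
    have h4 := HD_re h2
    have h5 := hsep i hi j hj hij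
    have h6 : |(c i).re - (c j).re| ≤ |z.re - (c i).re| + |z.re - (c j).re| := by
      have : (c i).re - (c j).re = -(z.re - (c i).re) + (z.re - (c j).re) := by ring
      rw [this]
      refine (abs_add_le _ _).trans ?_
      rw [abs_neg]
    linarith
  · intro i _
    exact (isOpen_HD _ _ _).measurableSet

/-- region of the zone -/
def ZR (A : ℕ) : Set ℂ := {z : ℂ | (A : ℝ) - 1 < z.re ∧ z.re < 8 * A + 3}

lemma Zone.sumB (h : Zone G R d β A M K) :
    ∑ i ∈ Finset.Icc (A * M) (4 * A * M), ∫⁻ z in HD (cP M i) 1 (1 / (2 * M)), dens G R z ^ 2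
      ≤ ∫⁻ z in ZR A, dens G R z ^ 2 := by
  have hM := h.Mpos
  have hrb := h.rb
  apply sum_HD_le
  · intro i _ j _ hij
    simp only [cP, ofReal_re]
    rw [← sub_div, abs_div, abs_of_pos hM]
    have h1 : (1:ℝ) ≤ |(i:ℝ) - j| := by
      have : (1:ℤ) ≤ |(i:ℤ) - j| := Int.one_le_abs (by omega)
      exact_mod_cast this
    rw [show 2 * (1 / (2 * (M:ℝ))) = 1 / M by field_simp]
    exact div_le_div_of_nonneg_right h1 hM.le
  · intro i hi z hz
    rw [Finset.mem_Icc] at hi
    have h1 := HD_re hz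
    simp only [cP, ofReal_re] at h1
    have h2 := abs_lt.1 h1
    have h3 : (A : ℝ) ≤ i / M := by
      rw [le_div_iff₀ hM]; exact_mod_cast hi.1
    have h4 : (i : ℝ) / M ≤ 4 * A := by
      rw [div_le_iff₀ hM]; exact_mod_cast hi.2
    have h5 : (0:ℝ) ≤ A := Nat.cast_nonneg _
    constructor <;> linarith [hrb.2]

lemma Zone.sumT (h : Zone G R d β A M K) :
    ∑ i ∈ Finset.Icc (A * M) (4 * A * M), ∫⁻ z in HD (cQ M i) (-1) (1 / M), dens G R z ^ 2
      ≤ ∫⁻ z in ZR A, dens G R z ^ 2 := by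
  have hM := h.Mpos
  have hrt := h.rt
  apply sum_HD_le
  · intro i _ j _ hij
    simp only [cQ, add_re, ofReal_re, I_re, add_zero]
    rw [← sub_div, abs_div, abs_of_pos hM]
    have h1 : (1:ℝ) ≤ |(i:ℝ) - j| := by
      have : (1:ℤ) ≤ |(i:ℤ) - j| := Int.one_le_abs (by omega)
      exact_mod_cast this
    have h2 : |2 * (i:ℝ) + 1 - (2 * (j:ℝ) + 1)| = 2 * |(i:ℝ) - j| := by
      rw [show 2 * (i:ℝ) + 1 - (2 * (j:ℝ) + 1) = 2 * ((i:ℝ) - j) by ring, abs_mul]
      norm_num
    rw [h2, show 2 * (1 / (M:ℝ)) = 2 / M by field_simp]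
    apply div_le_div_of_nonneg_right _ hM.le
    linarith
  · intro i hi z hz
    rw [Finset.mem_Icc] at hi
    have h1 := HD_re hz
    simp only [cQ, add_re, ofReal_re, I_re, add_zero] at h1
    have h2 := abs_lt.1 h1
    have h3 : (A : ℝ) ≤ i / M := by
      rw [le_div_iff₀ hM]; exact_mod_cast hi.1
    have h4 : (i : ℝ) / M ≤ 4 * A := by
      rw [div_le_iff₀ hM]; exact_mod_cast hi.2
    have h5 : (0:ℝ) ≤ A := Nat.cast_nonneg _
    have h6 : (2 * (i:ℝ) + 1) / M = 2 * (i / M) + 1 / M := by field_simp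
    constructor <;> linarith [hrt.2, hrt.1]

lemma meas_arcB (i : ℕ) : Measurable (fun s => arcB G R M K i s) := by
  unfold arcB
  apply Measurable.lintegral_prod_right' (f := fun p : ℝ × ℝ =>
    dens G R (cP M i + ((rad (1 / (2 * M)) K p.1 : ℝ) : ℂ) * exp (((1 * p.2 : ℝ) : ℂ) * I))
      * ENNReal.ofReal (rad (1 / (2 * M)) K p.1))
  apply Measurable.mul
  · apply (measurable_dens G R).comp
    unfold rad
    fun_prop
  · unfold rad
    fun_prop

lemma meas_arcT (i : ℕ) : Measurable (fun s => arcT G R M K i s) := by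
  unfold arcT
  apply Measurable.lintegral_prod_right' (f := fun p : ℝ × ℝ =>
    dens G R (cQ M i + ((rad (1 / M) K (1 - p.1) : ℝ) : ℂ) * exp ((((-1) * p.2 : ℝ) : ℂ) * I))
      * ENNReal.ofReal (rad (1 / M) K (1 - p.1)))
  apply Measurable.mul
  · apply (measurable_dens G R).comp
    unfold rad
    fun_prop
  · unfold rad
    fun_prop

lemma meas_radL (c : ℂ) (σ ρ : ℝ) : Measurable (fun x => radL G R c σ ρ K x) := by
  unfold radL
  apply Measurable.lintegral_prod_right' (f := fun p : ℝ × ℝ =>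
    dens G R (c + (p.2 : ℂ) * exp (((σ * Real.arccos ((p.1 - c.re) / ρ) : ℝ) : ℂ) * I)))
  apply (measurable_dens G R).comp
  fun_prop

lemma meas_vertL : Measurable (fun x => vertL G R x) := by
  unfold vertL
  apply Measurable.lintegral_prod_right' (f := fun p : ℝ × ℝ =>
    dens G R ((p.1 : ℂ) + (p.2 : ℂ) * I))
  apply (measurable_dens G R).comp
  fun_prop

lemma Zone.intB (h : Zone G R d β A M K) (i : ℕ) :
    ∫⁻ s in Ioo (0:ℝ) 1, arcB G R M K i s ≤ ENNReal.ofReal (Real.sqrt (2 * Real.pi / K)) *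
      (∫⁻ z in HD (cP M i) 1 (1 / (2 * M)), dens G R z ^ 2) ^ (1 / 2 : ℝ) :=
  arcs_bound (dens G R) (measurable_dens G R) (cP M i) 1 (1 / (2 * M)) K (Or.inl rfl) h.rb.1 h.hK

lemma Zone.intT (h : Zone G R d β A M K) (i : ℕ) :
    ∫⁻ s in Ioo (0:ℝ) 1, arcT G R M K i s ≤ ENNReal.ofReal (Real.sqrt (2 * Real.pi / K)) *
      (∫⁻ z in HD (cQ M i) (-1) (1 / M), dens G R z ^ 2) ^ (1 / 2 : ℝ) := by
  have h1 := arcs_bound (dens G R) (measurable_dens G R) (cQ M i) (-1) (1 / M) K (Or.inr rfl)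
    h.rt.1 h.hK
  refine le_trans (le_of_eq ?_) h1
  rw [← lintegral_indicator measurableSet_Ioo, ← lintegral_indicator measurableSet_Ioo]
  rw [← lintegral_sub_left_eq_self _ (1:ℝ)]
  congr 1
  funext s
  by_cases hs : s ∈ Ioo (0:ℝ) 1
  · have hs' : 1 - s ∈ Ioo (0:ℝ) 1 := ⟨by linarith [hs.2], by linarith [hs.1]⟩
    rw [indicator_of_mem hs, indicator_of_mem hs']
    simp only [arcT, rad, sub_sub_cancel]
  · have hs' : 1 - s ∉ Ioo (0:ℝ) 1 := fun hc => hs ⟨by linarith [hc.2], by linarith [hc.1]⟩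
    rw [indicator_of_notMem hs, indicator_of_notMem hs']

lemma Zone.intV (h : Zone G R d β A M K) :
    ∫⁻ x in Ioo (2 * (A:ℝ)) (4 * A), vertL G R x
      ≤ ENNReal.ofReal (Real.sqrt (2 * A)) * (∫⁻ z in ZR A, dens G R z ^ 2) ^ (1 / 2 : ℝ) := by
  have hA0 : (0:ℝ) < A := by linarith [h.hR, h.hA]
  set S : Set (ℝ × ℝ) := Ioo (2 * (A:ℝ)) (4 * A) ×ˢ Ioo (0:ℝ) 1 with hS
  have hSm : MeasurableSet S := measurableSet_Ioo.prod measurableSet_Ioo
  set f : ℝ × ℝ → ℝ≥0∞ := fun p => dens G R ((p.1 : ℂ) + (p.2 : ℂ) * I) with hf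
  have hfm : Measurable f := (measurable_dens G R).comp (by fun_prop)
  have e1 : ∫⁻ x in Ioo (2 * (A:ℝ)) (4 * A), vertL G R x
      = ∫⁻ p in S, f p := by
    rw [hS, Measure.volume_eq_prod, ← Measure.prod_restrict, lintegral_prod _ hfm.aemeasurable]
    rfl
  rw [e1]
  refine (cs_aux (volume.restrict S) hfm).trans ?_
  rw [mul_comm]
  apply mul_le_mul'
  · rw [Measure.restrict_apply_univ, hS, Measure.volume_eq_prod, Measure.prod_prod,
      Real.volume_Ioo, Real.volume_Ioo, Real.sqrt_eq_rpow]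
    simp only [sub_zero, ENNReal.ofReal_one, mul_one]
    rw [show 4 * (A:ℝ) - 2 * A = 2 * A by ring]
    rw [ENNReal.ofReal_rpow_of_pos (by positivity)]
  · apply ENNReal.rpow_le_rpow _ (by norm_num)
    have e2 : ∫⁻ p in S, f p ^ 2 = ∫⁻ z in measurableEquivRealProd ⁻¹' S, dens G R z ^ 2 := by
      rw [← volume_preserving_equiv_real_prod.setLIntegral_comp_preimage_emb
        measurableEquivRealProd.measurableEmbedding]
      apply lintegral_congr
      intro z
      simp only [hf]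
      congr 2
      simp [measurableEquivRealProd_apply, re_add_im]
    rw [e2]
    apply lintegral_mono_set
    rintro z ⟨h1, h2⟩
    simp only [measurableEquivRealProd_apply, mem_Ioo] at h1
    constructor <;> linarith [h1.1, h1.2]

lemma log_ratio {ρ K : ℝ} (hρ : 0 < ρ) (hK : 0 ≤ K) :
    Real.log (ρ / rad ρ K 1) ≤ K + 2 := by
  have hpi := Real.pi_pos
  have hpi4 := Real.pi_lt_four
  have hpi3 := Real.pi_gt_three
  set y := Real.exp (-(K * 1)) with hy
  have hy0 : 0 < y := Real.exp_pos _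
  have hy1 : y ≤ 1 := by rw [hy, Real.exp_le_one_iff]; linarith
  have hat : y / 2 ≤ Real.arctan y := by
    have h1 : Real.tan (y / 2) ≤ y := by
      have hc : 0 < Real.cos (y / 2) := Real.cos_pos_of_mem_Ioo ⟨by linarith, by linarith⟩
      rw [Real.tan_eq_sin_div_cos, div_le_iff₀ hc]
      have h2 : Real.sin (y / 2) ≤ y / 2 := Real.sin_le (by positivity)
      have h3 : 1 - (y / 2) ^ 2 / 2 ≤ Real.cos (y / 2) := Real.one_sub_sq_div_two_le_cos
      have h4 : (1:ℝ) / 2 ≤ Real.cos (y / 2) := by nlinarith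
      nlinarith
    have h2 : Real.arctan (Real.tan (y / 2)) = y / 2 :=
      Real.arctan_tan (by linarith) (by linarith)
    rw [← h2]
    exact Real.arctan_strictMono.monotone h1
  have hrad : ρ / rad ρ K 1 ≤ 4 * Real.exp K := by
    unfold rad
    rw [← hy]
    have hat0 : 0 < Real.arctan y := by linarith
    rw [div_le_iff₀ (by positivity)]
    have h1 : Real.exp K * y = 1 := by rw [hy, ← Real.exp_add]; simp
    have h2 : 4 * Real.exp K * (ρ * (2 / Real.pi) * Real.arctan y)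
        ≥ 4 * Real.exp K * (ρ * (2 / Real.pi) * (y / 2)) := by
      apply mul_le_mul_of_nonneg_left _ (by positivity)
      apply mul_le_mul_of_nonneg_left hat (by positivity)
    have h3 : 4 * Real.exp K * (ρ * (2 / Real.pi) * (y / 2)) = ρ * (4 / Real.pi) := by
      calc 4 * Real.exp K * (ρ * (2 / Real.pi) * (y / 2))
          = ρ * (4 / Real.pi) * (Real.exp K * y) := by ring
        _ = ρ * (4 / Real.pi) := by rw [h1, mul_one]
    have h4 : 1 ≤ 4 / Real.pi := by rw [le_div_iff₀ hpi]; linarith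
    nlinarith
  have hpos : 0 < ρ / rad ρ K 1 := div_pos hρ (rad_pos hρ)
  calc Real.log (ρ / rad ρ K 1) ≤ Real.log (4 * Real.exp K) := Real.log_le_log hpos hrad
    _ = Real.log 4 + K := by rw [Real.log_mul (by norm_num) (Real.exp_ne_zero _), Real.log_exp]
    _ ≤ K + 2 := by
        have : Real.log 4 = 2 * Real.log 2 := by
          rw [show (4:ℝ) = 2 ^ 2 by norm_num, Real.log_pow]; norm_num
        have h2 := Real.log_two_lt_d9
        linarith

/-- the length-area estimate: every zone carries a definite amount of energy -/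
theorem Zone.energy (h : Zone G R d β A M K) (hKA : K = A * M) :
    ENNReal.ofReal (1 / 100) ≤ ∫⁻ z in ZR A, dens G R z ^ 2 := by
  by_contra hcon
  push Not at hcon
  have hM := h.Mpos
  have hM2 : (2:ℝ) ≤ M := by exact_mod_cast h.hM
  have hpi := Real.pi_pos
  have hpi3 := Real.pi_gt_three
  have hpi4 := Real.pi_lt_d2
  have hA0 : (2:ℝ) < A := by linarith [h.hR, h.hA]
  have hK4 : (4:ℝ) ≤ K := by rw [hKA]; nlinarith
  set E := ∫⁻ z in ZR A, dens G R z ^ 2 with hE
  set I := Finset.Icc (A * M) (4 * A * M) with hI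
  have hcard : (I.card : ℝ) ≤ 4 * K := by
    rw [hI, Nat.card_Icc]
    have h1 : 4 * A * M + 1 - A * M = 3 * (A * M) + 1 := by
      have : 4 * A * M = 4 * (A * M) := by ring
      omega
    rw [h1, hKA]
    push_cast
    have : (4:ℝ) ≤ A * M := by rw [← hKA]; exact hK4
    linarith
  have hcardE : ((I.card : ℝ≥0∞)) ^ (1 / 2 : ℝ) ≤ ENNReal.ofReal (Real.sqrt (4 * K)) := by
    rw [Real.sqrt_eq_rpow, ← ENNReal.ofReal_rpow_of_pos (by linarith)]
    apply ENNReal.rpow_le_rpow _ (by norm_num)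
    rw [← ENNReal.ofReal_natCast]
    exact ENNReal.ofReal_le_ofReal hcard
  have hEs : E ^ (1 / 2 : ℝ) ≤ ENNReal.ofReal (1 / 10) := by
    have h1 : E ^ (1 / 2 : ℝ) ≤ (ENNReal.ofReal (1 / 100)) ^ (1 / 2 : ℝ) :=
      ENNReal.rpow_le_rpow hcon.le (by norm_num)
    refine h1.trans (le_of_eq ?_)
    rw [ENNReal.ofReal_rpow_of_pos (by norm_num), ← Real.sqrt_eq_rpow]
    congr 1
    rw [show (1:ℝ) / 100 = (1 / 10) ^ 2 by norm_num]
    exact Real.sqrt_sq (by norm_num)
  -- sums of square roots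
  have sB : ∑ i ∈ I, (∫⁻ z in HD (cP M i) 1 (1 / (2 * M)), dens G R z ^ 2) ^ (1 / 2 : ℝ)
      ≤ ENNReal.ofReal (Real.sqrt (4 * K)) * ENNReal.ofReal (1 / 10) :=
    (sum_sqrt_le I _ E h.sumB).trans (mul_le_mul' hcardE hEs)
  have sT : ∑ i ∈ I, (∫⁻ z in HD (cQ M i) (-1) (1 / M), dens G R z ^ 2) ^ (1 / 2 : ℝ)
      ≤ ENNReal.ofReal (Real.sqrt (4 * K)) * ENNReal.ofReal (1 / 10) :=
    (sum_sqrt_le I _ E h.sumT).trans (mul_le_mul' hcardE hEs)
  -- arcs
  have hsK : Real.sqrt (2 * Real.pi / K) * Real.sqrt (4 * K) ≤ 6 := by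
    rw [← Real.sqrt_mul (by positivity)]
    rw [show 2 * Real.pi / K * (4 * K) = 8 * Real.pi by field_simp; ring]
    rw [Real.sqrt_le_left (by norm_num)]
    linarith
  have cA : ∫⁻ s in Ioo (0:ℝ) 1, ∑ i ∈ I, (arcB G R M K i s + arcT G R M K i s)
      ≤ ENNReal.ofReal (6 / 5) := by
    rw [lintegral_finsetSum]
    swap
    · intro i _
      exact (meas_arcB i).add (meas_arcT i)
    have h1 : ∀ i ∈ I, ∫⁻ s in Ioo (0:ℝ) 1, (arcB G R M K i s + arcT G R M K i s)
        ≤ ENNReal.ofReal (Real.sqrt (2 * Real.pi / K)) *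
          (∫⁻ z in HD (cP M i) 1 (1 / (2 * M)), dens G R z ^ 2) ^ (1 / 2 : ℝ)
        + ENNReal.ofReal (Real.sqrt (2 * Real.pi / K)) *
          (∫⁻ z in HD (cQ M i) (-1) (1 / M), dens G R z ^ 2) ^ (1 / 2 : ℝ) := by
      intro i _
      rw [lintegral_add_left (meas_arcB i)]
      exact add_le_add (h.intB i) (h.intT i)
    refine (Finset.sum_le_sum h1).trans ?_
    rw [Finset.sum_add_distrib, ← Finset.mul_sum, ← Finset.mul_sum]
    refine (add_le_add (mul_le_mul' le_rfl sB) (mul_le_mul' le_rfl sT)).trans ?_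
    rw [← mul_assoc, ← ENNReal.ofReal_mul (Real.sqrt_nonneg _),
      ← ENNReal.ofReal_mul (by positivity), ← ENNReal.ofReal_add (by positivity) (by positivity)]
    apply ENNReal.ofReal_le_ofReal
    nlinarith
  -- pointwise in x
  set colB : ℕ → Set ℝ := fun k => Ioo ((cP M k).re - 1 / (2 * M)) ((cP M k).re + 1 / (2 * M))
    with hcolB
  set colT : ℕ → Set ℝ := fun k => Ioo ((cQ M k).re - 1 / M) ((cQ M k).re + 1 / M) with hcolT
  set W : ℝ → ℝ≥0∞ := fun x => vertL G R x
    + ∑ k ∈ I, (colB k).indicator (fun x => radL G R (cP M k) 1 (1 / (2 * M)) K x) x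
    + ∑ k ∈ I, (colT k).indicator (fun x => radL G R (cQ M k) (-1) (1 / M) K x) x with hW
  have hpt : ∀ x ∈ Ioo (2 * (A:ℝ)) (4 * A), (∀ n : ℤ, 2 * (M : ℝ) * x ≠ n) →
      ENNReal.ofReal (2 * Real.pi) ≤ W x + ENNReal.ofReal (6 / 5) := by
    intro x hx hgen
    have h1 : ∀ s ∈ Ioo (0:ℝ) 1, ENNReal.ofReal (2 * Real.pi)
        ≤ W x + ∑ i ∈ I, (arcB G R M K i s + arcT G R M K i s) := by
      intro s hs
      obtain ⟨j, k, hj, hjk, hk, hxk, hxj, hle⟩ := h.length hx hgen hs
      refine hle.trans ?_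
      have hkI : k ∈ I := Finset.mem_Icc.2 ⟨by omega, hk⟩
      have hjI : j ∈ I := Finset.mem_Icc.2 ⟨hj, by omega⟩
      have c1 : radL G R (cP M k) 1 (1 / (2 * M)) K x
          ≤ ∑ k ∈ I, (colB k).indicator (fun x => radL G R (cP M k) 1 (1 / (2 * M)) K x) x := by
        have hm : x ∈ colB k := by
          have := abs_lt.1 hxk
          exact ⟨by linarith, by linarith⟩
        have := Finset.single_le_sum (f := fun k =>
          (colB k).indicator (fun x => radL G R (cP M k) 1 (1 / (2 * M)) K x) x)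
          (fun i _ => zero_le) hkI
        rw [indicator_of_mem hm] at this
        exact this
      have c2 : radL G R (cQ M j) (-1) (1 / M) K x
          ≤ ∑ k ∈ I, (colT k).indicator (fun x => radL G R (cQ M k) (-1) (1 / M) K x) x := by
        have hm : x ∈ colT j := by
          have := abs_lt.1 hxj
          exact ⟨by linarith, by linarith⟩
        have := Finset.single_le_sum (f := fun k =>
          (colT k).indicator (fun x => radL G R (cQ M k) (-1) (1 / M) K x) x)
          (fun i _ => zero_le) hjI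
        rw [indicator_of_mem hm] at this
        exact this
      have c3 : ∑ i ∈ Finset.Icc j k, (arcB G R M K i s + arcT G R M K i s)
          ≤ ∑ i ∈ I, (arcB G R M K i s + arcT G R M K i s) := by
        apply Finset.sum_le_sum_of_subset
        exact Finset.Icc_subset_Icc hj hk
      exact add_le_add (add_le_add (add_le_add le_rfl c1) c2) c3
    have h2 : ∫⁻ _ in Ioo (0:ℝ) 1, ENNReal.ofReal (2 * Real.pi)
        ≤ ∫⁻ s in Ioo (0:ℝ) 1, (W x + ∑ i ∈ I, (arcB G R M K i s + arcT G R M K i s)) :=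
      setLIntegral_mono' measurableSet_Ioo h1
    rw [lintegral_add_left measurable_const] at h2
    simp only [lintegral_const, MeasurableSet.univ, Measure.restrict_apply, univ_inter,
      Real.volume_Ioo, sub_zero, ENNReal.ofReal_one, mul_one] at h2
    exact h2.trans (add_le_add le_rfl cA)
  -- integrate in x
  have hnull : ∀ᵐ x : ℝ, ∀ n : ℤ, 2 * (M : ℝ) * x ≠ n := by
    have hc : (⋃ n : ℤ, {(n : ℝ) / (2 * M)}).Countable := countable_iUnion fun n => countable_singleton _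
    have := hc.ae_notMem (volume : Measure ℝ)
    filter_upwards [this] with x hx n hn
    apply hx
    rw [mem_iUnion]
    refine ⟨n, ?_⟩
    rw [mem_singleton_iff, ← hn]
    field_simp
  have h3 : ∫⁻ _ in Ioo (2 * (A:ℝ)) (4 * A), ENNReal.ofReal (2 * Real.pi)
      ≤ ∫⁻ x in Ioo (2 * (A:ℝ)) (4 * A), (W x + ENNReal.ofReal (6 / 5)) := by
    apply lintegral_mono_ae
    rw [ae_restrict_iff' measurableSet_Ioo]
    filter_upwards [hnull] with x hx hmem
    exact hpt x hmem hx
  rw [lintegral_add_right _ measurable_const] at h3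
  simp only [lintegral_const, MeasurableSet.univ, Measure.restrict_apply, univ_inter,
    Real.volume_Ioo] at h3
  rw [show 4 * (A:ℝ) - 2 * A = 2 * A by ring] at h3
  -- bound the integral of W
  have mB : ∀ k, Measurable ((colB k).indicator
      (fun x => radL G R (cP M k) 1 (1 / (2 * M)) K x)) :=
    fun k => (meas_radL _ _ _).indicator measurableSet_Ioo
  have mT : ∀ k, Measurable ((colT k).indicator
      (fun x => radL G R (cQ M k) (-1) (1 / M) K x)) :=
    fun k => (meas_radL _ _ _).indicator measurableSet_Ioo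
  have hlogB := log_ratio h.rb.1 h.hK.le (K := K)
  have hlogT := log_ratio h.rt.1 h.hK.le (K := K)
  have hsq : ∀ L : ℝ, L ≤ K + 2 → Real.sqrt (Real.pi * L) * Real.sqrt (4 * K) ≤ 5 * K := by
    intro L hL
    have h5 : Real.sqrt (Real.pi * L) ≤ Real.sqrt (Real.pi * (3 / 2 * K)) := by
      apply Real.sqrt_le_sqrt
      apply mul_le_mul_of_nonneg_left _ hpi.le
      linarith
    refine (mul_le_mul_of_nonneg_right h5 (Real.sqrt_nonneg _)).trans ?_
    rw [← Real.sqrt_mul (by positivity)]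
    rw [Real.sqrt_le_left (by positivity)]
    nlinarith
  have iB : ∫⁻ x in Ioo (2 * (A:ℝ)) (4 * A),
      ∑ k ∈ I, (colB k).indicator (fun x => radL G R (cP M k) 1 (1 / (2 * M)) K x) x
      ≤ ENNReal.ofReal (A / 4) := by
    rw [lintegral_finsetSum _ (fun k _ => mB k)]
    have h5 : ∀ k ∈ I, ∫⁻ x in Ioo (2 * (A:ℝ)) (4 * A),
        (colB k).indicator (fun x => radL G R (cP M k) 1 (1 / (2 * M)) K x) x
        ≤ ENNReal.ofReal (1 / (2 * M) * Real.sqrt (Real.pi *
            Real.log ((1 / (2 * M)) / rad (1 / (2 * M)) K 1))) *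
          (∫⁻ z in HD (cP M k) 1 (1 / (2 * M)), dens G R z ^ 2) ^ (1 / 2 : ℝ) := by
      intro k _
      have h6 : ∫⁻ x in Ioo (2 * (A:ℝ)) (4 * A),
          (colB k).indicator (fun x => radL G R (cP M k) 1 (1 / (2 * M)) K x) x
          ≤ ∫⁻ x in colB k, radL G R (cP M k) 1 (1 / (2 * M)) K x := by
        refine (setLIntegral_le_lintegral _ _).trans ?_
        rw [lintegral_indicator measurableSet_Ioo]
      refine h6.trans ?_
      exact radial_bound (dens G R) (measurable_dens G R) (cP M k) 1 (1 / (2 * M))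
        (rad (1 / (2 * M)) K 1) (Or.inl rfl) (rad_pos h.rb.1)
        (by have := rad_le (K := K) (s := 1) h.rb.1 h.hK.le (by norm_num); linarith [h.rb.1])
    refine (Finset.sum_le_sum h5).trans ?_
    rw [← Finset.mul_sum]
    refine (mul_le_mul' le_rfl sB).trans ?_
    rw [← mul_assoc, ← ENNReal.ofReal_mul (by positivity), ← ENNReal.ofReal_mul (by positivity)]
    apply ENNReal.ofReal_le_ofReal
    have h7 := hsq _ hlogB
    have h8 : 1 / (2 * (M:ℝ)) * Real.sqrt (Real.pi *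
            Real.log ((1 / (2 * M)) / rad (1 / (2 * M)) K 1)) * Real.sqrt (4 * K)
        ≤ 1 / (2 * (M:ℝ)) * (5 * K) := by
      rw [mul_assoc]
      exact mul_le_mul_of_nonneg_left h7 h.rb.1.le
    have h9 : 1 / (2 * (M:ℝ)) * (5 * K) = 5 / 2 * A := by rw [hKA]; field_simp
    rw [h9] at h8
    linarith
  have iT : ∫⁻ x in Ioo (2 * (A:ℝ)) (4 * A),
      ∑ k ∈ I, (colT k).indicator (fun x => radL G R (cQ M k) (-1) (1 / M) K x) x
      ≤ ENNReal.ofReal (A / 2) := by
    rw [lintegral_finsetSum _ (fun k _ => mT k)]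
    have h5 : ∀ k ∈ I, ∫⁻ x in Ioo (2 * (A:ℝ)) (4 * A),
        (colT k).indicator (fun x => radL G R (cQ M k) (-1) (1 / M) K x) x
        ≤ ENNReal.ofReal (1 / M * Real.sqrt (Real.pi *
            Real.log ((1 / M) / rad (1 / M) K 1))) *
          (∫⁻ z in HD (cQ M k) (-1) (1 / M), dens G R z ^ 2) ^ (1 / 2 : ℝ) := by
      intro k _
      have h6 : ∫⁻ x in Ioo (2 * (A:ℝ)) (4 * A),
          (colT k).indicator (fun x => radL G R (cQ M k) (-1) (1 / M) K x) x
          ≤ ∫⁻ x in colT k, radL G R (cQ M k) (-1) (1 / M) K x := by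
        refine (setLIntegral_le_lintegral _ _).trans ?_
        rw [lintegral_indicator measurableSet_Ioo]
      refine h6.trans ?_
      exact radial_bound (dens G R) (measurable_dens G R) (cQ M k) (-1) (1 / M)
        (rad (1 / M) K 1) (Or.inr rfl) (rad_pos h.rt.1)
        (by have := rad_le (K := K) (s := 1) h.rt.1 h.hK.le (by norm_num); linarith [h.rt.1])
    refine (Finset.sum_le_sum h5).trans ?_
    rw [← Finset.mul_sum]
    refine (mul_le_mul' le_rfl sT).trans ?_
    rw [← mul_assoc, ← ENNReal.ofReal_mul (by positivity), ← ENNReal.ofReal_mul (by positivity)]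
    apply ENNReal.ofReal_le_ofReal
    have h7 := hsq _ hlogT
    have h8 : 1 / (M:ℝ) * Real.sqrt (Real.pi *
            Real.log ((1 / M) / rad (1 / M) K 1)) * Real.sqrt (4 * K)
        ≤ 1 / (M:ℝ) * (5 * K) := by
      rw [mul_assoc]
      exact mul_le_mul_of_nonneg_left h7 h.rt.1.le
    have h9 : 1 / (M:ℝ) * (5 * K) = 5 * A := by rw [hKA]; field_simp
    rw [h9] at h8
    linarith
  have iV : ∫⁻ x in Ioo (2 * (A:ℝ)) (4 * A), vertL G R x ≤ ENNReal.ofReal (A / 5) := by
    refine h.intV.trans ?_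
    refine (mul_le_mul' le_rfl hEs).trans ?_
    rw [← ENNReal.ofReal_mul (by positivity)]
    apply ENNReal.ofReal_le_ofReal
    have : Real.sqrt (2 * A) ≤ 2 * A := by
      rw [Real.sqrt_le_left (by positivity)]
      nlinarith
    linarith
  have iW : ∫⁻ x in Ioo (2 * (A:ℝ)) (4 * A), W x ≤ ENNReal.ofReal A := by
    simp only [hW]
    rw [lintegral_add_right _ (Finset.measurable_fun_sum _ fun k _ => mT k),
      lintegral_add_right _ (Finset.measurable_fun_sum _ fun k _ => mB k)]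
    refine (add_le_add (add_le_add iV iB) iT).trans ?_
    rw [← ENNReal.ofReal_add (by positivity) (by positivity),
      ← ENNReal.ofReal_add (by positivity) (by positivity)]
    apply ENNReal.ofReal_le_ofReal
    linarith
  have h4 := h3.trans (add_le_add iW le_rfl)
  rw [← ENNReal.ofReal_mul (by positivity), ← ENNReal.ofReal_mul (by positivity),
    ← ENNReal.ofReal_add (by positivity) (by positivity),
    ENNReal.ofReal_le_ofReal_iff (by positivity)] at h4
  nlinarith

end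

end Pool.Agent.Helper647.Sew
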