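import Mathlib
import Pool.Agent.Helper647.SewAlpha
import Pool.Agent.Helper647.SewBeta
import Pool.Agent.Helper647.SewEnds
import Pool.Agent.Helper647.SewLA

set_option autoImplicit false

open Set Filter Topology Complex MeasureTheory
open scoped ENNReal Manifold ContDiff

namespace Pool.Agent.Helper647.Sew

/-- large exponent -/
noncomputable def KK (M : ℕ → ℕ) (n : ℕ) : ℝ := ((16 ^ n : ℕ) : ℝ) * M n

/-- the amplitude -/
noncomputable def aa (M : ℕ → ℕ) (n : ℕ) : ℝ :=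
  (Real.exp (KK M n) - 1) / (Real.exp (KK M n) + 1)

/-- frequency on the unit cell `N` -/
def mF (M : ℕ → ℕ) (N : ℕ) : ℕ := M (Nat.log 16 N)

/-- amplitude on the unit cell `N` -/
noncomputable def aF (M : ℕ → ℕ) (N : ℕ) : ℝ :=
  if 1 ≤ Nat.log 16 N ∧ N < 4 * 16 ^ (Nat.log 16 N) then aa M (Nat.log 16 N) else 0

section

variable {M : ℕ → ℕ}

lemma KK_pos (hM : ∀ n, 2 ≤ M n) (n : ℕ) : 0 < KK M n := by
  have h : 0 < M n := by have := hM n; omega
  have h2 : (0:ℝ) < M n := by exact_mod_cast h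
  unfold KK
  push_cast
  positivity

lemma aa_nonneg (hM : ∀ n, 2 ≤ M n) (n : ℕ) : 0 ≤ aa M n := by
  have h := Real.one_lt_exp_iff.2 (KK_pos hM n)
  unfold aa
  apply div_nonneg <;> linarith

lemma aa_lt_one (n : ℕ) : aa M n < 1 := by
  have h := Real.exp_pos (KK M n)
  unfold aa
  rw [div_lt_one (by linarith)]
  linarith

lemma aa_ratio (n : ℕ) : (1 + aa M n) / (1 - aa M n) = Real.exp (KK M n) := by
  have h := Real.exp_pos (KK M n)
  unfold aa
  have h2 : Real.exp (KK M n) + 1 ≠ 0 := by linarith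
  field_simp
  ring

lemma par (hM : ∀ n, 2 ≤ M n) : Par (mF M) (aF M) := by
  refine ⟨fun n => ?_, fun n => ?_, fun n => ?_, fun n => ?_⟩
  · unfold mF; have := hM (Nat.log 16 n); omega
  · unfold aF; split_ifs
    · exact aa_nonneg hM _
    · exact le_rfl
  · unfold aF; split_ifs
    · exact aa_lt_one _
    · exact one_pos
  · by_cases h : Nat.log 16 (n + 1) = Nat.log 16 n
    · left; unfold mF; rw [h]
    · right; left
      have h1 : Nat.log 16 n ≤ Nat.log 16 (n + 1) := Nat.log_mono_right (by omega)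
      have h2 : Nat.log 16 n + 1 ≤ Nat.log 16 (n + 1) := by omega
      have h3 : 16 ^ (Nat.log 16 n + 1) ≤ n + 1 :=
        (Nat.pow_le_pow_right (by norm_num) h2).trans (Nat.pow_log_le_self 16 (by omega))
      unfold aF
      rw [if_neg]
      rintro ⟨-, h4⟩
      have h5 : 0 < 16 ^ (Nat.log 16 n) := by positivity
      rw [pow_succ] at h3
      omega

lemma bet_zone {n : ℕ} (hn : 1 ≤ n) {x : ℝ} (h1 : ((16 ^ n : ℕ) : ℝ) ≤ x)
    (h2 : x < 4 * ((16 ^ n : ℕ) : ℝ)) : bet (mF M) (aF M) x = BB (M n) (aa M n) x := by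
  have hx0 : 0 ≤ x := le_trans (by positivity) h1
  have h3 : 16 ^ n ≤ ⌊x⌋₊ := Nat.le_floor h1
  have h4 : ⌊x⌋₊ < 4 * 16 ^ n := by
    rw [Nat.floor_lt hx0]
    push_cast
    push_cast at h2
    exact h2
  have h5 : Nat.log 16 ⌊x⌋₊ = n := by
    rw [Nat.log_eq_iff (Or.inl (by omega))]
    refine ⟨h3, ?_⟩
    rw [pow_succ]
    omega
  unfold bet mF aF
  rw [h5, if_pos ⟨hn, h4⟩]

lemma bet_close (hM : ∀ n, 2 ≤ M n) {ε : ℝ → ℝ} (hε : ∀ x, 0 < x → 0 < ε x)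
    (hMε : ∀ n, ∀ x ∈ Icc ((16 ^ n : ℕ) : ℝ) (4 * ((16 ^ n : ℕ) : ℝ)), 1 / (M n : ℝ) < ε x)
    {x : ℝ} (hx : 0 < x) : |bet (mF M) (aF M) x - 2 * x| < ε x := by
  by_cases h : 1 ≤ Nat.log 16 ⌊x⌋₊ ∧ ⌊x⌋₊ < 4 * 16 ^ (Nat.log 16 ⌊x⌋₊)
  · set n := Nat.log 16 ⌊x⌋₊ with hn
    have h0 : ⌊x⌋₊ ≠ 0 := by
      intro h0
      rw [h0] at hn
      simp at hn
      omega
    have h1 : 16 ^ n ≤ ⌊x⌋₊ := Nat.pow_log_le_self 16 h0
    have h2 : ((16 ^ n : ℕ) : ℝ) ≤ x := le_trans (by exact_mod_cast h1) (Nat.floor_le hx.le)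
    have h3 : x < 4 * ((16 ^ n : ℕ) : ℝ) := by
      have h4 : ⌊x⌋₊ + 1 ≤ 4 * 16 ^ n := h.2
      have h5 : ((⌊x⌋₊ + 1 : ℕ) : ℝ) ≤ ((4 * 16 ^ n : ℕ) : ℝ) := by exact_mod_cast h4
      have h6 := Nat.lt_floor_add_one x
      push_cast at h5 ⊢
      linarith
    rw [bet_zone h.1 h2 h3]
    have := hM n
    exact lt_of_le_of_lt (BB_close (by omega) (aa_nonneg hM n) (aa_lt_one n) x)
      (hMε n x ⟨h2, h3.le⟩)
  · have : bet (mF M) (aF M) x = 2 * x := by
      unfold bet aF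
      rw [if_neg h, BB_zero]
    rw [this, sub_self, abs_zero]
    exact hε x hx

lemma rad_facts (n : ℕ) (hM : ∀ n, 2 ≤ M n) {s : ℝ} (hs : s ∈ Ioo (0:ℝ) 1) :
    0 < rad (1 / (2 * M n)) (KK M n) s ∧ rad (1 / (2 * M n)) (KK M n) s < 1 / M n ∧
    Real.pi * M n * rad (1 / (2 * M n)) (KK M n) s = Real.arctan (Real.exp (-(KK M n * s))) := by
  have hMp : (0:ℝ) < M n := by
    have := hM n
    exact_mod_cast (by omega : 0 < M n)
  have hpi := Real.pi_pos
  have e1 : 0 < Real.arctan (Real.exp (-(KK M n * s))) := Real.arctan_pos.2 (Real.exp_pos _)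
  have e2 := Real.arctan_lt_pi_div_two (Real.exp (-(KK M n * s)))
  have e3 : rad (1 / (2 * M n)) (KK M n) s
      = Real.arctan (Real.exp (-(KK M n * s))) / (Real.pi * M n) := by
    unfold rad; field_simp
  rw [e3]
  refine ⟨by positivity, ?_, by field_simp⟩
  rw [div_lt_div_iff₀ (by positivity) hMp, one_mul]
  apply mul_lt_mul_of_pos_right _ hMp
  linarith

lemma rad_facts2 (n : ℕ) (hM : ∀ n, 2 ≤ M n) (s : ℝ) :
    2 / (Real.pi * M n) * Real.arctan (Real.exp (KK M n * (1 - s)))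
      = 1 / M n - rad (1 / M n) (KK M n) (1 - s) := by
  have hMp : (0:ℝ) < M n := by
    have := hM n
    exact_mod_cast (by omega : 0 < M n)
  have hpi := Real.pi_pos
  have e1 : Real.arctan (Real.exp (KK M n * (1 - s)))
      = Real.pi / 2 - Real.arctan (Real.exp (-(KK M n * (1 - s)))) := by
    rw [Real.exp_neg, Real.arctan_inv_of_pos (Real.exp_pos _)]
    ring
  rw [e1]
  unfold rad
  field_simp

lemma zone1 (hM : ∀ n, 2 ≤ M n) {n : ℕ} (hn : 1 ≤ n) {k : ℕ} (h1 : 16 ^ n * M n < k)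
    (h2 : k ≤ 4 * 16 ^ n * M n) {s : ℝ} (hs : s ∈ Ioo (0:ℝ) 1) :
    bet (mF M) (aF M) ((k : ℝ) / M n - rad (1 / (2 * M n)) (KK M n) s)
      = (2 * (k : ℝ) - 1) / M n + rad (1 / M n) (KK M n) (1 - s) := by
  have hMp : (0:ℝ) < M n := by
    have := hM n
    exact_mod_cast (by omega : 0 < M n)
  have hpi := Real.pi_pos
  obtain ⟨r1, r2, r3⟩ := rad_facts n hM hs
  set r := rad (1 / (2 * M n)) (KK M n) s with hr
  have h3 : ((16 ^ n * M n + 1 : ℕ) : ℝ) ≤ k := by exact_mod_cast h1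
  have h4 : (k : ℝ) ≤ ((4 * 16 ^ n * M n : ℕ) : ℝ) := by exact_mod_cast h2
  push_cast at h3 h4
  have h5 : ((16 ^ n : ℕ) : ℝ) + 1 / M n ≤ k / M n := by
    rw [le_div_iff₀ hMp]
    push_cast
    have : (((16:ℝ) ^ n) + 1 / M n) * M n = 16 ^ n * M n + 1 := by field_simp
    rw [this]; exact h3
  have h6 : (k : ℝ) / M n ≤ 4 * ((16 ^ n : ℕ) : ℝ) := by
    rw [div_le_iff₀ hMp]
    push_cast
    exact h4
  rw [bet_zone hn (by linarith) (by linarith)]
  have h7 : |Real.pi * M n * (-r)| < Real.pi / 2 := by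
    rw [mul_neg, abs_neg, r3, abs_of_pos (Real.arctan_pos.2 (Real.exp_pos _))]
    exact Real.arctan_lt_pi_div_two _
  have h8 := BB_tan (by have := hM n; omega) (aa_nonneg hM n) (aa_lt_one n) (k : ℤ) h7
  have h9 : ((k : ℤ) : ℝ) / M n + -r = k / M n - r := by push_cast; ring
  rw [h9] at h8
  rw [h8, mul_neg, r3, Real.tan_neg, Real.tan_arctan, aa_ratio, mul_neg, ← Real.exp_add,
    Real.arctan_neg]
  have h10 : KK M n + -(KK M n * s) = KK M n * (1 - s) := by ring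
  rw [h10, mul_neg, rad_facts2 n hM s]
  push_cast
  ring

lemma zone2 (hM : ∀ n, 2 ≤ M n) {n : ℕ} (hn : 1 ≤ n) {k : ℕ} (h1 : 16 ^ n * M n < k)
    (h2 : k < 4 * 16 ^ n * M n) {s : ℝ} (hs : s ∈ Ioo (0:ℝ) 1) :
    bet (mF M) (aF M) ((k : ℝ) / M n + rad (1 / (2 * M n)) (KK M n) s)
      = (2 * (k : ℝ) + 1) / M n - rad (1 / M n) (KK M n) (1 - s) := by
  have hMp : (0:ℝ) < M n := by
    have := hM n
    exact_mod_cast (by omega : 0 < M n)
  have hpi := Real.pi_pos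
  obtain ⟨r1, r2, r3⟩ := rad_facts n hM hs
  set r := rad (1 / (2 * M n)) (KK M n) s with hr
  have h3 : ((16 ^ n * M n + 1 : ℕ) : ℝ) ≤ k := by exact_mod_cast h1
  have h4 : ((k + 1 : ℕ) : ℝ) ≤ ((4 * 16 ^ n * M n : ℕ) : ℝ) := by exact_mod_cast h2
  push_cast at h3 h4
  have h5 : ((16 ^ n : ℕ) : ℝ) + 1 / M n ≤ k / M n := by
    rw [le_div_iff₀ hMp]
    push_cast
    have : (((16:ℝ) ^ n) + 1 / M n) * M n = 16 ^ n * M n + 1 := by field_simp
    rw [this]; exact h3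
  have h6 : (k : ℝ) / M n + 1 / M n ≤ 4 * ((16 ^ n : ℕ) : ℝ) := by
    rw [← add_div, div_le_iff₀ hMp]
    push_cast
    exact h4
  have h6' : (0:ℝ) < 1 / M n := by positivity
  rw [bet_zone hn (by linarith) (by linarith)]
  have h7 : |Real.pi * M n * r| < Real.pi / 2 := by
    rw [r3, abs_of_pos (Real.arctan_pos.2 (Real.exp_pos _))]
    exact Real.arctan_lt_pi_div_two _
  have h8 := BB_tan (by have := hM n; omega) (aa_nonneg hM n) (aa_lt_one n) (k : ℤ) h7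
  have h9 : ((k : ℤ) : ℝ) / M n + r = k / M n + r := by push_cast; ring
  rw [h9] at h8
  rw [h8, r3, Real.tan_arctan, aa_ratio, ← Real.exp_add]
  have h10 : KK M n + -(KK M n * s) = KK M n * (1 - s) := by ring
  rw [h10, rad_facts2 n hM s]
  push_cast
  ring

lemma dens_sq (G : ℂ → ℂ) (R : ℝ) :
    ∫⁻ z, dens G R z ^ 2 = ∫⁻ z in HS R, ‖deriv G z‖ₑ ^ 2 := by
  rw [← lintegral_indicator (isOpen_HS R).measurableSet]
  apply lintegral_congr
  intro z
  unfold dens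
  by_cases hz : z ∈ HS R
  · rw [indicator_of_mem hz, indicator_of_mem hz]
  · rw [indicator_of_notMem hz, indicator_of_notMem hz]; simp

/-- the constructed sewing never has a hyperbolic end -/
theorem not_hyperbolic (hM : ∀ n, 2 ≤ M n) {X : Type} [TopologicalSpace X] [ChartedSpace ℂ X]
    {q : ℂ → X} (hg : IsGenerated (bet (mF M) (aF M)) 0 X q) : ¬ HasHyperbolicEnd 0 X q := by
  intro hyp
  obtain ⟨G, R, ρ, d, hR, hd, hGc, hGd, hglue, hint⟩ := hg.package (par hM).sewing hyp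
  obtain ⟨n0, hn0⟩ : ∃ n0 : ℕ, R + 2 ≤ (16:ℝ) ^ n0 :=
    (pow_unbounded_of_one_lt (R + 2) (by norm_num : (1:ℝ) < 16)).imp fun _ h => h.le
  set N : ℕ → ℕ := fun j => 16 ^ (j + (n0 + 1)) with hN
  have hen : ∀ j, ENNReal.ofReal (1 / 100) ≤ ∫⁻ z in ZR (N j), dens G R z ^ 2 := by
    intro j
    have hz : Zone G R d (bet (mF M) (aF M)) (N j) (M (j + (n0 + 1))) (KK M (j + (n0 + 1))) := by
      refine ⟨hR, hGc, hGd, hd, hglue, hM _, ?_, KK_pos hM _, ?_, ?_⟩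
      · have : (16:ℝ) ^ n0 ≤ 16 ^ (j + (n0 + 1)) :=
          pow_le_pow_right₀ (by norm_num) (by omega)
        rw [hN]
        push_cast
        linarith
      · intro k h1 h2 s hs
        exact zone1 hM (by omega) h1 h2 hs
      · intro k h1 h2 s hs
        exact zone2 hM (by omega) h1 h2 hs
    exact hz.energy rfl
  have hmeas : ∀ j, MeasurableSet (ZR (N j)) := by
    intro j
    unfold ZR
    exact ((isOpen_lt continuous_const continuous_re).inter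
      (isOpen_lt continuous_re continuous_const)).measurableSet
  have hlt : ∀ i j, i < j → Disjoint (ZR (N i)) (ZR (N j)) := by
    intro i j hij
    rw [Set.disjoint_left]
    rintro z ⟨-, h1⟩ ⟨h2, -⟩
    have h3 : 16 * N i ≤ N j := by
      rw [hN]
      calc 16 * 16 ^ (i + (n0 + 1)) = 16 ^ (i + (n0 + 1) + 1) := by ring
        _ ≤ 16 ^ (j + (n0 + 1)) := Nat.pow_le_pow_right (by norm_num) (by omega)
    have h4 : 1 ≤ N i := Nat.one_le_pow _ _ (by norm_num)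
    have h5 : (16:ℝ) * N i ≤ N j := by exact_mod_cast h3
    have h6 : (1:ℝ) ≤ N i := by exact_mod_cast h4
    linarith
  have hdisj : Pairwise (Function.onFun Disjoint fun j => ZR (N j)) := by
    intro i j hij
    rcases lt_or_gt_of_ne hij with h | h
    · exact hlt i j h
    · exact (hlt j i h).symm
  have h1 : ∑' j, ∫⁻ z in ZR (N j), dens G R z ^ 2 ≤ ENNReal.ofReal (Real.pi * ρ ^ 2) := by
    rw [← lintegral_iUnion hmeas hdisj]
    refine (setLIntegral_le_lintegral _ _).trans ?_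
    rw [dens_sq]
    exact hint
  have h2 : (∑' _ : ℕ, ENNReal.ofReal (1 / 100)) = ⊤ := by
    apply ENNReal.tsum_const_eq_top_of_ne_zero
    simp
  have h3 : (∑' _ : ℕ, ENNReal.ofReal (1 / 100)) ≤ ENNReal.ofReal (Real.pi * ρ ^ 2) :=
    (ENNReal.tsum_le_tsum hen).trans h1
  rw [h2, top_le_iff] at h3
  exact ENNReal.ofReal_ne_top h3

end

lemma exists_M {ε : ℝ → ℝ} (hεc : ContinuousOn ε (Ioi 0)) (hε : ∀ x, 0 < x → 0 < ε x) :
    ∃ M : ℕ → ℕ, (∀ n, 2 ≤ M n) ∧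
      ∀ n, ∀ x ∈ Icc ((16 ^ n : ℕ) : ℝ) (4 * ((16 ^ n : ℕ) : ℝ)), 1 / (M n : ℝ) < ε x := by
  have key : ∀ n : ℕ, ∃ m : ℕ, 2 ≤ m ∧
      ∀ x ∈ Icc ((16 ^ n : ℕ) : ℝ) (4 * ((16 ^ n : ℕ) : ℝ)), 1 / (m : ℝ) < ε x := by
    intro n
    have hpos : (0:ℝ) < ((16 ^ n : ℕ) : ℝ) := by positivity
    have hsub : Icc ((16 ^ n : ℕ) : ℝ) (4 * ((16 ^ n : ℕ) : ℝ)) ⊆ Ioi 0 := by
      intro x hx
      exact lt_of_lt_of_le hpos hx.1
    obtain ⟨x0, hx0, hmin⟩ := isCompact_Icc.exists_isMinOn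
      (nonempty_Icc.2 (by linarith : ((16 ^ n : ℕ) : ℝ) ≤ 4 * ((16 ^ n : ℕ) : ℝ)))
      (hεc.mono hsub)
    have h0 := hε x0 (hsub hx0)
    obtain ⟨m, hm⟩ := exists_nat_one_div_lt h0
    refine ⟨m + 2, by omega, fun x hx => ?_⟩
    have h1 : ε x0 ≤ ε x := hmin hx
    have h2 : 1 / (((m + 2 : ℕ)) : ℝ) ≤ 1 / ((m : ℝ) + 1) := by
      apply one_div_le_one_div_of_le (by positivity)
      push_cast
      linarith
    linarith
  choose M h1 h2 using key
  exact ⟨M, h1, h2⟩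

/-- hyperbolicity of conformal sewings is not stable -/
theorem unstable :
    ∃ (α : ℝ → ℝ) (a : ℝ), IsConformalSewing α a ∧
      (∀ (X : Type) [TopologicalSpace X] [ChartedSpace ℂ X] (q : ℂ → X),
        IsGenerated α a X q → HasHyperbolicEnd a X q) ∧
      ∀ ε : ℝ → ℝ, ContinuousOn ε (Ioi 0) → (∀ x, 0 < x → 0 < ε x) →
        ∃ (β : ℝ → ℝ) (b : ℝ), IsConformalSewing β b ∧
          (∀ x, 0 < x → |β x - α x| < ε x) ∧
          ∀ (X : Type) [TopologicalSpace X] [ChartedSpace ℂ X] (q : ℂ → X),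
            IsGenerated β b X q → ¬ HasHyperbolicEnd b X q := by
  refine ⟨dbl, 0, dbl_conformal, dbl_hyperbolic, fun ε hεc hε => ?_⟩
  obtain ⟨M, hM, hMε⟩ := exists_M hεc hε
  refine ⟨bet (mF M) (aF M), 0, (par hM).conformal, fun x hx => ?_, ?_⟩
  · exact bet_close hM hε hMε hx
  · intro X _ _ q hg
    exact not_hyperbolic hM hg

end Pool.Agent.Helper647.Sew
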